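import Pool.Agent.Y271.RO.Final
import Pool.Agent.H731R2.Riesz

/-!
# Rank one perturbations on reflexive Banach spaces: the functional calculus

`Ψ` is a continuous unital homomorphism of the algebra of the continuous functions on a disc to the
bounded operators on `X` which maps `z` to `N`.  Pairs `(w, x)` of a functional and a vector are
represented by products of two functions in `L²(μ)`, so that the parts of project RO
(`Pool.Agent.Y271.RO`) on Cauchy transforms can be used.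
-/

set_option autoImplicit false

namespace Pool.Agent.Q98.RB

open MeasureTheory Set Metric Filter Topology
open scoped ENNReal NNReal ComplexConjugate ContDiff
open Pool.Agent.Y283.NK (ct)
open Pool.Agent.Y271.RO (db ht Bd)

/-- the disc -/
abbrev DD (R : ℝ) : Type := closedBall (0:ℂ) R

/-- the inclusion of the disc -/
abbrev ι (R : ℝ) : DD R → ℂ := Subtype.val

theorem ι_meas (R : ℝ) : Measurable (ι R) := measurable_subtype_coe

theorem ι_bd (R : ℝ) (s : DD R) : ‖ι R s‖ ≤ R := by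
  have := s.2
  rwa [mem_closedBall_zero_iff] at this

variable {X : Type} [NormedAddCommGroup X] [NormedSpace ℂ X]

/-- a continuous calculus on the disc -/
structure Cal (N : X →L[ℂ] X) (R : ℝ) (Ψ : C(DD R, ℂ) →ₐ[ℂ] (X →L[ℂ] X)) : Prop where
  pos : 0 < R
  cont : Continuous Ψ
  id : Ψ ⟨Subtype.val, continuous_subtype_val⟩ = N

/-- restriction to the disc -/
noncomputable def rs (R : ℝ) (h : ℂ → ℂ) : C(DD R, ℂ) := by
  classical exact if hc : Continuous h then ⟨fun z => h z, hc.comp continuous_subtype_val⟩ else 0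

/-- the operator `h(N)` -/
noncomputable def op {R : ℝ} (Ψ : C(DD R, ℂ) →ₐ[ℂ] (X →L[ℂ] X)) (h : ℂ → ℂ) : X →L[ℂ] X :=
  Ψ (rs R h)

theorem rs_apply {R : ℝ} {h : ℂ → ℂ} (hc : Continuous h) (s : DD R) : rs R h s = h s := by
  unfold rs
  rw [dif_pos hc]
  rfl

section calculus

variable {N : X →L[ℂ] X} {R : ℝ} {Ψ : C(DD R, ℂ) →ₐ[ℂ] (X →L[ℂ] X)}

theorem op_congr {h k : ℂ → ℂ} (hh : Continuous h) (hk : Continuous k)
    (e : ∀ z, ‖z‖ ≤ R → h z = k z) : op Ψ h = op Ψ k := by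
  unfold op
  congr 1
  ext s
  rw [rs_apply hh, rs_apply hk]
  exact e s (ι_bd R s)

theorem op_add {h k : ℂ → ℂ} (hh : Continuous h) (hk : Continuous k) :
    op Ψ (fun z => h z + k z) = op Ψ h + op Ψ k := by
  unfold op
  rw [← map_add]
  congr 1
  ext s
  rw [ContinuousMap.add_apply, rs_apply hh, rs_apply hk, rs_apply (h := fun z => h z + k z) (hh.add hk)]

theorem op_sub {h k : ℂ → ℂ} (hh : Continuous h) (hk : Continuous k) :
    op Ψ (fun z => h z - k z) = op Ψ h - op Ψ k := by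
  unfold op
  rw [← map_sub]
  congr 1
  ext s
  rw [ContinuousMap.sub_apply, rs_apply hh, rs_apply hk, rs_apply (h := fun z => h z - k z) (hh.sub hk)]

theorem op_mul {h k : ℂ → ℂ} (hh : Continuous h) (hk : Continuous k) :
    op Ψ (fun z => h z * k z) = op Ψ h * op Ψ k := by
  unfold op
  rw [← map_mul]
  congr 1
  ext s
  rw [ContinuousMap.mul_apply, rs_apply hh, rs_apply hk, rs_apply (h := fun z => h z * k z) (hh.mul hk)]

theorem op_mul_apply {h k : ℂ → ℂ} (hh : Continuous h) (hk : Continuous k) (x : X) :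
    op Ψ (fun z => h z * k z) x = op Ψ h (op Ψ k x) := by
  rw [op_mul hh hk]
  rfl

theorem op_const (c : ℂ) : op Ψ (fun _ => c) = c • (1 : X →L[ℂ] X) := by
  unfold op
  rw [← map_one Ψ, ← map_smul]
  congr 1
  ext s
  rw [rs_apply continuous_const]
  simp

theorem op_zero : op Ψ (fun _ => (0:ℂ)) = 0 := by rw [op_const, zero_smul]

theorem op_smul {h : ℂ → ℂ} (hh : Continuous h) (c : ℂ) :
    op Ψ (fun z => c * h z) = c • op Ψ h := by
  rw [op_mul continuous_const hh, op_const, smul_mul_assoc, one_mul]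

theorem op_id (hΨ : Cal N R Ψ) : op Ψ (fun z => z) = N := by
  rw [← hΨ.id]
  unfold op
  congr 1
  ext s
  rw [rs_apply (h := fun z => z) continuous_id]
  rfl

/-- `(N - a) h(N) = k(N) + c` if `(z - a) h(z) = k(z) + c` -/
theorem op_step (hΨ : Cal N R Ψ) {h k : ℂ → ℂ} (hh : Continuous h) (hk : Continuous k) (a c : ℂ)
    (e : ∀ z, (z - a) * h z = k z + c) (x : X) :
    N (op Ψ h x) - a • op Ψ h x = op Ψ k x + c • x := by
  have h1 : op Ψ (fun z => (z - a) * h z) = op Ψ (fun z => k z + c) := by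
    congr 1
    funext z
    exact e z
  rw [op_mul (by fun_prop) hh, op_sub (by fun_prop) continuous_const, op_id hΨ, op_const,
    op_add hk continuous_const, op_const] at h1
  have h2 := congrArg (fun A : X →L[ℂ] X => A x) h1
  simpa [sub_mul] using h2

/-- the bound for the calculus -/
theorem op_bound (hΨ : Cal N R Ψ) : ∃ C : ℝ, 0 ≤ C ∧ ∀ (h : ℂ → ℂ) (M : ℝ), Continuous h → 0 ≤ M →
    (∀ z, ‖z‖ ≤ R → ‖h z‖ ≤ M) → ‖op Ψ h‖ ≤ C * M := by
  let L : C(DD R, ℂ) →L[ℂ] (X →L[ℂ] X) := ⟨Ψ.toLinearMap, hΨ.cont⟩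
  refine ⟨‖L‖, norm_nonneg L, fun h M hh hM hb => ?_⟩
  have h1 : op Ψ h = L (rs R h) := rfl
  rw [h1]
  refine (L.le_opNorm _).trans (mul_le_mul_of_nonneg_left ?_ (norm_nonneg L))
  rw [ContinuousMap.norm_le _ hM]
  intro s
  rw [rs_apply hh]
  exact hb s (ι_bd R s)

end calculus

/-- the functional `h ↦ w (h(N) x)` is represented by `conj w' x' μ` -/
def Rep {R : ℝ} (Ψ : C(DD R, ℂ) →ₐ[ℂ] (X →L[ℂ] X)) (w : X →L[ℂ] ℂ) (x : X)
    (μ : Measure (DD R)) (w' x' : Lp ℂ 2 μ) : Prop :=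
  ∀ h : ℂ → ℂ, Continuous h → w (op Ψ h x) = ∫ s, conj (w' s) * (h (ι R s) * x' s) ∂μ

section rep

variable {N : X →L[ℂ] X} {R : ℝ} {Ψ : C(DD R, ℂ) →ₐ[ℂ] (X →L[ℂ] X)}

theorem exists_rep (hΨ : Cal N R Ψ) (w : X →L[ℂ] ℂ) (x : X) :
    ∃ (μ : Measure (DD R)) (_ : IsFiniteMeasure μ) (w' x' : Lp ℂ 2 μ), Rep Ψ w x μ w' x' ∧
      (⇑x' =ᵐ[μ] fun _ => 1) := by
  let L : C(DD R, ℂ) →L[ℂ] (X →L[ℂ] X) := ⟨Ψ.toLinearMap, hΨ.cont⟩
  let F : StrongDual ℂ C(DD R, ℂ) := w.comp ((ContinuousLinearMap.apply ℂ X x).comp L)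
  obtain ⟨μ, hμ, -, d, hd⟩ := Pool.Agent.H731R2.exists_density F
  have h1 : MemLp (fun _ : DD R => (1:ℂ)) 2 μ := memLp_const 1
  refine ⟨μ, hμ, star d, h1.toLp _, fun h hh => ?_, h1.coeFn_toLp⟩
  have h2 : w (op Ψ h x) = F (rs R h) := rfl
  rw [h2, hd]
  refine integral_congr_ae ?_
  filter_upwards [h1.coeFn_toLp, Lp.coeFn_star d] with s e1 e2
  rw [e1, e2, rs_apply hh]
  simp only [Pi.star_apply, RCLike.star_def, Complex.conj_conj, mul_one]
  ring

end rep

end Pool.Agent.Q98.RB
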