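import Pool.Agent.Q98.RB.Ess

/-!
# Rank one perturbations on reflexive spaces: adjoints, the two cases, the theorem
-/

set_option autoImplicit false

namespace Pool.Agent.Q98.RB

open MeasureTheory Set Metric Filter Topology
open scoped InnerProductSpace ENNReal NNReal ComplexConjugate ContDiff

variable {X : Type} [NormedAddCommGroup X] [NormedSpace ℂ X]
variable {N : X →L[ℂ] X} {R : ℝ} {Ψ : C(DD R, ℂ) →ₐ[ℂ] (X →L[ℂ] X)}

/-! ### Adjoints -/

/-- the adjoint operator, on the dual space -/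
noncomputable def tr : (X →L[ℂ] X) →L[ℂ] (StrongDual ℂ X →L[ℂ] StrongDual ℂ X) :=
  (ContinuousLinearMap.compL ℂ X X ℂ).flip

theorem tr_apply (A : X →L[ℂ] X) (w : StrongDual ℂ X) (x : X) : tr A w x = w (A x) := rfl

/-- the adjoint calculus -/
noncomputable def trΨ (Ψ : C(DD R, ℂ) →ₐ[ℂ] (X →L[ℂ] X)) :
    C(DD R, ℂ) →ₐ[ℂ] (StrongDual ℂ X →L[ℂ] StrongDual ℂ X) :=
  AlgHom.ofLinearMap (tr.toLinearMap ∘ₗ Ψ.toLinearMap)
    (by
      ext w x
      show w (Ψ 1 x) = w x
      rw [map_one]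
      rfl)
    (by
      intro h k
      ext w x
      show w (Ψ (h * k) x) = w (Ψ k (Ψ h x))
      rw [mul_comm, map_mul]
      rfl)

theorem trΨ_op (h : ℂ → ℂ) : op (trΨ Ψ) h = tr (op Ψ h) := rfl

theorem Cal.tr (hΨ : Cal N R Ψ) : Cal (tr N) R (trΨ Ψ) := by
  refine ⟨hΨ.pos, ?_, ?_⟩
  · have h1 : Continuous fun h : C(DD R, ℂ) => RB.tr (Ψ h) := RB.tr.continuous.comp hΨ.cont
    exact h1
  · show RB.tr (Ψ _) = RB.tr N
    rw [hΨ.id]

theorem tr_T1 (u : X) (v : X →L[ℂ] ℂ) :
    tr (T1 N u v) = T1 (tr N) v (NormedSpace.inclusionInDoubleDual ℂ X u) := by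
  ext w x
  rw [T1_apply]
  show w (T1 N u v x) = w (N x) + w u * v x
  rw [T1_apply, map_add, map_smul, smul_eq_mul, mul_comm]

theorem Refl.dual (hX : Refl X) : Refl (StrongDual ℂ X) := by
  intro F
  refine ⟨F.comp (NormedSpace.inclusionInDoubleDual ℂ X), ?_⟩
  ext G
  obtain ⟨x, rfl⟩ := hX G
  rfl

theorem dual_fd (V : Type) [AddCommGroup V] [Module ℂ V] [FiniteDimensional ℂ V] :
    FiniteDimensional ℂ (Module.Dual ℂ V) := inferInstance

theorem FR_of_tr {A : X →L[ℂ] X} (h : FR (tr A)) : FR A := by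
  have hF : FiniteDimensional ℂ (LinearMap.range (tr A : StrongDual ℂ X →ₗ[ℂ] StrongDual ℂ X)) := h
  set F := LinearMap.range (tr A : StrongDual ℂ X →ₗ[ℂ] StrongDual ℂ X) with hFdef
  let L : X →ₗ[ℂ] Module.Dual ℂ F :=
    { toFun := fun x =>
        { toFun := fun f => (f : StrongDual ℂ X) x
          map_add' := fun f g => rfl
          map_smul' := fun c f => rfl }
      map_add' := fun x y => by
        ext f
        exact map_add (f : StrongDual ℂ X) x y
      map_smul' := fun c x => by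
        ext f
        exact map_smul (f : StrongDual ℂ X) c x }
  have hker : LinearMap.ker L ≤ LinearMap.ker (A : X →ₗ[ℂ] X) := by
    intro x hx
    rw [LinearMap.mem_ker] at hx ⊢
    show A x = 0
    refine SeparatingDual.eq_zero_of_forall_dual_eq_zero (R := ℂ) fun w => ?_
    have h1 := congrArg (fun l : Module.Dual ℂ F => l ⟨tr A w, LinearMap.mem_range_self _ w⟩) hx
    exact h1
  have hD : FiniteDimensional ℂ (Module.Dual ℂ F) := dual_fd F
  have hD' : FiniteDimensional ℂ (LinearMap.range L) :=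
    Submodule.finiteDimensional_of_le (le_top : LinearMap.range L ≤ ⊤)
  have h1 : FiniteDimensional ℂ (X ⧸ LinearMap.ker L) :=
    LinearEquiv.finiteDimensional (LinearMap.quotKerEquivRange L).symm
  have h2 : FiniteDimensional ℂ (X ⧸ LinearMap.ker (A : X →ₗ[ℂ] X)) :=
    Module.Finite.of_surjective (Submodule.factor hker) (Submodule.factor_surjective hker)
  unfold FR
  exact LinearEquiv.finiteDimensional (LinearMap.quotKerEquivRange (A : X →ₗ[ℂ] X))

theorem Ess.tr {a : ℂ} (h : Ess Ψ a) : Ess (trΨ Ψ) a := fun t ht hF => h t ht (FR_of_tr hF)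

/-! ### The case of one point -/

theorem compact_of_one [CompleteSpace X] (hΨ : Cal N R Ψ) (a₀ : ℂ)
    (h : ∀ a, a ≠ a₀ → ¬ Ess Ψ a) :
    IsCompactOperator (⇑(N - a₀ • (1 : X →L[ℂ] X))) := by
  obtain ⟨C₀, hC₀, hop⟩ := op_bound hΨ
  -- a compact operator for each `ε`
  have key : ∀ ε : ℝ, 0 < ε → ∃ K : X →L[ℂ] X, IsCompactOperator (⇑K) ∧
      ‖(N - a₀ • (1 : X →L[ℂ] X)) - K‖ ≤ C₀ * (2 * ε) := by
    intro ε hε
    have h1 : ∀ a : ℂ, ∃ t : ℝ, 0 < t ∧ (a ≠ a₀ → FR (op Ψ (cf a t))) := by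
      intro a
      by_cases ha : a = a₀
      · exact ⟨1, one_pos, fun h => absurd ha h⟩
      · have h2 := h a ha
        unfold Ess at h2
        push Not at h2
        obtain ⟨t, ht, h3⟩ := h2
        exact ⟨t, ht, fun _ => h3⟩
    choose t ht0 ht using h1
    have hKc : IsCompact (closedBall (0:ℂ) R \ ball a₀ ε) :=
      (isCompact_closedBall (0:ℂ) R).diff isOpen_ball
    obtain ⟨F, hFs, hF⟩ := hKc.elim_nhds_subcover (fun a => ball a (t a))
      (fun a _ => ball_mem_nhds a (ht0 a))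
    have hFne : ∀ a ∈ F, a ≠ a₀ := by
      intro a ha h0
      have := (hFs a ha).2
      rw [h0] at this
      exact this (mem_ball_self hε)
    set g : ℂ → ℝ := fun z => ∑ b ∈ F, cfr b (t b) z with hg
    have hgc : Continuous g := continuous_finsetSum _ fun b _ => cfr_cont b (t b)
    have hg1 : ∀ z, ‖z‖ ≤ R → z ∉ ball a₀ ε → 1 ≤ g z := by
      intro z hz hz'
      obtain ⟨b, hb, hzb⟩ := mem_iUnion₂.1 (hF ⟨mem_closedBall_zero_iff.2 hz, hz'⟩)
      rw [mem_ball, dist_eq_norm] at hzb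
      calc (1:ℝ) = cfr b (t b) z := (cfr_one (ht0 b) hzb.le).symm
        _ ≤ g z := Finset.single_le_sum (f := fun b => cfr b (t b) z)
            (fun b _ => cfr_nonneg _ _ _) hb
    have hm : ∀ z, ((max (g z) 1 : ℝ) : ℂ) ≠ 0 := fun z => by
      have : (0:ℝ) < max (g z) 1 := lt_max_of_lt_right one_pos
      exact_mod_cast this.ne'
    set k : ℂ → ℂ := fun z => (z - a₀) * (1 - cf a₀ ε z) / ((max (g z) 1 : ℝ) : ℂ) with hk
    have hkc : Continuous k := by
      have := cf_cont a₀ ε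
      refine Continuous.div (by fun_prop) ?_ hm
      exact Complex.continuous_ofReal.comp (hgc.max continuous_const)
    have hcfc : ∀ b, Continuous (cf b (t b)) := fun b => cf_cont _ _
    -- the operator
    set K : X →L[ℂ] X := ∑ b ∈ F, op Ψ k * op Ψ (cf b (t b)) with hK
    have hKcomp : IsCompactOperator (⇑K) := by
      have h2 : K ∈ (compactOperator (RingHom.id ℂ) X X : Submodule ℂ (X →L[ℂ] X)) := by
        rw [hK]
        refine Submodule.sum_mem _ fun b hb => ?_
        show IsCompactOperator (⇑(op Ψ k * op Ψ (cf b (t b))))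
        exact (ht b (hFne b hb)).compact.clm_comp (op Ψ k)
      exact h2
    have hsum : K = op Ψ (fun z => k z * (g z : ℂ)) := by
      have h3 : ∀ F : Finset ℂ, ∑ b ∈ F, op Ψ k * op Ψ (cf b (t b)) =
          op Ψ (fun z => k z * ((∑ b ∈ F, cfr b (t b) z : ℝ) : ℂ)) := by
        classical
        intro F
        induction F using Finset.induction_on with
        | empty =>
          simp only [Finset.sum_empty, Complex.ofReal_zero, mul_zero]
          rw [op_zero]
        | insert b F hb ih =>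
          rw [Finset.sum_insert hb, ih, ← op_mul hkc (hcfc b),
            ← op_add (h := fun z => k z * cf b (t b) z) (hkc.mul (hcfc b))]
          · congr 1
            funext z
            rw [Finset.sum_insert hb]
            unfold cf
            push_cast
            ring
          · refine hkc.mul (Complex.continuous_ofReal.comp ?_)
            exact continuous_finsetSum _ fun b _ => cfr_cont b (t b)
      rw [hK, h3 F]
    have hkg : K = op Ψ (fun z => (z - a₀) * (1 - cf a₀ ε z)) := by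
      rw [hsum]
      refine op_congr (hkc.mul (Complex.continuous_ofReal.comp hgc)) ?_ fun z hz => ?_
      · have := cf_cont a₀ ε
        fun_prop
      · by_cases hb : z ∈ ball a₀ ε
        · rw [mem_ball, dist_eq_norm] at hb
          simp only [hk]
          rw [cf_one hε hb.le]
          simp
        · have h4 := hg1 z hz hb
          have h5 : max (g z) 1 = g z := max_eq_left h4
          have h6 : (g z : ℂ) ≠ 0 := by
            have : g z ≠ 0 := by linarith
            exact_mod_cast this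
          simp only [hk]
          rw [h5]
          field_simp
    refine ⟨K, hKcomp, ?_⟩
    have hNa : N - a₀ • (1 : X →L[ℂ] X) = op Ψ (fun z => z - a₀) := by
      rw [op_sub continuous_id' continuous_const, op_id hΨ, op_const]
    have hcf := cf_cont a₀ ε
    rw [hNa, hkg, ← op_sub (by fun_prop) (by fun_prop)]
    refine hop _ _ (by fun_prop) (by positivity) fun z _ => ?_
    have e : z - a₀ - (z - a₀) * (1 - cf a₀ ε z) = (z - a₀) * cf a₀ ε z := by ring
    rw [e]
    rcases le_or_gt (2 * ε) ‖z - a₀‖ with h7 | h7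
    · rw [cf_zero hε h7, mul_zero, norm_zero]
      positivity
    · rw [norm_mul]
      calc ‖z - a₀‖ * ‖cf a₀ ε z‖ ≤ 2 * ε * 1 :=
            mul_le_mul h7.le (cf_norm _ _ _) (norm_nonneg _) (by positivity)
        _ = _ := mul_one _
  choose K hK1 hK2 using fun n : ℕ => key (1 / (n + 1)) (by positivity)
  have hlim : Tendsto K atTop (𝓝 (N - a₀ • (1 : X →L[ℂ] X))) := by
    rw [tendsto_iff_norm_sub_tendsto_zero]
    have h1 : Tendsto (fun n : ℕ => C₀ * (2 * (1 / ((n:ℝ) + 1)))) atTop (𝓝 0) := by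
      have := ((tendsto_one_div_add_atTop_nhds_zero_nat (𝕜 := ℝ)).const_mul 2).const_mul C₀
      simpa using this
    refine squeeze_zero (fun _ => norm_nonneg _) (fun n => ?_) h1
    rw [norm_sub_rev]
    exact hK2 n
  exact isCompactOperator_of_tendsto hlim (Eventually.of_forall hK1)

theorem rank_compact (u : X) (v : X →L[ℂ] ℂ) :
    IsCompactOperator (⇑(v.smulRight u : X →L[ℂ] X)) := by
  have h1 : IsCompactOperator (⇑(v : X →L[ℂ] ℂ)) := by
    refine ⟨closedBall 0 1, isCompact_closedBall 0 1, ?_⟩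
    exact v.continuous.continuousAt.preimage_mem_nhds
      (by rw [map_zero]; exact closedBall_mem_nhds 0 one_pos)
  have h2 := h1.clm_comp ((1 : ℂ →L[ℂ] ℂ).smulRight u)
  have h3 : (⇑((1 : ℂ →L[ℂ] ℂ).smulRight u) ∘ ⇑v) =
      ⇑(v.smulRight u : X →L[ℂ] X) := by
    funext f
    simp
  rw [h3] at h2
  exact h2

theorem hyp_shift {T : X →L[ℂ] X} (c : ℂ)
    (h : HasHyp (T - c • (1 : X →L[ℂ] X))) : HasHyp T := by
  obtain ⟨V, h1, h2, h3, h4⟩ := h
  refine ⟨V, h1, h2, h3, fun Q hQ x hx => h4 Q ?_ x hx⟩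
  rw [mul_sub, sub_mul, hQ, mul_smul_comm, smul_mul_assoc, mul_one, one_mul]

/-- the theorem, for a calculus on a disc -/
theorem main_disc [CompleteSpace X] (hX : Refl X) (hΨ : Cal N R Ψ) (u : X) (v : X →L[ℂ] ℂ) :
    (∃ c : ℂ, T1 N u v = c • 1) ∨ HasHyp (T1 N u v) := by
  by_cases h : ∃ a b : ℂ, a ≠ b ∧ Ess Ψ a ∧ Ess Ψ b
  · right
    obtain ⟨a, b, hab, ha, hb⟩ := h
    have hdist : 0 < ‖a - b‖ := norm_pos_iff.2 (sub_ne_zero.2 hab)
    obtain ⟨x, ⟨X1, C₁, X2⟩, X3⟩ := chain hX hΨ u v a (r := ‖a - b‖ / 3) (by positivity) ha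
    obtain ⟨Y, ⟨Y1, C₂, Y2⟩, Y3⟩ := chain hX.dual hΨ.tr v
      (NormedSpace.inclusionInDoubleDual ℂ X u) b (r := ‖a - b‖ / 3) (by positivity) hb.tr
    rw [← tr_T1] at Y1
    exact ann (T1 N u v) a b _ _ C₁ C₂ x Y (by positivity)
      (by positivity) (by linarith) X1 X2 Y1 Y2 X3 Y3
  · have h1 : ∃ a₀ : ℂ, ∀ a, a ≠ a₀ → ¬ Ess Ψ a := by
      by_cases h2 : ∃ a, Ess Ψ a
      · obtain ⟨a, ha⟩ := h2
        exact ⟨a, fun b hb hE => h ⟨a, b, hb.symm, ha, hE⟩⟩
      · exact ⟨0, fun a _ hE => h2 ⟨a, hE⟩⟩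
    obtain ⟨a, ha⟩ := h1
    have hc := compact_of_one hΨ a ha
    by_cases hsc : ∃ c : ℂ, T1 N u v = c • 1
    · exact Or.inl hsc
    right
    have h1 : IsCompactOperator (⇑(T1 N u v - a • (1 : X →L[ℂ] X))) := by
      have h4 : T1 N u v - a • (1 : X →L[ℂ] X) =
          (N - a • (1 : X →L[ℂ] X)) + v.smulRight u := by
        unfold T1
        abel
      rw [h4]
      exact hc.add (rank_compact u v)
    refine hyp_shift a (Pool.Agent.W577.HI.G1.main _ _ h1 ?_)
    rintro ⟨c, hc⟩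
    apply hsc
    refine ⟨c + a, ?_⟩
    rw [add_smul, ← hc]
    abel

/-- the theorem, for a calculus on a compact set -/
theorem main [CompleteSpace X] (hX : Refl X) (N : X →L[ℂ] X) (K : Set ℂ) (hK : IsCompact K)
    (Ψ : C(K, ℂ) →ₐ[ℂ] (X →L[ℂ] X)) (hc : Continuous Ψ)
    (hid : Ψ ⟨Subtype.val, continuous_subtype_val⟩ = N) (u : X) (v : X →L[ℂ] ℂ) :
    (∃ c : ℂ, T1 N u v = c • 1) ∨ HasHyp (T1 N u v) := by
  obtain ⟨R, hR⟩ := hK.isBounded.subset_closedBall (0:ℂ)
  have hR' : K ⊆ closedBall (0:ℂ) (|R| + 1) :=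
    hR.trans (closedBall_subset_closedBall (by have := le_abs_self R; linarith))
  let f : C(K, DD (|R| + 1)) := ⟨fun z => ⟨z, hR' z.2⟩, by fun_prop⟩
  have hcal : Cal N (|R| + 1) (Ψ.comp (ContinuousMap.compRightAlgHom ℂ ℂ f)) := by
    refine ⟨by positivity, ?_, ?_⟩
    · exact hc.comp (ContinuousMap.compRightAlgHom_continuous ℂ ℂ f)
    · rw [← hid]
      rfl
  exact main_disc hX hcal u v

end Pool.Agent.Q98.RB
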