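import Pool.Agent.Q98.RB.Zero

/-!
# Case A: the vectors, and what follows if there is no chain
-/

set_option autoImplicit false

namespace Pool.Agent.Q98.RB

open MeasureTheory Set Metric Filter Topology
open scoped ENNReal NNReal ComplexConjugate ContDiff
open Pool.Agent.Y283.NK (ct)
open Pool.Agent.Y271.RO (db ht Bd ff hHT hCTG hPOM)
open Pool.Agent.Y914.RO.VEC (bdk integ)

variable {X : Type} [NormedAddCommGroup X] [NormedSpace ℂ X]
variable {N : X →L[ℂ] X} {R : ℝ} {Ψ : C(DD R, ℂ) →ₐ[ℂ] (X →L[ℂ] X)}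

/-- the vectors of case A -/
theorem vec (hΨ : Cal N R Ψ) {u : X} {v : X →L[ℂ] ℂ} {μ₀ : Measure (DD R)}
    [IsFiniteMeasure μ₀] {v' u' : Lp ℂ 2 μ₀} (hrep : Rep Ψ v u μ₀ v' u') {a : ℂ} {r : ℝ}
    (hr : 0 < r) (ψ : ℂ → ℂ) (hψ : ContDiff ℝ ∞ ψ) (hψs : tsupport ψ ⊆ ball a r) (C : ℝ) :
    ∃ K : ℝ, ∀ q : ℂ → ℂ,
      ContDiff ℝ 1 q → (∀ z ∈ ball a r, ‖q z‖ ≤ C) →
      ∃ V : ℕ → X, (∀ k, ‖V k‖ ≤ K * r ^ k) ∧
        (∀ k, T1 N u v (V k) - a • V k = V (k + 1) +
          (∫ z in ball a r, (z - a) ^ k * ψ z * (ff (ι R) u' v' z * db q z)) • u) ∧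
        ∀ (w : X →L[ℂ] ℂ) (μ : Measure (DD R)) (_ : IsFiniteMeasure μ) (w' x' : Lp ℂ 2 μ),
          Rep Ψ w u μ w' x' → w (V 0) = (∫ z, q z * db ψ z * ct (ι R) w' x' z) +
          Real.pi * ∫ s, conj (w' s) * (q (ι R s) * ψ (ι R s) * x' s) ∂μ := by
  obtain ⟨hP1, hP2, hP3, -, hP5, -, hP7⟩ := hPOM
  obtain ⟨K₀, hK₀, hHT'⟩ := hHT r hr
  obtain ⟨C₀, hC₀, hop⟩ := op_bound hΨ
  have hψ1 : ContDiff ℝ 1 ψ := hψ.of_le (by exact_mod_cast le_top)
  have hψc : HasCompactSupport ψ :=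
    Metric.isCompact_of_isClosed_isBounded (isClosed_tsupport ψ) (isBounded_ball.subset hψs)
  have hdψc : HasCompactSupport (db ψ) := HasCompactSupport.intro hψc fun z hz => hP7 ψ z hz
  obtain ⟨C₁, hC₁⟩ := hψc.exists_bound_of_continuous hψ1.continuous
  obtain ⟨C₂, hC₂⟩ := hdψc.exists_bound_of_continuous (hP5 ψ hψ1)
  have hC₁0 : 0 ≤ C₁ := (norm_nonneg _).trans (hC₁ 0)
  have hC₂0 : 0 ≤ C₂ := (norm_nonneg _).trans (hC₂ 0)
  have hψ0 : ∀ z, z ∉ ball a r → ψ z = 0 := fun z hz =>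
    image_eq_zero_of_notMem_tsupport fun h => hz (hψs h)
  have hdψ0 : ∀ z, z ∉ ball a r → db ψ z = 0 := fun z hz => hP7 ψ z fun h => hz (hψs h)
  refine ⟨C₀ * ((K₀ * (|C| * C₂) + Real.pi * (|C| * C₁)) * ‖u‖), ?_⟩
  intro q hq hqC
  have hqC' : ∀ z ∈ ball a r, ‖q z‖ ≤ |C| := fun z hz => (hqC z hz).trans (le_abs_self C)
  have hdq := hP5 q hq
  -- the three functions
  set g : ℂ → ℂ := fun z => q z * db ψ z with hg
  set e : ℂ → ℂ := fun z => ψ z * db q z with he
  set χ : ℂ → ℂ := fun z => q z * ψ z with hχ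
  have hgc : Continuous g := hq.continuous.mul (hP5 ψ hψ1)
  have hec : Continuous e := hψ1.continuous.mul hdq
  have hχc : ContDiff ℝ 1 χ := hq.mul hψ1
  have hes : HasCompactSupport e := hψc.mul_right
  obtain ⟨Me, hMe⟩ := hes.exists_bound_of_continuous hec
  have hMe0 : 0 ≤ Me := (norm_nonneg _).trans (hMe 0)
  have hg0 : ∀ z, z ∉ ball a r → g z = 0 := fun z hz => by simp only [hg, hdψ0 z hz, mul_zero]
  have he0 : ∀ z, z ∉ ball a r → e z = 0 := fun z hz => by simp only [he, hψ0 z hz, zero_mul]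
  have hχ0 : ∀ z, z ∉ ball a r → χ z = 0 := fun z hz => by simp only [hχ, hψ0 z hz, mul_zero]
  have hgb : ∀ z ∈ ball a r, ‖g z‖ ≤ |C| * C₂ := fun z hz => by
    simp only [hg, norm_mul]
    exact mul_le_mul (hqC' z hz) (hC₂ z) (norm_nonneg _) (abs_nonneg C)
  have hχb : ∀ z ∈ ball a r, ‖χ z‖ ≤ |C| * C₁ := fun z hz => by
    simp only [hχ, norm_mul]
    exact mul_le_mul (hqC' z hz) (hC₁ z) (norm_nonneg _) (abs_nonneg C)
  have Bg : ∀ k : ℕ, Bd (fun z => (z - a) ^ k * g z) a r (r ^ k * (|C| * C₂)) := fun k =>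
    bdk g hgc (by positivity) hr hgb hg0 k
  have Be : ∀ k : ℕ, Bd (fun z => (z - a) ^ k * e z) a r (r ^ k * Me) := fun k =>
    bdk e hec hMe0 hr (fun z _ => hMe z) he0 k
  have Bχ : ∀ k : ℕ, Bd (fun z => (z - a) ^ k * χ z) a r (r ^ k * (|C| * C₁)) := fun k =>
    bdk χ hχc.continuous (by positivity) hr hχb hχ0 k
  -- the product rule
  have hdb : ∀ (k : ℕ) (z : ℂ), db (fun z => (z - a) ^ k * χ z) z =
      (z - a) ^ k * g z + (z - a) ^ k * e z := by
    intro k z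
    have hF : DifferentiableAt ℂ (fun z : ℂ => (z - a) ^ k) z := by fun_prop
    rw [hP2 (fun z => (z - a) ^ k) χ z (hF.restrictScalars ℝ)
      (hχc.differentiable one_ne_zero z), hP3 _ z hF, zero_mul, zero_add]
    have h1 : db χ z = db q z * ψ z + q z * db ψ z :=
      hP2 q ψ z (hq.differentiable one_ne_zero z) (hψ1.differentiable one_ne_zero z)
    rw [h1]
    simp only [hg, he]
    ring
  -- the formula of Cauchy and Pompeiu
  have hkey : ∀ (k : ℕ) (l : ℂ), -(ht (fun z => (z - a) ^ k * e z) l) =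
      ht (fun z => (z - a) ^ k * g z) l + Real.pi * ((l - a) ^ k * χ l) := by
    intro k l
    have hc1 : ContDiff ℝ 1 (fun z : ℂ => (z - a) ^ k * χ z) :=
      ((contDiff_id.sub contDiff_const).pow k).mul hχc
    have hc2 : HasCompactSupport (fun z : ℂ => (z - a) ^ k * χ z) := by
      refine HasCompactSupport.intro hψc fun z hz => ?_
      show (z - a) ^ k * (q z * ψ z) = 0
      rw [image_eq_zero_of_notMem_tsupport hz, mul_zero, mul_zero]
    have h1 := hP1 _ hc1 hc2 l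
    have h2 : ht (db (fun z => (z - a) ^ k * χ z)) l =
        ht (fun z => (z - a) ^ k * g z) l + ht (fun z => (z - a) ^ k * e z) l := by
      unfold ht
      rw [← integral_add ((hHT' _ _ _ (Bg k)).2.2.1 l) ((hHT' _ _ _ (Be k)).2.2.1 l)]
      refine integral_congr_ae (Eventually.of_forall fun z => ?_)
      show db (fun z => (z - a) ^ k * χ z) z * (z - l)⁻¹ = _
      rw [hdb]
      ring
    rw [h2] at h1
    linear_combination -h1
  -- the functions `h k`
  set h : ℕ → ℂ → ℂ := fun k l => -(ht (fun z => (z - a) ^ k * e z) l) with hh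
  have hhc : ∀ k, Continuous (h k) := fun k => (ht_cont hr (Be k)).neg
  have hhb : ∀ k l, ‖h k l‖ ≤ r ^ k * (K₀ * (|C| * C₂) + Real.pi * (|C| * C₁)) := by
    intro k l
    have h1 : h k l = ht (fun z => (z - a) ^ k * g z) l + Real.pi * ((l - a) ^ k * χ l) :=
      hkey k l
    have h2 := (hHT' _ _ _ (Bg k)).2.2.2.1 l
    have h3 := (Bχ k).bd l
    rw [h1]
    refine (norm_add_le _ _).trans ?_
    rw [norm_mul, Complex.norm_real, Real.norm_of_nonneg Real.pi_pos.le]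
    have h4 := mul_le_mul_of_nonneg_left h3 Real.pi_pos.le
    calc ‖ht (fun z => (z - a) ^ k * g z) l‖ + Real.pi * ‖(l - a) ^ k * χ l‖
        ≤ K₀ * (r ^ k * (|C| * C₂)) + Real.pi * (r ^ k * (|C| * C₁)) := add_le_add h2 h4
      _ = _ := by ring
  have hM0 : ∀ k : ℕ, 0 ≤ r ^ k * (K₀ * (|C| * C₂) + Real.pi * (|C| * C₁)) := fun k => by
    positivity
  refine ⟨fun k => op Ψ (h k) u, ?_, ?_, ?_⟩
  · intro k
    have h1 := hop (h k) _ (hhc k) (hM0 k) (fun z _ => hhb k z)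
    calc ‖op Ψ (h k) u‖ ≤ ‖op Ψ (h k)‖ * ‖u‖ := (op Ψ (h k)).le_opNorm u
      _ ≤ C₀ * (r ^ k * (K₀ * (|C| * C₂) + Real.pi * (|C| * C₁))) * ‖u‖ := by gcongr
      _ = _ := by ring
  · intro k
    have h0 : ∀ z, (z - a) * h k z = h (k + 1) z + ∫ z, (z - a) ^ k * e z := by
      intro l
      have h2 := (hHT' _ _ _ (Be k)).2.2.2.2 a l
      have h3 : (fun z => (z - a) * ((z - a) ^ k * e z)) = fun z => (z - a) ^ (k + 1) * e z := by
        funext z
        ring
      rw [h3] at h2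
      simp only [hh]
      rw [h2]
      ring
    have h1 := op_step hΨ (hhc k) (hhc (k + 1)) a _ h0 u
    have h2 : v (op Ψ (h k) u) = -∫ z, (z - a) ^ k * e z * ct (ι R) v' u' z := by
      have h3 := pair_ht hrep hr (Be k)
      rw [← h3, ← map_neg]
      congr 1
      have h4 : op Ψ (h k) = op Ψ (fun z => (-1) * ht (fun z => (z - a) ^ k * e z) z) := by
        congr 1
        funext z
        simp only [hh]
        ring
      rw [h4, op_smul (ht_cont hr (Be k))]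
      simp
    have h3 : ∫ z in ball a r, (z - a) ^ k * ψ z * (ff (ι R) u' v' z * db q z) =
        (∫ z, (z - a) ^ k * e z) - ∫ z, (z - a) ^ k * e z * ct (ι R) v' u' z := by
      rw [← integral_sub (hHT' _ _ _ (Be k)).1
        ((hCTG (DD R) μ₀ (ι R) (ι_meas R) v' u').2.2 a r _ _ (Be k)).1]
      rw [setIntegral_eq_integral_of_forall_compl_eq_zero]
      · refine integral_congr_ae (Eventually.of_forall fun z => ?_)
        simp only [he, ff]
        ring
      · intro z hz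
        rw [hψ0 z hz]
        ring
    rw [h3, T1_apply, h2, add_sub_right_comm, h1, sub_smul, neg_smul]
    abel
  · intro w μ _ w' x' hw
    rw [hw _ (hhc 0)]
    have h1 : ∀ s : DD R, conj (w' s) * (h 0 (ι R s) * x' s) =
        conj (w' s) * (ht (fun z => (z - a) ^ 0 * g z) (ι R s) * x' s) +
          Real.pi * (conj (w' s) * (q (ι R s) * ψ (ι R s) * x' s)) := by
      intro s
      have h2 : h 0 (ι R s) = ht (fun z => (z - a) ^ 0 * g z) (ι R s) +
        Real.pi * ((ι R s - a) ^ 0 * χ (ι R s)) := hkey 0 (ι R s)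
      rw [h2]
      simp only [hχ, pow_zero, one_mul]
      ring
    have i1 : Integrable
        (fun s => conj (w' s) * (ht (fun z => (z - a) ^ 0 * g z) (ι R s) * x' s)) μ :=
      integ (ι_meas R) w' x' _ (hHT' _ _ _ (Bg 0)).2.1 (hHT' _ _ _ (Bg 0)).2.2.2.1
    have i2 : Integrable (fun s => conj (w' s) * (q (ι R s) * ψ (ι R s) * x' s)) μ := by
      have hb : ∀ l, ‖χ l‖ ≤ r ^ 0 * (|C| * C₁) := fun l => by
        have := (Bχ 0).bd l
        simpa only [pow_zero, one_mul] using this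
      exact integ (ι_meas R) w' x' χ hχc.continuous.measurable hb
    rw [integral_congr_ae (Eventually.of_forall h1), integral_add i1 (i2.const_mul _),
      integral_const_mul, ((hCTG (DD R) μ (ι R) (ι_meas R) w' x').2.2 a r _ _ (Bg 0)).2]
    simp only [hg, pow_zero, one_mul]

/-- the pairings of the vectors `V 0` tend to zero -/
def Star (Ψ : C(DD R, ℂ) →ₐ[ℂ] (X →L[ℂ] X)) (u : X) (a : ℂ) (r : ℝ) (q : ℕ → ℂ → ℂ) : Prop :=
  ∀ ψ : ℂ → ℂ, ContDiff ℝ ∞ ψ → tsupport ψ ⊆ ball a r →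
    ∀ (w : X →L[ℂ] ℂ) (μ : Measure (DD R)) (_ : IsFiniteMeasure μ) (w' x' : Lp ℂ 2 μ),
      Rep Ψ w u μ w' x' → Tendsto (fun n => (∫ z, q n z * db ψ z * ct (ι R) w' x' z) +
        Real.pi * ∫ s, conj (w' s) * (q n (ι R s) * ψ (ι R s) * x' s) ∂μ) atTop (𝓝 0)

/-- if there is no chain, then `Star` holds -/
theorem nul (hX : Refl X) (hΨ : Cal N R Ψ) {u : X} {v : X →L[ℂ] ℂ} {μ₀ : Measure (DD R)}
    [IsFiniteMeasure μ₀] {v' u' : Lp ℂ 2 μ₀} (hrep : Rep Ψ v u μ₀ v' u') {a : ℂ} {r : ℝ}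
    (hr : 0 < r) (q : ℕ → ℂ → ℂ) (C : ℝ) (hq : ∀ n, ContDiff ℝ 1 (q n))
    (hqC : ∀ n, ∀ z ∈ ball a r, ‖q n z‖ ≤ C)
    (hq0 : Tendsto (fun n => ∫⁻ z in ball a r, ‖ff (ι R) u' v' z * db (q n) z‖ₑ) atTop (𝓝 0))
    (hno : ¬ HasCh (T1 N u v) a r) : Star Ψ u a r q := by
  intro ψ hψ hsupp w μ hμ w' x' hw
  obtain ⟨K, hK⟩ := vec hΨ hrep hr ψ hψ hsupp C
  choose V hV1 hV2 hV3 using fun n => hK (q n) (hq n) (hqC n)
  -- `ψ` is bounded
  have hcs : HasCompactSupport ψ :=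
    (isCompact_closedBall a r).of_isClosed_subset (isClosed_tsupport ψ)
      (hsupp.trans ball_subset_closedBall)
  obtain ⟨B, hB⟩ := hcs.exists_bound_of_continuous hψ.continuous
  have hB0 : 0 ≤ B := (norm_nonneg _).trans (hB a)
  have hlim : ∀ k : ℕ, Tendsto (fun n => ∫ z in ball a r,
      (z - a) ^ k * ψ z * (ff (ι R) u' v' z * db (q n) z)) atTop (𝓝 0) := by
    intro k
    rw [tendsto_zero_iff_enorm_tendsto_zero]
    have hub : Tendsto (fun n => ENNReal.ofReal (r ^ k * B) *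
        ∫⁻ z in ball a r, ‖ff (ι R) u' v' z * db (q n) z‖ₑ) atTop (𝓝 0) := by
      have := ENNReal.Tendsto.const_mul (a := ENNReal.ofReal (r ^ k * B)) hq0
        (Or.inr ENNReal.ofReal_ne_top)
      rwa [mul_zero] at this
    refine tendsto_of_tendsto_of_tendsto_of_le_of_le tendsto_const_nhds hub
      (fun _ => zero_le) (fun n => ?_)
    refine (enorm_integral_le_lintegral_enorm _).trans ?_
    rw [← lintegral_const_mul' _ _ ENNReal.ofReal_ne_top]
    refine setLIntegral_mono' measurableSet_ball fun z hz => ?_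
    rw [enorm_mul]
    refine mul_le_mul' ?_ le_rfl
    rw [← ofReal_norm]
    refine ENNReal.ofReal_le_ofReal ?_
    rw [norm_mul, norm_pow]
    refine mul_le_mul (pow_le_pow_left₀ (norm_nonneg _) ?_ k) (hB z) (norm_nonneg _) (by positivity)
    exact (mem_ball_iff_norm.1 hz).le
  have h2 := (wlim_chain hX (T1 N u v) a r K V hV1 (by
    intro k
    have h3 : (fun n => T1 N u v (V n k) - a • V n k - V n (k + 1)) =
        fun n => (∫ z in ball a r,
          (z - a) ^ k * ψ z * (ff (ι R) u' v' z * db (q n) z)) • u := by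
      funext n
      rw [hV2 n k]
      abel
    rw [h3]
    have := (hlim k).smul_const u
    rwa [zero_smul] at this)).2 (by
    intro Y hY
    by_contra h0
    exact hno ⟨Y, hY, h0⟩) w
  have h3 : (fun n => w (V n 0)) = fun n => (∫ z, q n z * db ψ z * ct (ι R) w' x' z) +
      Real.pi * ∫ s, conj (w' s) * (q n (ι R s) * ψ (ι R s) * x' s) ∂μ := by
    funext n
    exact hV3 n w μ hμ w' x' hw
  rwa [h3] at h2

/-- weak limits of the `q n` are analytic near `a`, off `a` -/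
theorem tst (hΨ : Cal N R Ψ) {u : X} {a : ℂ} {r : ℝ} (q : ℕ → ℂ → ℂ) (hr : 0 < r) (hu : u ≠ 0)
    (hstar : Star Ψ u a r q) : ∃ ρ : ℝ, 0 < ρ ∧ ρ ≤ r ∧
      ∀ ψ : ℂ → ℂ, ContDiff ℝ ∞ ψ → tsupport ψ ⊆ ball a ρ \ {a} →
        Tendsto (fun n => ∫ z, q n z * db ψ z) atTop (𝓝 0) := by
  obtain ⟨-, hprod, hhol, -, -, -, hts⟩ := hPOM
  obtain ⟨l, hl⟩ := test hΨ u hu
  obtain ⟨ρ, hρ, hρr, hrad⟩ := Pool.Agent.Y51.RO.TST.radius l a hr
  refine ⟨ρ, hρ, hρr, fun ψ hψ hsupp => ?_⟩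
  obtain ⟨t, ht, hdist⟩ := hrad ψ hsupp
  obtain ⟨w, μ, hμ, x, x', hw, hx0, hne, hdiff⟩ := hl t ht
  obtain ⟨G, hG⟩ : ∃ G : ℂ → ℂ, G = ct (ι R) x x' := ⟨_, rfl⟩
  rw [← hG] at hne hdiff
  have hopen : IsOpen {z : ℂ | t < ‖z - l‖} :=
    isOpen_lt continuous_const ((continuous_id.sub continuous_const).norm)
  have hGat : ∀ z, t < ‖z - l‖ → DifferentiableAt ℂ G z := fun z hz =>
    (hdiff z hz).differentiableAt (hopen.mem_nhds hz)
  have hψ0 : ∀ z, z ∉ tsupport ψ → ψ z = 0 := fun z hz => image_eq_zero_of_notMem_tsupport hz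
  -- smoothness
  have hsm : ContDiff ℝ ∞ (fun z => ψ z * (G z)⁻¹) := by
    rw [contDiff_iff_contDiffAt]
    intro z
    by_cases hz : z ∈ tsupport ψ
    · have h3 := hdist z hz
      have hzt : t < ‖z - l‖ := by linarith
      have h1 : ContDiffAt ℂ ∞ G z :=
        (hdiff.analyticAt (hopen.mem_nhds hzt)).contDiffAt
      have h2 : ContDiffAt ℝ ∞ G z := h1.restrict_scalars ℝ
      exact hψ.contDiffAt.mul (h2.inv (hne z (by linarith)))
    · have h1 : (fun z => ψ z * (G z)⁻¹) =ᶠ[𝓝 z] fun _ => 0 := by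
        filter_upwards [(isClosed_tsupport ψ).isOpen_compl.mem_nhds hz] with z' hz'
        rw [hψ0 z' hz', zero_mul]
      exact contDiffAt_const.congr_of_eventuallyEq h1
  have htsub : tsupport (fun z => ψ z * (G z)⁻¹) ⊆ tsupport ψ := tsupport_mul_subset_left
  -- the derivative
  have hdb : ∀ z, db (fun z => ψ z * (G z)⁻¹) z * G z = db ψ z := by
    intro z
    by_cases hz : z ∈ tsupport ψ
    · have h3 := hdist z hz
      have hzt : t < ‖z - l‖ := by linarith
      have h1 := hprod (fun z => ψ z * (G z)⁻¹) G z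
        ((hsm.differentiable (by simp)).differentiableAt)
        ((hGat z hzt).restrictScalars ℝ)
      rw [hhol G z (hGat z hzt), mul_zero, add_zero] at h1
      rw [← h1]
      have h2 : (fun w => ψ w * (G w)⁻¹ * G w) =ᶠ[𝓝 z] ψ := by
        have h4 : {z : ℂ | 2 * t < ‖z - l‖} ∈ 𝓝 z :=
          (isOpen_lt continuous_const ((continuous_id.sub continuous_const).norm)).mem_nhds
            (show 2 * t < ‖z - l‖ by linarith)
        filter_upwards [h4] with z' hz'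
        have h5 : G z' ≠ 0 := hne z' (le_of_lt hz')
        field_simp
      unfold db
      rw [h2.fderiv_eq]
    · rw [hts ψ z hz, hts _ z (fun h => hz (htsub h)), zero_mul]
  have h1 := hstar (fun z => ψ z * (G z)⁻¹) hsm
    (htsub.trans (hsupp.trans (sdiff_subset.trans (ball_subset_ball hρr)))) w μ hμ x x' hw
  refine h1.congr fun n => ?_
  have e1 : ∫ z, q n z * db (fun z => ψ z * (G z)⁻¹) z * ct (ι R) x x' z =
      ∫ z, q n z * db ψ z := by
    refine integral_congr_ae (Eventually.of_forall fun z => ?_)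
    simp only
    rw [← hG, mul_assoc, hdb]
  have e2 : ∫ s, conj (x s) * (q n (ι R s) * (ψ (ι R s) * (G (ι R s))⁻¹) * x' s) ∂μ = 0 := by
    refine integral_eq_zero_of_ae ?_
    filter_upwards [hx0] with s hs
    by_cases h : ι R s ∈ ball l t
    · have h2 : ι R s ∉ tsupport ψ := by
        intro h3
        have h4 := hdist _ h3
        rw [mem_ball, dist_eq_norm] at h
        linarith
      rw [hψ0 _ h2]
      simp
    · rw [hs h, map_zero, zero_mul]
      rfl
  rw [e1, e2, mul_zero, add_zero]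

end Pool.Agent.Q98.RB
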