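import Pool.Agent.Q98.RB.MidPtw

/-!
# Case A: conclusion

Adapted from `Pool/Agent/Y271/RO/Asm.lean` (starting library).
-/

set_option autoImplicit false

namespace Pool.Agent.Q98.RB

open MeasureTheory Set Metric Filter Topology
open scoped InnerProductSpace ENNReal NNReal ComplexConjugate ContDiff
open Pool.Agent.Y283.NK (ct)
open Pool.Agent.Y271.RO (db ht Bd ff hHT hCTG hPOM hWKS hWEYL hCON Tun)

variable {X : Type} [NormedAddCommGroup X] [NormedSpace ℂ X]
variable {N : X →L[ℂ] X} {R : ℝ} {Ψ : C(DD R, ℂ) →ₐ[ℂ] (X →L[ℂ] X)}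

theorem caseA (hX : Refl X) (hΨ : Cal N R Ψ) {u : X} {v : X →L[ℂ] ℂ} {μ₀ : Measure (DD R)}
    [IsFiniteMeasure μ₀] {v' u' : Lp ℂ 2 μ₀} (hrep : Rep Ψ v u μ₀ v' u') (hu : u ≠ 0) {a : ℂ}
    {r : ℝ} (hr : 0 < r) (hne : ∀ᵐ z ∂(volume.restrict (ball a r)), ff (ι R) u' v' z ≠ 0)
    (hT : Tun (ff (ι R) u' v') a r) : HasCh (T1 N u v) a r := by
  by_contra hno
  obtain ⟨b, q, C, hb, hq, hqC, hq0, hql⟩ := hT
  have hC0 : 0 ≤ C := (norm_nonneg _).trans (hqC 0 a (mem_ball_self hr))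
  have hstar := nul hX hΨ hrep hr q C hq hqC hq0 hno
  obtain ⟨ρ, hρ, hρr, hlim⟩ := tst hΨ q hr hu hstar
  have hsub : ball a ρ ⊆ ball a r := ball_subset_ball hρr
  obtain ⟨s, Q, hs, hQm, hQC, hQl⟩ := hWKS q a ρ C hC0 (fun n => (hq n).continuous.measurable)
    (fun n z hz => hqC n z (hsub hz))
  -- the limit is analytic
  have hzero : ∀ (F : ℂ → ℂ) (ψ : ℂ → ℂ), tsupport ψ ⊆ ball a ρ →
      ∫ z, F z * db ψ z = ∫ z in ball a ρ, F z * db ψ z := by
    intro F ψ hψ
    rw [← integral_indicator measurableSet_ball]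
    congr 1
    funext z
    by_cases hz : z ∈ ball a ρ
    · rw [indicator_of_mem hz]
    · rw [indicator_of_notMem hz, hPOM.2.2.2.2.2.2 ψ z (fun h => hz (hψ h)), mul_zero]
  have hdbi : ∀ ψ : ℂ → ℂ, ContDiff ℝ ∞ ψ → IntegrableOn (db ψ) (ball a ρ) := by
    intro ψ hψ
    have hcont : Continuous (db ψ) := hPOM.2.2.2.2.1 ψ (hψ.of_le (by exact_mod_cast le_top))
    exact (hcont.continuousOn.integrableOn_compact (isCompact_closedBall a ρ)).mono_set
      ball_subset_closedBall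
  obtain ⟨G, hGd, hGC, hGQ⟩ := hWEYL Q a ρ C hρ hQm hQC (by
    intro ψ hψ hsupp
    have hsupp' : tsupport ψ ⊆ ball a ρ := hsupp.trans Set.sdiff_subset
    have h1 := (hlim ψ hψ hsupp).comp hs.tendsto_atTop
    have h2 := hQl (db ψ) (hdbi ψ hψ)
    have h3 : (fun n => ∫ z in ball a ρ, q (s n) z * db ψ z) =
        (fun n => ∫ z, q n z * db ψ z) ∘ s := by
      funext n
      exact (hzero _ ψ hsupp').symm
    rw [h3] at h2
    rw [hzero _ ψ hsupp']
    exact tendsto_nhds_unique h2 h1)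
  have hGl : ∀ h : ℂ → ℂ, IntegrableOn h (ball a ρ) →
      Tendsto (fun n => ∫ z in ball a ρ, q (s n) z * h z) atTop
        (𝓝 (∫ z in ball a ρ, G z * h z)) := by
    intro h hh
    have h1 := hQl h hh
    have h2 : ∫ z in ball a ρ, Q z * h z = ∫ z in ball a ρ, G z * h z := by
      refine integral_congr_ae ?_
      filter_upwards [hGQ] with z hz
      rw [hz]
    rwa [h2] at h1
  have hstar' : Star Ψ u a ρ (fun n => q (s n)) := by
    intro ψ hψ hsupp w μ hμ w' x' hw
    exact (hstar ψ hψ (hsupp.trans hsub) w μ hμ w' x' hw).comp hs.tendsto_atTop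
  have hq' : ∀ n, ContDiff ℝ 1 (q (s n)) := fun n => hq (s n)
  have hqC' : ∀ n, ∀ z ∈ ball a ρ, ‖q (s n) z‖ ≤ C := fun n z hz => hqC (s n) z (hsub hz)
  have hq0' : Tendsto (fun n => ∫⁻ z in ball a ρ, ‖ff (ι R) u' v' z * db (q (s n)) z‖ₑ)
      atTop (𝓝 0) := by
    refine tendsto_of_tendsto_of_tendsto_of_le_of_le tendsto_const_nhds
      (hq0.comp hs.tendsto_atTop) (fun _ => zero_le) (fun n => ?_)
    exact lintegral_mono_set hsub
  -- a bump function
  let B : ContDiffBump a := ⟨ρ / 2, 3 * ρ / 4, by positivity, by linarith⟩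
  set ψ : ℂ → ℂ := fun z => ((B z : ℝ) : ℂ) with hψdef
  have hψ : ContDiff ℝ ∞ ψ := Complex.ofRealCLM.contDiff.comp B.contDiff
  have hψs : tsupport ψ ⊆ ball a ρ := by
    have h1 : tsupport ψ ⊆ closedBall a (3 * ρ / 4) := by
      refine closure_minimal ?_ isClosed_closedBall
      intro z hz
      have hz' : B z ≠ 0 := by
        intro h0
        apply hz
        show ((B z : ℝ) : ℂ) = 0
        rw [h0]
        simp
      have h2 : z ∈ Function.support B := hz'
      rw [B.support_eq] at h2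
      exact ball_subset_closedBall h2
    exact h1.trans (closedBall_subset_ball (by linarith))
  have hψ1 : ∀ z ∈ ball a (ρ / 2), ψ z = 1 := by
    intro z hz
    have h1 : B z = 1 := B.one_of_mem_closedBall (ball_subset_closedBall hz)
    show ((B z : ℝ) : ℂ) = 1
    rw [h1]
    simp
  obtain ⟨s', hs', hae⟩ := ptw1 μ₀ (ι_meas R) u' v' a ρ C (fun n => q (s n)) G hρ hq' hqC' hGd
    hGC hGl hq0' ψ hψ hψs (by
      intro H hH
      have h1 := hrep.mul_left hH
      have h2 := mid1 μ₀ (ι_meas R) _ u' a ρ C (fun n => q (s n)) G hρ hq' hqC' hGd hGC hGl ψ hψ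
        hψs (hstar' ψ hψ hψs _ μ₀ inferInstance _ u' h1)
      have h3 : ∀ F : ℂ → ℂ, ∫ t, conj ((Pool.Agent.Y271.RO.mv (ι R) v' (fun z => conj (H z))) t) *
          (F (ι R t) * ψ (ι R t) * u' t) ∂μ₀ =
          ∫ t, conj (v' t) * (H (ι R t) * (ψ (ι R t) * F (ι R t)) * u' t) ∂μ₀ := by
        intro F
        refine integral_congr_ae ?_
        filter_upwards [mv_ae' (Complex.continuous_conj.comp hH) v'] with t ht
        have ht' : (Pool.Agent.Y271.RO.mv (ι R) v' (fun z => conj (H z))) t =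
          conj (H (ι R t)) * v' t := ht
        rw [ht', map_mul, Complex.conj_conj]
        ring
      simp only [h3] at h2
      exact h2)
  refine hCON G a b (ρ / 2) (by positivity) (by linarith)
    (hGd.mono (ball_subset_ball (by linarith))) ?_
  have hsub2 : ball a (ρ / 2) ⊆ ball a r := ball_subset_ball (by linarith)
  have hne' : ∀ᵐ z ∂(volume.restrict (ball a (ρ / 2))), ff (ι R) u' v' z ≠ 0 :=
    ae_restrict_of_ae_restrict_of_subset hsub2 hne
  filter_upwards [hne', ae_restrict_of_ae hae, ae_restrict_mem measurableSet_ball] with z h1 h2 h3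
  have h4 : Tendsto (fun n => q (s (s' n)) z * ff (ι R) u' v' z) atTop
      (𝓝 (G z * ff (ι R) u' v' z)) := by
    have := h2
    simp only [hψ1 z h3, one_mul] at this
    exact this
  have h5 : Tendsto (fun n => q (s (s' n)) z) atTop (𝓝 (G z)) := by
    have h6 := h4.mul_const (ff (ι R) u' v' z)⁻¹
    simp only [mul_assoc, mul_inv_cancel₀ h1, mul_one] at h6
    exact h6
  have h6 : Tendsto (fun n => ‖q (s (s' n)) z‖ ^ 2) atTop (𝓝 (‖G z‖ ^ 2)) := (h5.norm).pow 2
  have h7 := (hql z (hsub2 h3)).comp (hs.comp hs').tendsto_atTop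
  exact tendsto_nhds_unique h6 h7

end Pool.Agent.Q98.RB
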