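import Pool.Agent.Q98.RB.Zero

/-!
# Case B

Adapted from `Pool/Agent/Y941/RO/CUTV.lean` (starting library).
-/

set_option autoImplicit false

namespace Pool.Agent.Q98.RB

open MeasureTheory Set Metric Filter Topology
open scoped InnerProductSpace ENNReal NNReal ComplexConjugate ContDiff
open Pool.Agent.Y283.NK (ct)
open Pool.Agent.Y271.RO (db ht Bd ff hHT hCTG hPOM Cut)
open Pool.Agent.Y941.RO (CO lim_int)

variable {X : Type} [NormedAddCommGroup X] [NormedSpace ℂ X]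
variable {N : X →L[ℂ] X} {R : ℝ} {Ψ : C(DD R, ℂ) →ₐ[ℂ] (X →L[ℂ] X)}

section pair

variable {S : Type} [MeasurableSpace S] {μ : Measure S} [SigmaFinite μ] {φ : S → ℂ}

theorem int_pair (v x : Lp ℂ 2 μ) : Integrable (fun s => conj (v s) * x s) μ := by
  refine (L2.integrable_inner (𝕜 := ℂ) v x).congr (Eventually.of_forall fun s => ?_)
  show inner ℂ (v s) (x s) = conj (v s) * x s
  rw [RCLike.inner_apply, mul_comm]

theorem Kbound (v x : Lp ℂ 2 μ) {a : ℂ} {τ : ℝ} (hτ : 0 < τ)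
    (hx : ∀ᵐ s ∂μ, φ s ∉ ball a (τ / 2) → x s = 0) (z : ℂ) (hz : τ ≤ ‖z - a‖) :
    ‖ct φ v x z‖ ≤ 2 / τ * ∫ s, ‖conj (v s) * x s‖ ∂μ := by
  unfold ct
  rw [← integral_const_mul]
  refine norm_integral_le_of_norm_le ((int_pair v x).norm.const_mul _) ?_
  filter_upwards [hx] with s hs
  by_cases hw : φ s ∈ ball a (τ / 2)
  · have h1 : τ / 2 ≤ ‖z - φ s‖ := by
      have := far_bd (z := z) hw
      linarith
    rw [norm_mul, norm_inv, mul_comm]
    refine mul_le_mul_of_nonneg_right ?_ (norm_nonneg _)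
    calc ‖z - φ s‖⁻¹ ≤ (τ / 2)⁻¹ := inv_anti₀ (by positivity) h1
      _ = 2 / τ := by rw [inv_div]
  · rw [hs hw]
    simp

theorem pair_pow (hφ : Measurable φ) (v x : Lp ℂ 2 μ) {Θ : ℂ → ℂ} {a : ℂ}
    {τ r : ℝ} (h : CO Θ a τ r) (hτ : 0 < τ) (hr : 0 < r)
    (hx : ∀ᵐ s ∂μ, φ s ∉ ball a (τ / 2) → x s = 0) (k : ℕ) :
    Integrable (fun z => (z - a) ^ k * db Θ z * ct φ v x z) ∧
      ∫ z, (z - a) ^ k * db Θ z * ct φ v x z =
        -(Real.pi * ∫ s, conj (v s) * ((φ s - a) ^ k * x s) ∂μ) := by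
  obtain ⟨M, hM⟩ := h.bd hPOM (fun z => (z - a) ^ k) (by fun_prop) (r ^ k) (by positivity)
    (fun z _ hz => by
      rw [norm_pow]
      exact pow_le_pow_left₀ (norm_nonneg _) hz k)
  obtain ⟨-, -, hf⟩ := hCTG S μ φ hφ v x
  obtain ⟨f1, f2⟩ := hf a (r + 1) M _ hM
  refine ⟨f1, ?_⟩
  rw [← f2, ← integral_const_mul, ← integral_neg]
  apply integral_congr_ae
  filter_upwards [hx] with s hs
  by_cases hw : φ s ∈ ball a (τ / 2)
  · have hw' : φ s ∈ ball a τ := ball_subset_ball (by linarith) hw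
    rw [h.ht_pow hPOM, h.one _ hw']
    ring
  · rw [hs hw]
    ring

theorem pair_inv (hφ : Measurable φ) (v x : Lp ℂ 2 μ) {Θ : ℂ → ℂ} {a : ℂ}
    {τ r : ℝ} (h : CO Θ a τ r) (hτ : 0 < τ) (hr : 0 < r)
    (hx : ∀ᵐ s ∂μ, φ s ∉ ball a (τ / 2) → x s = 0) :
    Integrable (fun z => (z - a)⁻¹ * db Θ z * ct φ v x z) ∧
      ∫ z, (z - a)⁻¹ * db Θ z * ct φ v x z = 0 := by
  obtain ⟨M, hM⟩ := h.bd hPOM (fun z => (z - a)⁻¹) (by fun_prop) τ⁻¹ (by positivity)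
    (fun z hz _ => by
      rw [norm_inv]
      exact inv_anti₀ hτ hz)
  obtain ⟨-, -, hf⟩ := hCTG S μ φ hφ v x
  obtain ⟨f1, f2⟩ := hf a (r + 1) M _ hM
  refine ⟨f1, ?_⟩
  rw [← f2]
  refine integral_eq_zero_of_ae ?_
  filter_upwards [hx] with s hs
  by_cases hw : φ s ∈ ball a (τ / 2)
  · have hw' : φ s ∈ ball a τ := ball_subset_ball (by linarith) hw
    rw [h.ht_inv hHT hPOM hτ hr _ hw']
    simp
  · rw [hs hw]
    simp

end pair

theorem Y_step (hΨ : Cal N R Ψ) {u : X} {v : X →L[ℂ] ℂ} {μ₀ : Measure (DD R)}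
    [IsFiniteMeasure μ₀] {v' u' : Lp ℂ 2 μ₀} (hrep : Rep Ψ v u μ₀ v' u') {a : ℂ} {r K C₀ : ℝ}
    (hr : 0 < r) (hK0 : 0 ≤ K)
    (hK : ∀ (c : ℂ) (M : ℝ) (g : ℂ → ℂ), Bd g c r M →
      Integrable g ∧ Measurable (ht g) ∧ (∀ l, Integrable (fun z => g z * (z - l)⁻¹)) ∧
      (∀ l, ‖ht g l‖ ≤ K * M) ∧
      ∀ b l : ℂ, ht (fun z => (z - b) * g z) l = (l - b) * ht g l + ∫ z, g z)
    (hC₀ : 0 ≤ C₀) (hop : ∀ (h : ℂ → ℂ) (M : ℝ), Continuous h → 0 ≤ M →
      (∀ z, ‖z‖ ≤ R → ‖h z‖ ≤ M) → ‖op Ψ h‖ ≤ C₀ * M)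
    {M : ℝ} (h : ℂ → ℂ) (hb : Bd h a r M) :
    Integrable (fun z => h z * ff (ι R) u' v' z) ∧
    T1 N u v (op Ψ (ht h) u) - a • op Ψ (ht h) u =
      op Ψ (ht (fun z => (z - a) * h z)) u - (∫ z, h z * ff (ι R) u' v' z) • u ∧
    ‖op Ψ (ht h) u‖ ≤ C₀ * (K * M) * ‖u‖ := by
  obtain ⟨i1, -, -, i4, i5⟩ := hK a M h hb
  have hb' : Bd (fun z => (z - a) * h z) a r (r * M) := by
    refine ⟨?_, mul_nonneg hr.le hb.nonneg, ?_, ?_⟩
    · exact (measurable_id.sub_const a).mul hb.meas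
    · intro z
      rw [norm_mul]
      by_cases hz : z ∈ ball a r
      · rw [mem_ball, dist_eq_norm] at hz
        exact mul_le_mul hz.le (hb.bd z) (norm_nonneg _) hr.le
      · rw [hb.supp z hz, norm_zero, mul_zero]
        exact mul_nonneg hr.le hb.nonneg
    · intro z hz
      rw [hb.supp z hz, mul_zero]
  obtain ⟨f1, f2⟩ := (hCTG (DD R) μ₀ (ι R) (ι_meas R) v' u').2.2 a r M h hb
  have hi : ∀ z, h z * ff (ι R) u' v' z = h z - h z * ct (ι R) v' u' z := fun z => by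
    unfold ff; ring
  have hs := op_step hΨ (ht_cont hr hb) (ht_cont hr hb') a (-∫ z, h z)
    (fun l => by rw [i5 a l]; ring) u
  refine ⟨?_, ?_, ?_⟩
  · simp_rw [hi]
    exact i1.sub f1
  · have e1 : ∫ z, h z * ff (ι R) u' v' z = (∫ z, h z) - ∫ z, h z * ct (ι R) v' u' z := by
      simp_rw [hi]
      exact integral_sub i1 f1
    rw [T1_apply, e1, pair_ht hrep hr hb, sub_smul, add_sub_right_comm, hs, neg_smul]
    abel
  · have h1 := hop (ht h) (K * M) (ht_cont hr hb) (mul_nonneg hK0 hb.nonneg) (fun z _ => i4 z)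
    calc ‖op Ψ (ht h) u‖ ≤ ‖op Ψ (ht h)‖ * ‖u‖ := (op Ψ (ht h)).le_opNorm u
      _ ≤ C₀ * (K * M) * ‖u‖ := by gcongr

theorem cutv (hΨ : Cal N R Ψ) {u : X} {v : X →L[ℂ] ℂ} {μ₀ : Measure (DD R)}
    [IsFiniteMeasure μ₀] {v' u' : Lp ℂ 2 μ₀} (hrep : Rep Ψ v u μ₀ v' u') {a : ℂ} {τ r : ℝ}
    (hτ : 0 < τ) (hτr : τ < r) (hcut : Cut (ff (ι R) u' v') a τ r) (x₀ : X) {η : ℂ → ℂ}
    (hη : Continuous η) (hη0 : ∀ z, z ∉ ball a (τ / 2) → η z = 0) :
    ∃ (Z : ℕ → ℕ → X) (V : ℕ → X) (C : ℝ), (∀ n k, ‖Z n k‖ ≤ C * r ^ k) ∧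
      (∀ n, ‖V n‖ ≤ C) ∧
      (∀ k, Tendsto (fun n => T1 N u v (Z n k) - a • Z n k - Z n (k + 1)) atTop (𝓝 0)) ∧
      Tendsto (fun n => op Ψ η x₀ - Z n 0 - (T1 N u v (V n) - a • V n)) atTop (𝓝 0) := by
  classical
  obtain ⟨Θ, g, C, c1, c2, c3, c4, c5, c6, c7, c8⟩ := hcut
  have hr : 0 < r := hτ.trans hτr
  obtain ⟨K, hK0, hK⟩ := hHT r hr
  obtain ⟨C₀, hC₀, hop⟩ := op_bound hΨ
  have hC0 : 0 ≤ C := (norm_nonneg _).trans (c5 0 0)
  have hΘ : ∀ n, CO (Θ n) a τ r := fun n => ⟨(c1 n).of_le (by exact_mod_cast le_top), c2 n, c3 n⟩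
  -- the representation of the pair
  obtain ⟨μ₁, hμ₁, v₁, y₁, hrep₁, -⟩ := exists_rep hΨ v x₀
  have hrx := hrep₁.mul_right hη
  obtain ⟨x, hxd⟩ : ∃ x, x = Pool.Agent.Y271.RO.mv (ι R) y₁ η := ⟨_, rfl⟩
  rw [← hxd] at hrx
  have hx : ∀ᵐ s ∂μ₁, ι R s ∉ ball a (τ / 2) → x s = 0 := by
    filter_upwards [mv_ae' hη y₁] with s hs hb
    rw [hxd, hs, hη0 _ hb, zero_mul]
  obtain ⟨k', hk'⟩ : ∃ k' : ℂ → ℂ, k' = ct (ι R) v₁ x := ⟨_, rfl⟩
  have ctm : Measurable k' := by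
    rw [hk']
    exact (hCTG (DD R) μ₁ (ι R) (ι_meas R) v₁ x).1
  set Kb : ℝ := 2 / τ * ∫ s, ‖conj (v₁ s) * x s‖ ∂μ₁ with hKb
  have hKb0 : 0 ≤ Kb := by positivity
  have kb : ∀ z, τ ≤ ‖z - a‖ → ‖k' z‖ ≤ Kb := fun z hz => by
    rw [hk']
    exact Kbound v₁ x hτ hx z hz
  -- the product of a bounded function with `g n` and `k'`
  have hbd : ∀ (P : ℂ → ℂ) (B : ℝ), Measurable P → 0 ≤ B →
      (∀ z, τ ≤ ‖z - a‖ → ‖z - a‖ ≤ r → ‖P z‖ ≤ B) → ∀ n,
      Bd (fun z => P z * (g n z * k' z)) a r (B * (C * Kb)) := by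
    intro P B hP hB0 hB n
    refine ⟨hP.mul ((c4 n).mul ctm), by positivity, ?_, ?_⟩
    · intro z
      by_cases h1 : z ∈ ball a τ
      · rw [c6 n z h1]
        simp only [zero_mul, mul_zero, norm_zero]
        positivity
      · rw [mem_ball, dist_eq_norm, not_lt] at h1
        by_cases h2 : ‖z - a‖ ≤ r
        · rw [norm_mul, norm_mul]
          exact mul_le_mul (hB z h1 h2) (mul_le_mul (c5 n z) (kb z h1) (norm_nonneg _) hC0)
            (by positivity) hB0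
        · rw [c7 n z (not_le.mp h2).le]
          simp only [zero_mul, mul_zero, norm_zero]
          positivity
    · intro z hz
      rw [mem_ball, dist_eq_norm, not_lt] at hz
      show P z * (g n z * k' z) = 0
      rw [c7 n z hz]
      ring
  have hbp : ∀ k n, Bd (fun z => (z - a) ^ k * (g n z * k' z)) a r (r ^ k * (C * Kb)) := by
    intro k n
    exact hbd (fun z => (z - a) ^ k) (r ^ k) (by fun_prop) (by positivity)
      (fun z _ hz => by rw [norm_pow]; exact pow_le_pow_left₀ (norm_nonneg _) hz k) n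
  have hbi : ∀ n, Bd (fun z => (z - a)⁻¹ * (g n z * k' z)) a r (τ⁻¹ * (C * Kb)) := by
    intro n
    exact hbd (fun z => (z - a)⁻¹) τ⁻¹ (by fun_prop) (by positivity)
      (fun z hz _ => by rw [norm_inv]; exact inv_anti₀ hτ hz) n
  -- the vectors `(N - a)^k x`
  obtain ⟨Mη, hMη0, hMη⟩ := exists_bd hη R
  set A : ℕ → X := fun k => op Ψ (fun z => (z - a) ^ k * η z) x₀ with hA
  have hAc : ∀ k : ℕ, Continuous (fun z => (z - a) ^ k * η z) := fun k => by fun_prop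
  have hA0 : A 0 = op Ψ η x₀ := by
    simp only [hA, pow_zero, one_mul]
  have hAs : ∀ k, N (A k) - a • A k = A (k + 1) := by
    intro k
    have h1 := op_step hΨ (hAc k) (hAc (k + 1)) a 0 (fun z => by ring) x₀
    rw [zero_smul, add_zero] at h1
    exact h1
  have hAb : ∀ k, ‖A k‖ ≤ C₀ * Mη * ‖x₀‖ * r ^ k := by
    intro k
    have h1 := hop (fun z => (z - a) ^ k * η z) (r ^ k * Mη) (hAc k) (by positivity)
      (fun z hz => by
        by_cases hb : z ∈ ball a (τ / 2)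
        · rw [norm_mul, norm_pow]
          rw [mem_ball, dist_eq_norm] at hb
          exact mul_le_mul (pow_le_pow_left₀ (norm_nonneg _) (by linarith) k) (hMη z hz)
            (norm_nonneg _) (by positivity)
        · rw [hη0 z hb, mul_zero, norm_zero]
          positivity)
    calc ‖A k‖ ≤ ‖op Ψ (fun z => (z - a) ^ k * η z)‖ * ‖x₀‖ := (op Ψ _).le_opNorm x₀
      _ ≤ C₀ * (r ^ k * Mη) * ‖x₀‖ := by gcongr
      _ = _ := by ring
  have hAv : ∀ k, v (A k) = ∫ s, conj (v₁ s) * ((ι R s - a) ^ k * x s) ∂μ₁ := by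
    intro k
    have h1 := hrx (fun z => (z - a) ^ k) (by fun_prop)
    rw [← h1]
    simp only [hA]
    rw [op_mul_apply (by fun_prop) hη]
  have hpi : (Real.pi : ℂ) ≠ 0 := by exact_mod_cast Real.pi_ne_zero
  have hpi' : ‖(1 / Real.pi : ℂ)‖ = 1 / Real.pi := by
    rw [norm_div, norm_one, Complex.norm_real, Real.norm_eq_abs, abs_of_pos Real.pi_pos]
  -- integrals against the error
  have herr : ∀ (P : ℂ → ℂ) (B : ℝ), 0 ≤ B →
      (∀ z, τ ≤ ‖z - a‖ → ‖z - a‖ ≤ r → ‖P z‖ ≤ B) →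
      Tendsto (fun n => ((1 / Real.pi : ℂ) *
        ∫ z, (P z * k' z) * (ff (ι R) u' v' z * g n z - db (Θ n) z)) • u) atTop (𝓝 0) := by
    intro P B hB0 hB
    have h1 := lim_int hPOM Θ g hΘ c6 c7 c8 (fun z => P z * k' z) (B * Kb)
      (by positivity) (fun z hz1 hz2 => by
        rw [norm_mul]
        exact mul_le_mul (hB z hz1 hz2) (kb z hz1) (norm_nonneg _) hB0)
    have h2 := (h1.const_mul (1 / Real.pi : ℂ)).smul_const u
    rwa [mul_zero, zero_smul] at h2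
  refine ⟨fun n k => A k - (1 / Real.pi : ℂ) •
      op Ψ (ht (fun z => (z - a) ^ k * (g n z * k' z))) u,
    fun n => (1 / Real.pi : ℂ) • op Ψ (ht (fun z => (z - a)⁻¹ * (g n z * k' z))) u,
    (C₀ * Mη * ‖x₀‖ + 1 / Real.pi * (C₀ * (K * (C * Kb)) * ‖u‖)) +
      1 / Real.pi * (C₀ * (K * (τ⁻¹ * (C * Kb))) * ‖u‖),
    ?_, ?_, ?_, ?_⟩
  · intro n k
    obtain ⟨-, -, h3⟩ := Y_step hΨ hrep hr hK0 hK hC₀ hop _ (hbp k n)
    have h4 := hAb k
    have hrk : 0 < r ^ k := by positivity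
    calc _ ≤ ‖A k‖ + ‖(1 / Real.pi : ℂ) •
          op Ψ (ht (fun z => (z - a) ^ k * (g n z * k' z))) u‖ := norm_sub_le _ _
      _ ≤ C₀ * Mη * ‖x₀‖ * r ^ k + 1 / Real.pi * (C₀ * (K * (r ^ k * (C * Kb))) * ‖u‖) := by
          rw [norm_smul, hpi']
          gcongr
      _ = (C₀ * Mη * ‖x₀‖ + 1 / Real.pi * (C₀ * (K * (C * Kb)) * ‖u‖)) * r ^ k := by ring
      _ ≤ _ := by
          have : 0 ≤ 1 / Real.pi * (C₀ * (K * (τ⁻¹ * (C * Kb))) * ‖u‖) := by positivity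
          exact mul_le_mul_of_nonneg_right (by linarith) hrk.le
  · intro n
    obtain ⟨-, -, h3⟩ := Y_step hΨ hrep hr hK0 hK hC₀ hop _ (hbi n)
    calc _ ≤ 1 / Real.pi * (C₀ * (K * (τ⁻¹ * (C * Kb))) * ‖u‖) := by
          rw [norm_smul, hpi']
          gcongr
      _ ≤ _ := by
          have : 0 ≤ C₀ * Mη * ‖x₀‖ + 1 / Real.pi * (C₀ * (K * (C * Kb)) * ‖u‖) := by positivity
          linarith
  · intro k
    have hl := herr (fun z => (z - a) ^ k) (r ^ k) (by positivity)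
      (fun z _ hz => by rw [norm_pow]; exact pow_le_pow_left₀ (norm_nonneg _) hz k)
    refine hl.congr (fun n => ?_)
    obtain ⟨i1, i2, -⟩ := Y_step hΨ hrep hr hK0 hK hC₀ hop _ (hbp k n)
    obtain ⟨p1, p2⟩ := pair_pow (ι_meas R) v₁ x (hΘ n) hτ hr hx k
    rw [← hk'] at p1
    simp_rw [← hk'] at p2
    have e1 : ∫ z, ((z - a) ^ k * k' z) * (ff (ι R) u' v' z * g n z - db (Θ n) z) =
        (∫ z, (z - a) ^ k * (g n z * k' z) * ff (ι R) u' v' z) + Real.pi * v (A k) := by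
      have : ∀ z, ((z - a) ^ k * k' z) * (ff (ι R) u' v' z * g n z - db (Θ n) z) =
          (z - a) ^ k * (g n z * k' z) * ff (ι R) u' v' z -
            (z - a) ^ k * db (Θ n) z * k' z := fun z => by ring
      simp_rw [this]
      rw [integral_sub i1 p1, p2, hAv]
      ring
    have e3 : T1 N u v (A k) - a • A k = A (k + 1) + v (A k) • u := by
      rw [T1_apply, add_sub_right_comm, hAs]
    have e4 : (fun z => (z - a) * ((z - a) ^ k * (g n z * k' z))) =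
        fun z => (z - a) ^ (k + 1) * (g n z * k' z) := by
      funext z; ring
    rw [e4] at i2
    rw [e1]
    simp only [map_sub, map_smul]
    rw [eq_add_of_sub_eq e3, eq_add_of_sub_eq i2]
    simp only [smul_sub, smul_add, smul_smul, mul_add, add_smul]
    rw [show (1 / Real.pi : ℂ) * (Real.pi * v (A k)) = v (A k) by
      field_simp]
    rw [mul_comm (1 / Real.pi : ℂ) a]
    abel
  · have hl := herr (fun z => (z - a)⁻¹) τ⁻¹ (by positivity)
      (fun z hz _ => by rw [norm_inv]; exact inv_anti₀ hτ hz)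
    refine hl.congr (fun n => ?_)
    obtain ⟨i1, i2, -⟩ := Y_step hΨ hrep hr hK0 hK hC₀ hop _ (hbi n)
    obtain ⟨p1, p2⟩ := pair_inv (ι_meas R) v₁ x (hΘ n) hτ hr hx
    rw [← hk'] at p1
    simp_rw [← hk'] at p2
    have e1 : ∫ z, ((z - a)⁻¹ * k' z) * (ff (ι R) u' v' z * g n z - db (Θ n) z) =
        ∫ z, (z - a)⁻¹ * (g n z * k' z) * ff (ι R) u' v' z := by
      have : ∀ z, ((z - a)⁻¹ * k' z) * (ff (ι R) u' v' z * g n z - db (Θ n) z) =
          (z - a)⁻¹ * (g n z * k' z) * ff (ι R) u' v' z -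
            (z - a)⁻¹ * db (Θ n) z * k' z := fun z => by ring
      simp_rw [this]
      rw [integral_sub i1 p1, p2, sub_zero]
    have e4 : (fun z => (z - a) * ((z - a)⁻¹ * (g n z * k' z))) =
        fun z => (z - a) ^ 0 * (g n z * k' z) := by
      funext z
      by_cases hz : z = a
      · rw [hz, c6 n a (mem_ball_self hτ)]
        simp
      · have : z - a ≠ 0 := sub_ne_zero.mpr hz
        field_simp
    rw [e4] at i2
    rw [e1, ← hA0]
    simp only [map_smul]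
    rw [eq_add_of_sub_eq i2]
    simp only [smul_sub, smul_add, smul_smul]
    rw [mul_comm (1 / Real.pi : ℂ) a]
    abel

end Pool.Agent.Q98.RB
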