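import Pool.Agent.Q98.RB.CaseB
import Pool.Agent.Q98.RB.CaseA2

/-!
# The essential spectrum, and the chains at its points
-/

set_option autoImplicit false

namespace Pool.Agent.Q98.RB

open MeasureTheory Set Metric Filter Topology
open scoped InnerProductSpace ENNReal NNReal ComplexConjugate ContDiff
open Pool.Agent.Y283.NK (ct)
open Pool.Agent.Y271.RO (db ht Bd ff hHT hCTG hPOM Cut Tun)

variable {X : Type} [NormedAddCommGroup X] [NormedSpace ℂ X]
variable {N : X →L[ℂ] X} {R : ℝ} {Ψ : C(DD R, ℂ) →ₐ[ℂ] (X →L[ℂ] X)}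

/-- a cut-off function, one on the disc of radius `t`, zero off the disc of radius `2 t` -/
noncomputable def cfr (a : ℂ) (t : ℝ) (z : ℂ) : ℝ := min 1 (max 0 (2 - ‖z - a‖ / t))

/-- the same as a complex function -/
noncomputable def cf (a : ℂ) (t : ℝ) (z : ℂ) : ℂ := (cfr a t z : ℂ)

theorem cfr_cont (a : ℂ) (t : ℝ) : Continuous (cfr a t) := by
  unfold cfr
  fun_prop

theorem cf_cont (a : ℂ) (t : ℝ) : Continuous (cf a t) :=
  Complex.continuous_ofReal.comp (cfr_cont a t)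

theorem cfr_nonneg (a : ℂ) (t : ℝ) (z : ℂ) : 0 ≤ cfr a t z := by
  unfold cfr
  positivity

theorem cfr_le (a : ℂ) (t : ℝ) (z : ℂ) : cfr a t z ≤ 1 := min_le_left _ _

theorem cf_norm (a : ℂ) (t : ℝ) (z : ℂ) : ‖cf a t z‖ ≤ 1 := by
  unfold cf
  rw [Complex.norm_real, Real.norm_of_nonneg (cfr_nonneg _ _ _)]
  exact cfr_le _ _ _

theorem cfr_one {a : ℂ} {t : ℝ} (ht : 0 < t) {z : ℂ} (hz : ‖z - a‖ ≤ t) : cfr a t z = 1 := by
  unfold cfr
  have h1 : ‖z - a‖ / t ≤ 1 := by rwa [div_le_one ht]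
  rw [min_eq_left]
  exact le_max_of_le_right (by linarith)

theorem cf_one {a : ℂ} {t : ℝ} (ht : 0 < t) {z : ℂ} (hz : ‖z - a‖ ≤ t) : cf a t z = 1 := by
  unfold cf
  rw [cfr_one ht hz]
  simp

theorem cfr_zero {a : ℂ} {t : ℝ} (ht : 0 < t) {z : ℂ} (hz : 2 * t ≤ ‖z - a‖) : cfr a t z = 0 := by
  unfold cfr
  have h1 : 2 ≤ ‖z - a‖ / t := by rwa [le_div_iff₀ ht]
  rw [max_eq_left (by linarith)]
  simp

theorem cf_zero {a : ℂ} {t : ℝ} (ht : 0 < t) {z : ℂ} (hz : 2 * t ≤ ‖z - a‖) : cf a t z = 0 := by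
  unfold cf
  rw [cfr_zero ht hz]
  simp

/-- finite rank -/
def FR (A : X →L[ℂ] X) : Prop := FiniteDimensional ℂ (LinearMap.range (A : X →ₗ[ℂ] X))

/-- points of the essential spectrum -/
def Ess (Ψ : C(DD R, ℂ) →ₐ[ℂ] (X →L[ℂ] X)) (a : ℂ) : Prop := ∀ t : ℝ, 0 < t → ¬ FR (op Ψ (cf a t))

theorem FR.compact {A : X →L[ℂ] X} (h : FR A) : IsCompactOperator (⇑A) := by
  have : FiniteDimensional ℂ (LinearMap.range (A : X →ₗ[ℂ] X)) := h
  obtain ⟨B, hB⟩ : ∃ B : X →L[ℂ] LinearMap.range (A : X →ₗ[ℂ] X), ∀ x, (B x : X) = A x :=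
    ⟨A.codRestrict _ (fun x => LinearMap.mem_range_self _ x), fun x => rfl⟩
  have h1 : IsCompactOperator (⇑B) := by
    have hp : ProperSpace (LinearMap.range (A : X →ₗ[ℂ] X)) := FiniteDimensional.proper ℂ _
    refine ⟨closedBall 0 1, isCompact_closedBall 0 1, ?_⟩
    exact B.continuous.continuousAt.preimage_mem_nhds
      (by rw [map_zero]; exact closedBall_mem_nhds 0 one_pos)
  have h2 := h1.clm_comp (LinearMap.range (A : X →ₗ[ℂ] X)).subtypeL
  have h3 : (⇑(LinearMap.range (A : X →ₗ[ℂ] X)).subtypeL ∘ ⇑B) = ⇑A := by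
    funext x
    exact hB x
  rwa [h3] at h2

/-- a functional which vanishes at `y` but not at the range of an operator which is not of finite
rank -/
theorem exists_fun {P : X →L[ℂ] X} (hP : ¬ FR P) (y : X) :
    ∃ w : X →L[ℂ] ℂ, w y = 0 ∧ w.comp P ≠ 0 := by
  by_contra hcon
  push Not at hcon
  apply hP
  have hle : LinearMap.range (P : X →ₗ[ℂ] X) ≤ Submodule.span ℂ {y} := by
    rintro _ ⟨x, rfl⟩
    by_contra hx
    have hfin : FiniteDimensional ℂ (Submodule.span ℂ {y}) := inferInstance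
    obtain ⟨π, hπ⟩ := Submodule.ClosedComplemented.of_finiteDimensional (Submodule.span ℂ {y})
    have hne : P x - (π (P x) : X) ≠ 0 := by
      intro h
      apply hx
      rw [sub_eq_zero] at h
      show P x ∈ _
      rw [h]
      exact (π (P x)).2
    obtain ⟨f, hf⟩ := SeparatingDual.exists_ne_zero (R := ℂ) hne
    have h1 := hcon (f.comp (ContinuousLinearMap.id ℂ X -
      (Submodule.span ℂ {y}).subtypeL.comp π)) (by
        have hy : y ∈ Submodule.span ℂ {y} := Submodule.mem_span_singleton_self y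
        have h2 := hπ ⟨y, hy⟩
        have h3 : ((π y : Submodule.span ℂ {y}) : X) = y := by
          have := congrArg Subtype.val h2
          exact this
        simp [h3])
    apply hf
    have h4 := congrArg (fun g : X →L[ℂ] ℂ => g x) h1
    simpa using h4
  unfold FR
  exact Submodule.finiteDimensional_of_le hle

/-- near a point of the essential spectrum `T - a` is not surjective modulo `u` -/
theorem sur [CompleteSpace X] (hΨ : Cal N R Ψ) {u : X} {v : X →L[ℂ] ℂ} {a : ℂ} (hE : Ess Ψ a) :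
    ¬ ∀ x : X, ∃ (W : X) (c : ℂ), x = T1 N u v W - a • W + c • u := by
  intro hsurj
  obtain ⟨C₀, hC₀, hop⟩ := op_bound hΨ
  let L : (X × ℂ) →L[ℂ] X :=
    (T1 N u v - a • ContinuousLinearMap.id ℂ X).comp (ContinuousLinearMap.fst ℂ X ℂ) +
      (ContinuousLinearMap.snd ℂ X ℂ).smulRight u
  have hL : ∀ (W : X) (c : ℂ), L (W, c) = T1 N u v W - a • W + c • u := by
    intro W c
    simp [L]
  have hs : Function.Surjective L := by
    intro x
    obtain ⟨W, c, h⟩ := hsurj x
    exact ⟨(W, c), by rw [hL, ← h]⟩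
  obtain ⟨C, hC0, hC⟩ := L.exists_preimage_norm_le hs
  -- the radius
  obtain ⟨t, ht⟩ : ∃ t : ℝ, t = 1 / (8 * (C * C₀ + 1)) := ⟨_, rfl⟩
  have ht0 : 0 < t := by rw [ht]; positivity
  obtain ⟨w₀, hw₀, hw₁⟩ := exists_fun (hE t ht0) (op Ψ (cf a t) u)
  obtain ⟨w, hw⟩ : ∃ w, w = w₀.comp (op Ψ (cf a t)) := ⟨_, rfl⟩
  rw [← hw] at hw₁
  have hwu : w u = 0 := by
    rw [hw]
    exact hw₀
  have hww : ∀ x, w x = w (op Ψ (cf a (2 * t)) x) := by
    intro x
    rw [hw]
    show w₀ (op Ψ (cf a t) x) = w₀ (op Ψ (cf a t) (op Ψ (cf a (2 * t)) x))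
    rw [← op_mul_apply (cf_cont _ _) (cf_cont _ _)]
    congr 2
    congr 1
    funext z
    rcases le_or_gt (2 * t) ‖z - a‖ with h | h
    · rw [cf_zero ht0 h, zero_mul]
    · rw [cf_one (t := 2 * t) (by positivity) h.le, mul_one]
  have hcc : Continuous fun z => (z - a) * cf a (2 * t) z := by
    have := cf_cont a (2 * t)
    fun_prop
  have hwN : ∀ W, w (N W - a • W) = w (op Ψ (fun z => (z - a) * cf a (2 * t) z) W) := by
    intro W
    have h1 := op_mul_apply (Ψ := Ψ) (cf_cont a (2 * t))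
      (show Continuous fun z : ℂ => z - a by fun_prop) W
    have h2 : op Ψ (fun z : ℂ => z - a) W = N W - a • W := by
      rw [op_sub continuous_id' continuous_const, op_id hΨ, op_const]
      rfl
    rw [hww, ← h2, ← h1]
    congr 2
    congr 1
    funext z
    ring
  have hbd : ‖op Ψ (fun z => (z - a) * cf a (2 * t) z)‖ ≤ C₀ * (4 * t) := by
    refine hop _ _ hcc (by positivity) fun z _ => ?_
    rcases le_or_gt (4 * t) ‖z - a‖ with h | h
    · rw [cf_zero (t := 2 * t) (by positivity) (by linarith), mul_zero, norm_zero]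
      positivity
    · rw [norm_mul]
      calc ‖z - a‖ * ‖cf a (2 * t) z‖ ≤ 4 * t * 1 :=
            mul_le_mul h.le (cf_norm _ _ _) (norm_nonneg _) (by positivity)
        _ = _ := mul_one _
  have hnorm : ‖w‖ ≤ ‖w‖ * (C₀ * (4 * t)) * C := by
    refine w.opNorm_le_bound (by positivity) fun x => ?_
    obtain ⟨p, hp, hpn⟩ := hC x
    have hp1 : ‖p.1‖ ≤ C * ‖x‖ := (norm_fst_le p).trans hpn
    have h1 : w x = w (N p.1 - a • p.1) := by
      have h2 : x = T1 N u v p.1 - a • p.1 + p.2 • u := by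
        rw [← hL, Prod.mk.eta, hp]
      have h3 : x = (N p.1 - a • p.1) + (v p.1 + p.2) • u := by
        rw [h2, T1_apply, add_smul]
        abel
      conv_lhs => rw [h3]
      rw [map_add, map_smul, hwu, smul_zero, add_zero]
    rw [h1, hwN]
    calc ‖w (op Ψ (fun z => (z - a) * cf a (2 * t) z) p.1)‖
        ≤ ‖w‖ * (‖op Ψ (fun z => (z - a) * cf a (2 * t) z)‖ * ‖p.1‖) :=
          (w.le_opNorm _).trans (mul_le_mul_of_nonneg_left ((op Ψ _).le_opNorm _) (norm_nonneg w))
      _ ≤ ‖w‖ * ((C₀ * (4 * t)) * (C * ‖x‖)) := by gcongr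
      _ = ‖w‖ * (C₀ * (4 * t)) * C * ‖x‖ := by ring
  have hsmall : C₀ * (4 * t) * C ≤ 1 / 2 := by
    have h1 : 0 ≤ C * C₀ := by positivity
    rw [ht]
    have h2 : C₀ * (4 * (1 / (8 * (C * C₀ + 1)))) * C = (C * C₀) / (2 * (C * C₀ + 1)) := by
      field_simp
      ring
    rw [h2, div_le_div_iff₀ (by positivity) (by norm_num)]
    linarith
  have hw0 : 0 < ‖w‖ := norm_pos_iff.2 hw₁
  nlinarith

/-- chains for `N` itself -/
theorem nor (hΨ : Cal N R Ψ) {a : ℂ} {r : ℝ} (hr : 0 < r) (hE : Ess Ψ a) : HasCh N a r := by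
  obtain ⟨C₀, hC₀, hop⟩ := op_bound hΨ
  obtain ⟨x₀, hx₀⟩ : ∃ x₀, op Ψ (cf a (r / 2)) x₀ ≠ 0 := by
    by_contra hcon
    push Not at hcon
    apply hE (r / 2) (by positivity)
    have h1 : op Ψ (cf a (r / 2)) = 0 := by
      ext x
      exact hcon x
    unfold FR
    rw [h1]
    have h2 : LinearMap.range ((0 : X →L[ℂ] X) : X →ₗ[ℂ] X) = ⊥ := by
      ext y
      simp
    rw [h2]
    infer_instance
  have hc : ∀ k : ℕ, Continuous fun z => (z - a) ^ k * cf a (r / 2) z := fun k => by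
    have := cf_cont a (r / 2)
    fun_prop
  refine ⟨fun k => op Ψ (fun z => (z - a) ^ k * cf a (r / 2) z) x₀, ⟨fun k => ?_, C₀ * ‖x₀‖,
    fun k => ?_⟩, ?_⟩
  · have h1 := op_step hΨ (hc k) (hc (k + 1)) a 0 (fun z => by ring) x₀
    rw [zero_smul, add_zero] at h1
    exact h1
  · have h1 := hop _ (r ^ k) (hc k) (by positivity) (fun z _ => by
      rcases le_or_gt r ‖z - a‖ with h | h
      · rw [cf_zero (t := r / 2) (by positivity) (by linarith), mul_zero, norm_zero]
        positivity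
      · rw [norm_mul, norm_pow]
        calc ‖z - a‖ ^ k * ‖cf a (r / 2) z‖ ≤ r ^ k * 1 :=
              mul_le_mul (pow_le_pow_left₀ (norm_nonneg _) h.le k) (cf_norm _ _ _)
                (norm_nonneg _) (by positivity)
          _ = _ := mul_one _)
    calc _ ≤ ‖op Ψ (fun z => (z - a) ^ k * cf a (r / 2) z)‖ * ‖x₀‖ := (op Ψ _).le_opNorm x₀
      _ ≤ C₀ * r ^ k * ‖x₀‖ := by gcongr
      _ = _ := by ring
  · simpa using hx₀

/-- Case B -/
theorem caseB [CompleteSpace X] (hX : Refl X) (hΨ : Cal N R Ψ) {u : X} {v : X →L[ℂ] ℂ}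
    {μ₀ : Measure (DD R)} [IsFiniteMeasure μ₀] {v' u' : Lp ℂ 2 μ₀} (hrep : Rep Ψ v u μ₀ v' u')
    {a : ℂ} {τ r : ℝ} (hτ : 0 < τ) (hτr : τ < r) (hC : Cut (ff (ι R) u' v') a τ r)
    (hE : Ess Ψ a) : HasCh (T1 N u v) a r := by
  by_contra hno
  have hch : ∀ Y, IsChain (T1 N u v) a r Y → Y 0 = 0 := by
    intro Y hY
    by_contra h0
    exact hno ⟨Y, hY, h0⟩
  refine sur (u := u) (v := v) hΨ hE fun x => ?_
  -- the splitting of `x`
  have ht : 0 < τ / 4 := by positivity
  have hη := cf_cont a (τ / 4)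
  set k : ℂ → ℂ := fun z => Hm a (τ / 4) z * (1 - cf a (τ / 4) z) with hk
  have hkc : Continuous k := (Hm_cont a ht).mul (continuous_const.sub hη)
  obtain ⟨Z, V, C, h1, h2, h3, h4⟩ := cutv hΨ hrep hτ hτr hC x hη (fun z hz => by
    rw [mem_ball, dist_eq_norm, not_lt] at hz
    exact cf_zero ht (by linarith))
  obtain ⟨Y, W', hY, hx⟩ := (wlim_chain hX (T1 N u v) a r C Z h1 h3).1 a (op Ψ (cf a (τ / 4)) x)
    V C h2 h4
  have h5 : x = op Ψ (cf a (τ / 4)) x + (N (op Ψ k x) - a • op Ψ k x) := by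
    have h6 := op_step hΨ hkc (k := fun z => 1 - cf a (τ / 4) z) (continuous_const.sub hη) a 0
      (fun z => by
        rw [hk, add_zero]
        rcases le_or_gt (τ / 4) ‖z - a‖ with h | h
        · have hne : z - a ≠ 0 := by
            intro h0
            rw [h0, norm_zero] at h
            linarith
          simp only
          rw [Hm_far ht h]
          field_simp
        · simp only
          rw [cf_one ht h.le]
          simp) x
    rw [h6, zero_smul, add_zero, op_sub continuous_const hη, op_const, one_smul]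
    simp
  refine ⟨W' + op Ψ k x, -v (op Ψ k x), ?_⟩
  conv_lhs => rw [h5, hx, hch Y hY]
  rw [map_add, smul_add, T1_apply N u v (op Ψ k x), neg_smul]
  abel

/-- chains at the points of the essential spectrum -/
theorem chain [CompleteSpace X] (hX : Refl X) (hΨ : Cal N R Ψ) (u : X) (v : X →L[ℂ] ℂ) (a : ℂ)
    {r : ℝ} (hr : 0 < r) (hE : Ess Ψ a) : HasCh (T1 N u v) a r := by
  by_cases hu : u = 0
  · have h1 : T1 N u v = N := by
      ext1 f
      rw [T1_apply, hu, smul_zero, add_zero]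
    rw [h1]
    exact nor hΨ hr hE
  obtain ⟨μ₀, hμ₀, v', u', hrep, -⟩ := exists_rep hΨ v u
  by_cases hne : ∀ᵐ z ∂(volume.restrict (ball a (r / 2))), ff (ι R) u' v' z ≠ 0
  · obtain ⟨hm, hli, -⟩ := hCTG (DD R) μ₀ (ι R) (ι_meas R) v' u'
    have hf : Measurable (ff (ι R) u' v') := by
      unfold ff
      exact measurable_const.sub hm
    have hi : IntegrableOn (ff (ι R) u' v') (ball a (r / 2)) := by
      have h1 : IntegrableOn (ct (ι R) v' u') (ball a (r / 2)) :=
        (hli.integrableOn_isCompact (isCompact_closedBall a (r / 2))).mono_set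
          ball_subset_closedBall
      unfold ff
      exact (integrableOn_const measure_ball_lt_top.ne (by simp)).sub h1
    rcases Pool.Agent.Y271.RO.dich Pool.Agent.Y271.RO.hPCA Pool.Agent.Y271.RO.hPCB
      Pool.Agent.Y271.RO.hPOL Pool.Agent.Y271.RO.hALT Pool.Agent.Y271.RO.hSMO
      Pool.Agent.Y271.RO.hTUNA Pool.Agent.Y271.RO.hCUTA (ff (ι R) u' v') a (r / 2)
      (by positivity) hf hi hne with h | ⟨τ, h1, h2, h3⟩
    · exact (caseA hX hΨ hrep hu (by positivity) hne h).mono (by positivity) (by linarith)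
    · exact (caseB hX hΨ hrep h1 h2 h3 hE).mono (by positivity) (by linarith)
  · exact (zero hΨ hrep (by positivity) hu hne).mono (by positivity) (by linarith)

end Pool.Agent.Q98.RB
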