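import Mathlib

/-!
# Examples of operators with a continuous functional calculus: normal operators, diagonal operators
# with respect to unconditional decompositions
-/

set_option autoImplicit false

namespace Pool.Agent.Q98.RB.Exa

open Set Metric Filter Topology MeasureTheory
open scoped ENNReal NNReal ComplexConjugate

/-- `N` has a continuous functional calculus on some compact set -/
def HasCal {X : Type} [NormedAddCommGroup X] [NormedSpace ℂ X] (N : X →L[ℂ] X) : Prop :=
  ∃ (K : Set ℂ) (Ψ : C(K, ℂ) →ₐ[ℂ] (X →L[ℂ] X)), IsCompact K ∧ Continuous Ψ ∧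
    Ψ ⟨Subtype.val, continuous_subtype_val⟩ = N

theorem normal {H : Type} [NormedAddCommGroup H] [InnerProductSpace ℂ H] [CompleteSpace H]
    (N : H →L[ℂ] H) (hN : IsStarNormal N) : HasCal N := by
  refine ⟨spectrum ℂ N, (cfcHom (R := ℂ) (p := IsStarNormal) hN).toAlgHom,
    spectrum.isCompact N, ?_, ?_⟩
  · exact cfcHom_continuous hN
  · exact cfcHom_id hN

section decomposition

variable {X : Type} [NormedAddCommGroup X] [NormedSpace ℂ X] {κ : Type}

/-- sums of absolute values -/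
theorem abs_bound (F : Finset κ) (y : κ → ℝ) (B : ℝ) (hB : ∀ G ⊆ F, |∑ k ∈ G, y k| ≤ B) :
    ∑ k ∈ F, |y k| ≤ 2 * B := by
  classical
  have h1 : ∑ k ∈ F, |y k| = (∑ k ∈ F.filter (fun k => 0 ≤ y k), y k) -
      ∑ k ∈ F.filter (fun k => ¬ 0 ≤ y k), y k := by
    rw [← Finset.sum_filter_add_sum_filter_not F (fun k => 0 ≤ y k) (fun k => |y k|),
      sub_eq_add_neg, ← Finset.sum_neg_distrib]
    congr 1
    · refine Finset.sum_congr rfl fun k hk => ?_
      exact abs_of_nonneg (Finset.mem_filter.1 hk).2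
    · refine Finset.sum_congr rfl fun k hk => ?_
      exact abs_of_neg (not_le.1 (Finset.mem_filter.1 hk).2)
  rw [h1]
  have h2 := (abs_le.1 (hB _ (Finset.filter_subset (fun k => 0 ≤ y k) F))).2
  have h3 := (abs_le.1 (hB _ (Finset.filter_subset (fun k => ¬ 0 ≤ y k) F))).1
  linarith

/-- a finite sum with coefficients is controlled by the sums over subsets -/
theorem coeff_bound (F : Finset κ) (x : κ → X) (a : κ → ℂ) (M B : ℝ) (hM : 0 ≤ M)
    (ha : ∀ k, ‖a k‖ ≤ M) (hB : ∀ G ⊆ F, ‖∑ k ∈ G, x k‖ ≤ B) :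
    ‖∑ k ∈ F, a k • x k‖ ≤ 4 * M * B := by
  obtain ⟨w, hw1, hw2⟩ := exists_dual_vector'' ℂ (∑ k ∈ F, a k • x k)
  have h1 : ‖∑ k ∈ F, a k • x k‖ = ‖w (∑ k ∈ F, a k • x k)‖ := by
    rw [hw2]
    simp
  have hre : ∑ k ∈ F, |(w (x k)).re| ≤ 2 * B := by
    refine abs_bound F _ B fun G hG => ?_
    have h2 : ∑ k ∈ G, (w (x k)).re = (w (∑ k ∈ G, x k)).re := by
      rw [map_sum, Complex.re_sum]
    rw [h2]
    refine (Complex.abs_re_le_norm _).trans ((w.le_opNorm _).trans ?_)
    calc ‖w‖ * ‖∑ k ∈ G, x k‖ ≤ 1 * B :=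
          mul_le_mul hw1 (hB G hG) (norm_nonneg _) zero_le_one
      _ = B := one_mul B
  have him : ∑ k ∈ F, |(w (x k)).im| ≤ 2 * B := by
    refine abs_bound F _ B fun G hG => ?_
    have h2 : ∑ k ∈ G, (w (x k)).im = (w (∑ k ∈ G, x k)).im := by
      rw [map_sum, Complex.im_sum]
    rw [h2]
    refine (Complex.abs_im_le_norm _).trans ((w.le_opNorm _).trans ?_)
    calc ‖w‖ * ‖∑ k ∈ G, x k‖ ≤ 1 * B :=
          mul_le_mul hw1 (hB G hG) (norm_nonneg _) zero_le_one
      _ = B := one_mul B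
  rw [h1, map_sum]
  calc ‖∑ k ∈ F, w (a k • x k)‖ ≤ ∑ k ∈ F, ‖w (a k • x k)‖ := norm_sum_le _ _
    _ ≤ ∑ k ∈ F, M * (|(w (x k)).re| + |(w (x k)).im|) := by
        refine Finset.sum_le_sum fun k _ => ?_
        rw [map_smul, norm_smul]
        exact mul_le_mul (ha k) (Complex.norm_le_abs_re_add_abs_im _) (norm_nonneg _) hM
    _ = M * ((∑ k ∈ F, |(w (x k)).re|) + ∑ k ∈ F, |(w (x k)).im|) := by
        rw [← Finset.mul_sum, Finset.sum_add_distrib]
    _ ≤ M * (2 * B + 2 * B) := by gcongr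
    _ = _ := by ring

/-- an unconditional decomposition -/
structure UDec (P : κ → X →L[ℂ] X) : Prop where
  idem : ∀ k, P k * P k = P k
  orth : ∀ j k, j ≠ k → P j * P k = 0
  sum : ∀ x, HasSum (fun k => P k x) x

variable {P : κ → X →L[ℂ] X}

theorem UDec.bdd [CompleteSpace X] (h : UDec P) :
    ∃ C : ℝ, 0 ≤ C ∧ ∀ (F : Finset κ) (x : X), ‖∑ k ∈ F, P k x‖ ≤ C * ‖x‖ := by
  classical
  obtain ⟨C, hC⟩ := banach_steinhaus (𝕜 := ℂ) (𝕜₂ := ℂ) (g := fun F : Finset κ => ∑ k ∈ F, P k)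
    (fun x => by
      obtain ⟨F₀, hF₀⟩ := summable_iff_vanishing_norm.1 (h.sum x).summable 1 one_pos
      refine ⟨1 + ∑ k ∈ F₀, ‖P k x‖, fun F => ?_⟩
      have h0 : (∑ k ∈ F, P k) x = ∑ k ∈ F, P k x := by simp
      have h1 : ∑ k ∈ F, P k x = ∑ k ∈ F \ F₀, P k x + ∑ k ∈ F ∩ F₀, P k x := by
        rw [add_comm]
        exact (Finset.sum_inter_add_sum_sdiff F F₀ _).symm
      rw [h0, h1]
      refine (norm_add_le _ _).trans (add_le_add (hF₀ _ Finset.sdiff_disjoint).le ?_)
      refine (norm_sum_le _ _).trans ?_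
      exact Finset.sum_le_sum_of_subset_of_nonneg Finset.inter_subset_right
        (fun _ _ _ => norm_nonneg _))
  refine ⟨|C|, abs_nonneg C, fun F x => ?_⟩
  have h1 := (∑ k ∈ F, P k).le_opNorm x
  have h0 : (∑ k ∈ F, P k) x = ∑ k ∈ F, P k x := by simp
  rw [h0] at h1
  exact h1.trans (mul_le_mul_of_nonneg_right ((hC F).trans (le_abs_self C)) (norm_nonneg x))

theorem UDec.summable [CompleteSpace X] (h : UDec P) {a : κ → ℂ} {M : ℝ} (hM : 0 ≤ M)
    (ha : ∀ k, ‖a k‖ ≤ M) (x : X) : Summable (fun k => a k • P k x) := by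
  classical
  rw [summable_iff_vanishing_norm]
  intro ε hε
  obtain ⟨F₀, hF₀⟩ := summable_iff_vanishing_norm.1 (h.sum x).summable (ε / (4 * M + 1))
    (by positivity)
  refine ⟨F₀, fun t ht => ?_⟩
  have h1 := coeff_bound t (fun k => P k x) a M (ε / (4 * M + 1)) hM ha
    (fun G hG => (hF₀ G (ht.mono_left hG)).le)
  refine h1.trans_lt ?_
  rw [mul_div_assoc', div_lt_iff₀ (by positivity)]
  nlinarith

/-- the diagonal operator -/
theorem UDec.exists_diag [CompleteSpace X] (h : UDec P) : ∃ C : ℝ, 0 ≤ C ∧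
    ∀ (a : κ → ℂ) (M : ℝ), 0 ≤ M → (∀ k, ‖a k‖ ≤ M) →
      ∃ A : X →L[ℂ] X, ‖A‖ ≤ C * M ∧ ∀ x, HasSum (fun k => a k • P k x) (A x) := by
  obtain ⟨C, hC0, hC⟩ := h.bdd
  refine ⟨4 * C, by positivity, fun a M hM ha => ?_⟩
  have hs := fun x => (h.summable hM ha x).hasSum
  let L : X →ₗ[ℂ] X :=
    { toFun := fun x => ∑' k, a k • P k x
      map_add' := fun x y => by
        refine ((hs (x + y)).unique ?_)
        have h1 := (hs x).add (hs y)
        have h2 : (fun k => a k • P k (x + y)) = fun k => a k • P k x + a k • P k y := by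
          funext k
          rw [map_add, smul_add]
        rw [h2]
        exact h1
      map_smul' := fun c x => by
        refine ((hs (c • x)).unique ?_)
        have h1 := (hs x).const_smul c
        have h2 : (fun k => a k • P k (c • x)) = fun k => c • a k • P k x := by
          funext k
          rw [map_smul, smul_comm]
        rw [h2]
        exact h1 }
  have hL : ∀ x, ‖L x‖ ≤ 4 * C * M * ‖x‖ := by
    intro x
    refine le_of_tendsto (hs x).norm (Eventually.of_forall fun F => ?_)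
    have h1 := coeff_bound F (fun k => P k x) a M (C * ‖x‖) hM ha (fun G _ => hC G x)
    refine h1.trans (le_of_eq (by ring))
  refine ⟨L.mkContinuous (4 * C * M) hL, ?_, fun x => hs x⟩
  exact L.mkContinuous_norm_le (by positivity) hL

theorem UDec.coord (h : UDec P) {a : κ → ℂ} {x y : X} (hy : HasSum (fun k => a k • P k x) y)
    (k : κ) : P k y = a k • P k x := by
  classical
  have h1 := hy.mapL (P k)
  refine h1.unique ?_
  have h2 : (fun j => P k (a j • P j x)) = fun j => if j = k then a k • P k x else 0 := by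
    funext j
    rw [map_smul]
    have h3 : P k (P j x) = (P k * P j) x := rfl
    rw [h3]
    by_cases hj : j = k
    · subst hj
      rw [if_pos rfl, h.idem]
    · rw [if_neg hj, h.orth k j (fun e => hj e.symm)]
      simp
  rw [h2]
  exact hasSum_ite_eq k _

/-- **diagonal operators with respect to an unconditional decomposition** -/
theorem UDec.hasCal [CompleteSpace X] (h : UDec P) (z : κ → ℂ) (R : ℝ) (hz : ∀ k, ‖z k‖ ≤ R)
    (N : X →L[ℂ] X) (hN : ∀ x, HasSum (fun k => z k • P k x) (N x)) : HasCal N := by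
  classical
  obtain ⟨C, hC0, hC⟩ := h.exists_diag
  have hz' : ∀ k, z k ∈ closedBall (0:ℂ) |R| := fun k => by
    rw [mem_closedBall_zero_iff]
    exact (hz k).trans (le_abs_self R)
  have : Nonempty (closedBall (0:ℂ) |R|) := ⟨⟨0, mem_closedBall_self (abs_nonneg R)⟩⟩
  have key : ∀ f : C(closedBall (0:ℂ) |R|, ℂ), ∃ A : X →L[ℂ] X, ‖A‖ ≤ C * ‖f‖ ∧
      ∀ x, HasSum (fun k => f ⟨z k, hz' k⟩ • P k x) (A x) := fun f =>
    hC (fun k => f ⟨z k, hz' k⟩) ‖f‖ (norm_nonneg f) (fun k => f.norm_coe_le_norm _)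
  choose A hA1 hA2 using key
  have hmul : ∀ f g, A (f * g) = A f * A g := by
    intro f g
    ext x
    refine (hA2 (f * g) x).unique ?_
    have h1 := hA2 f (A g x)
    have h2 : (fun k => f ⟨z k, hz' k⟩ • P k (A g x)) =
        fun k => (f * g) ⟨z k, hz' k⟩ • P k x := by
      funext k
      rw [h.coord (hA2 g x) k, smul_smul]
      rfl
    rw [h2] at h1
    exact h1
  have hadd : ∀ f g, A (f + g) = A f + A g := by
    intro f g
    ext x
    refine (hA2 (f + g) x).unique ?_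
    have h1 := (hA2 f x).add (hA2 g x)
    have h2 : (fun k => f ⟨z k, hz' k⟩ • P k x + g ⟨z k, hz' k⟩ • P k x) =
        fun k => (f + g) ⟨z k, hz' k⟩ • P k x := by
      funext k
      rw [← add_smul]
      rfl
    rw [h2] at h1
    exact h1
  have hsc : ∀ c : ℂ, A (algebraMap ℂ _ c) = algebraMap ℂ _ c := by
    intro c
    ext x
    refine (hA2 _ x).unique ?_
    have h1 := (h.sum x).const_smul c
    exact h1
  have hone : A 1 = 1 := by
    have h1 := hsc 1
    rw [map_one, map_one] at h1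
    exact h1
  have hzero : A 0 = 0 := by
    have h1 := hsc 0
    rw [map_zero, map_zero] at h1
    exact h1
  let Ψ : C(closedBall (0:ℂ) |R|, ℂ) →ₐ[ℂ] (X →L[ℂ] X) :=
    { toFun := A
      map_one' := hone
      map_mul' := hmul
      map_zero' := hzero
      map_add' := hadd
      commutes' := hsc }
  refine ⟨closedBall 0 |R|, Ψ, isCompact_closedBall 0 |R|, ?_, ?_⟩
  · exact AddMonoidHomClass.continuous_of_bound Ψ C hA1
  · ext x
    refine (hA2 _ x).unique ?_
    exact hN x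

end decomposition

section multiplication

variable {S : Type} [MeasurableSpace S] {μ : Measure S} {E : Type} [NormedAddCommGroup E]
  [NormedSpace ℂ E] {p : ℝ≥0∞} [Fact (1 ≤ p)]

theorem exists_mul (g : S → ℂ) (hg : Measurable g) (M : ℝ) (hM : 0 ≤ M) (hb : ∀ s, ‖g s‖ ≤ M) :
    ∃ A : Lp E p μ →L[ℂ] Lp E p μ, ‖A‖ ≤ M ∧ ∀ f, A f =ᵐ[μ] fun s => g s • f s := by
  have hm : ∀ f : Lp E p μ, MemLp (fun s => g s • f s) p μ := fun f => by
    refine MemLp.of_le_mul (c := M) (Lp.memLp f)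
      (hg.aestronglyMeasurable.smul (Lp.aestronglyMeasurable f)) (Eventually.of_forall fun s => ?_)
    rw [norm_smul]
    exact mul_le_mul_of_nonneg_right (hb s) (norm_nonneg _)
  let L : Lp E p μ →ₗ[ℂ] Lp E p μ :=
    { toFun := fun f => (hm f).toLp _
      map_add' := fun f h => by
        refine Lp.ext ?_
        filter_upwards [(hm (f + h)).coeFn_toLp, Lp.coeFn_add ((hm f).toLp _) ((hm h).toLp _),
          (hm f).coeFn_toLp, (hm h).coeFn_toLp, Lp.coeFn_add f h] with s h1 h2 h3 h4 h5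
        rw [h1, h2, Pi.add_apply, h3, h4, h5, Pi.add_apply, smul_add]
      map_smul' := fun c f => by
        refine Lp.ext ?_
        filter_upwards [(hm (c • f)).coeFn_toLp, Lp.coeFn_smul c ((hm f).toLp _),
          (hm f).coeFn_toLp, Lp.coeFn_smul c f] with s h1 h2 h3 h5
        rw [h1]
        simp only [RingHom.id_apply]
        rw [h2, Pi.smul_apply, h3, h5, Pi.smul_apply, smul_comm] }
  have hL : ∀ f, ‖L f‖ ≤ M * ‖f‖ := fun f => by
    refine Lp.norm_le_mul_norm_of_ae_le_mul ?_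
    filter_upwards [(hm f).coeFn_toLp] with s h1
    have h2 : (L f : S → E) s = g s • f s := h1
    rw [h2, norm_smul]
    exact mul_le_mul_of_nonneg_right (hb s) (norm_nonneg _)
  exact ⟨L.mkContinuous M hL, L.mkContinuous_norm_le hM hL, fun f => (hm f).coeFn_toLp⟩

/-- **multiplication operators on spaces `L^p(μ, E)`** -/
theorem mulOp (φ : S → ℂ) (hφ : Measurable φ) (R : ℝ) (hR : ∀ s, ‖φ s‖ ≤ R)
    (N : Lp E p μ →L[ℂ] Lp E p μ) (hN : ∀ f, N f =ᵐ[μ] fun s => φ s • f s) : HasCal N := by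
  have hz' : ∀ s, φ s ∈ closedBall (0:ℂ) |R| := fun s => by
    rw [mem_closedBall_zero_iff]
    exact (hR s).trans (le_abs_self R)
  have key : ∀ f : C(closedBall (0:ℂ) |R|, ℂ), ∃ A : Lp E p μ →L[ℂ] Lp E p μ, ‖A‖ ≤ ‖f‖ ∧
      ∀ h, A h =ᵐ[μ] fun s => f ⟨φ s, hz' s⟩ • h s := fun f =>
    exists_mul (fun s => f ⟨φ s, hz' s⟩) (f.continuous.measurable.comp (hφ.subtype_mk)) ‖f‖
      (norm_nonneg f) (fun s => f.norm_coe_le_norm _)
  choose A hA1 hA2 using key
  have hmul : ∀ f g, A (f * g) = A f * A g := by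
    intro f g
    ext1 x
    refine Lp.ext ?_
    have e : (A f * A g) x = A f (A g x) := rfl
    rw [e]
    filter_upwards [hA2 (f * g) x, hA2 f (A g x), hA2 g x] with s h1 h2 h3
    rw [h1, h2, h3, smul_smul]
    rfl
  have hadd : ∀ f g, A (f + g) = A f + A g := by
    intro f g
    ext1 x
    refine Lp.ext ?_
    have e : (A f + A g) x = A f x + A g x := rfl
    rw [e]
    filter_upwards [hA2 (f + g) x, hA2 f x, hA2 g x, Lp.coeFn_add (A f x) (A g x)]
      with s h1 h2 h3 h4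
    rw [h1, h4, Pi.add_apply, h2, h3, ← add_smul]
    rfl
  have hsc : ∀ c : ℂ, A (algebraMap ℂ _ c) = algebraMap ℂ _ c := by
    intro c
    ext1 x
    refine Lp.ext ?_
    have e : (algebraMap ℂ (Lp E p μ →L[ℂ] Lp E p μ) c) x = c • x := rfl
    rw [e]
    filter_upwards [hA2 (algebraMap ℂ _ c) x, Lp.coeFn_smul c x] with s h1 h2
    rw [h1, h2]
    rfl
  have hone : A 1 = 1 := by
    have h1 := hsc 1
    rw [map_one, map_one] at h1
    exact h1
  have hzero : A 0 = 0 := by
    have h1 := hsc 0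
    rw [map_zero, map_zero] at h1
    exact h1
  let Ψ : C(closedBall (0:ℂ) |R|, ℂ) →ₐ[ℂ] (Lp E p μ →L[ℂ] Lp E p μ) :=
    { toFun := A
      map_one' := hone
      map_mul' := hmul
      map_zero' := hzero
      map_add' := hadd
      commutes' := hsc }
  refine ⟨closedBall 0 |R|, Ψ, isCompact_closedBall 0 |R|, ?_, ?_⟩
  · exact AddMonoidHomClass.continuous_of_bound Ψ 1 (fun f => by rw [one_mul]; exact hA1 f)
  · ext1 x
    refine Lp.ext ?_
    filter_upwards [hN x, hA2 ⟨Subtype.val, continuous_subtype_val⟩ x] with s h1 h2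
    rw [h1]
    exact h2

end multiplication

end Pool.Agent.Q98.RB.Exa
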