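import Pool.Agent.Q98.RB.Base

set_option autoImplicit false

namespace Pool.Agent.Q98.RB

open MeasureTheory Set Metric Filter Topology
open scoped ENNReal NNReal ComplexConjugate ContDiff
open Pool.Agent.Y271.RO (db ht Bd)

/-!
# The area Cauchy transform of a bounded function of compact support is continuous
-/

/-- an elementary inequality -/
theorem elem {a b d : ℝ} (ha : 0 < a) (hb : 0 < b) (hd : 0 ≤ d) (h : d ≤ a + b) :
    d / (a * b) ≤ 2 * Real.sqrt d * (a ^ (-(3/2):ℝ) + b ^ (-(3/2):ℝ)) := by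
  wlog hab : a ≤ b generalizing a b
  · have := this hb ha (by linarith) (by linarith)
    rw [mul_comm a b, add_comm (a ^ _)]
    exact this
  have h1 : a ^ (-(3/2):ℝ) = 1 / (a * Real.sqrt a) := by
    rw [Real.rpow_neg ha.le, Real.sqrt_eq_rpow, one_div, show (3/2:ℝ) = 1 + 1/2 by norm_num,
      Real.rpow_add ha, Real.rpow_one]
  have h2 : 0 ≤ b ^ (-(3/2):ℝ) := by positivity
  have h3 : d / (a * b) ≤ 2 * Real.sqrt d * (1 / (a * Real.sqrt a)) := by
    have hsa : 0 < Real.sqrt a := Real.sqrt_pos.2 ha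
    have hsb : 0 < Real.sqrt b := Real.sqrt_pos.2 hb
    have h4 : d ≤ 4 * b := by linarith
    have h5 : Real.sqrt d ≤ 2 * Real.sqrt b := by
      rw [Real.sqrt_le_left (by positivity)]
      rw [mul_pow, Real.sq_sqrt hb.le]
      linarith
    have h6 : Real.sqrt a ≤ Real.sqrt b := Real.sqrt_le_sqrt hab
    rw [mul_one_div, div_le_div_iff₀ (by positivity) (by positivity)]
    have e1 : d = Real.sqrt d * Real.sqrt d := (Real.mul_self_sqrt hd).symm
    have e2 : b = Real.sqrt b * Real.sqrt b := (Real.mul_self_sqrt hb.le).symm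
    calc d * (a * Real.sqrt a) = Real.sqrt d * (Real.sqrt d * Real.sqrt a) * a := by
          nth_rewrite 1 [e1]; ring
      _ ≤ Real.sqrt d * (2 * Real.sqrt b * Real.sqrt b) * a := by
          have : Real.sqrt d * Real.sqrt a ≤ 2 * Real.sqrt b * Real.sqrt b :=
            mul_le_mul h5 h6 hsa.le (by positivity)
          gcongr
      _ = 2 * Real.sqrt d * (a * b) := by
          nth_rewrite 3 [e2]; ring
  calc d / (a * b) ≤ 2 * Real.sqrt d * (1 / (a * Real.sqrt a)) := h3
    _ = 2 * Real.sqrt d * a ^ (-(3/2):ℝ) := by rw [h1]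
    _ ≤ _ := by
      apply mul_le_mul_of_nonneg_left _ (by positivity)
      linarith

theorem unit32 : IntegrableOn (fun z : ℂ => ‖z‖ ^ (-(3/2):ℝ)) (ball (0:ℂ) 1) := by
  refine integrableOn_ball_of_norm_le_rpow (E := ℂ) (F := ℝ) (μ := volume)
    (f := fun z => ‖z‖ ^ (-(3/2):ℝ)) (C := 1) (α := 3/2) (r := 1)
    (by rw [Complex.finrank_real_complex]; norm_num)
    (by rw [Complex.finrank_real_complex]; norm_num) (Eventually.of_forall fun z => ?_)
    (Measurable.aestronglyMeasurable (by fun_prop))
  rw [Real.norm_of_nonneg (by positivity), one_mul]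

theorem bound32 (R : ℝ) : ∃ C : ℝ, 0 ≤ C ∧ ∀ c w : ℂ,
    IntegrableOn (fun z : ℂ => ‖z - w‖ ^ (-(3/2):ℝ)) (ball c R) ∧
    ∫ z in ball c R, ‖z - w‖ ^ (-(3/2):ℝ) ≤ C := by
  set k : ℂ → ℝ := fun z => (ball (0:ℂ) 1).indicator (fun z : ℂ => ‖z‖ ^ (-(3/2):ℝ)) z with hk
  have hki : Integrable k := (integrable_indicator_iff measurableSet_ball).2 unit32
  have hk0 : ∀ z, 0 ≤ k z := fun z => indicator_nonneg (fun _ _ => by positivity) z
  refine ⟨(∫ z, k z) + volume.real (ball (0:ℂ) R), add_nonneg (integral_nonneg hk0) (by positivity),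
    fun c w => ?_⟩
  have hkw : Integrable (fun z => k (z - w)) := hki.comp_sub_right w
  have hb : ∀ z : ℂ, ‖z - w‖ ^ (-(3/2):ℝ) ≤ k (z - w) + 1 := by
    intro z
    by_cases hz : z - w ∈ ball (0:ℂ) 1
    · rw [hk]
      simp only [indicator_of_mem hz]
      linarith
    · have h1 : 0 ≤ k (z - w) := hk0 _
      have h2 : 1 ≤ ‖z - w‖ := by
        rwa [mem_ball_zero_iff, not_lt] at hz
      have h3 : ‖z - w‖ ^ (-(3/2):ℝ) ≤ 1 := Real.rpow_le_one_of_one_le_of_nonpos h2 (by norm_num)
      linarith
  have hmeas : AEStronglyMeasurable (fun z : ℂ => ‖z - w‖ ^ (-(3/2):ℝ))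
      (volume.restrict (ball c R)) := by
    apply Measurable.aestronglyMeasurable
    fun_prop
  have hi : IntegrableOn (fun z => k (z - w) + 1) (ball c R) :=
    hkw.integrableOn.add (integrableOn_const measure_ball_lt_top.ne)
  have hint : IntegrableOn (fun z : ℂ => ‖z - w‖ ^ (-(3/2):ℝ)) (ball c R) := by
    refine Integrable.mono' hi hmeas (Eventually.of_forall fun z => ?_)
    rw [Real.norm_of_nonneg (by positivity)]
    exact hb z
  refine ⟨hint, ?_⟩
  calc ∫ z in ball c R, ‖z - w‖ ^ (-(3/2):ℝ) ≤ ∫ z in ball c R, (k (z - w) + 1) :=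
        setIntegral_mono hint hi hb
    _ = (∫ z in ball c R, k (z - w)) + ∫ z in ball c R, (1:ℝ) :=
        integral_add hkw.integrableOn (integrableOn_const measure_ball_lt_top.ne)
    _ ≤ (∫ z, k (z - w)) + volume.real (ball (0:ℂ) R) := by
        gcongr
        · exact Eventually.of_forall fun z => hk0 _
        · exact Measure.restrict_le_self
        · rw [setIntegral_const, smul_eq_mul, mul_one]
          simp only [measureReal_def]
          rw [Complex.volume_ball, Complex.volume_ball]
    _ = _ := by rw [integral_sub_right_eq_self (fun z => k z) w]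

/-- the area Cauchy transform of a bounded function is continuous -/
theorem ht_cont {g : ℂ → ℂ} {c : ℂ} {r M : ℝ} (hr : 0 < r) (hg : Bd g c r M) :
    Continuous (ht g) := by
  obtain ⟨C, hC0, hC⟩ := bound32 r
  obtain ⟨K, hK0, hK⟩ := Pool.Agent.Y271.RO.hHT r hr
  obtain ⟨-, -, hint, -, -⟩ := hK c M g hg
  have key : ∀ l l' : ℂ, ‖ht g l - ht g l'‖ ≤ 4 * M * C * Real.sqrt ‖l - l'‖ := by
    intro l l'
    set κ : ℂ → ℂ → ℝ := fun l z => (ball c r).indicator (fun z : ℂ => ‖z - l‖ ^ (-(3/2):ℝ)) z
      with hκ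
    have hκi : ∀ l, Integrable (κ l) := fun l =>
      (integrable_indicator_iff measurableSet_ball).2 (hC c l).1
    have hκC : ∀ l, ∫ z, κ l z ≤ C := fun l => by
      rw [hκ]
      simp only
      rw [integral_indicator measurableSet_ball]
      exact (hC c l).2
    unfold ht
    rw [← integral_sub (hint l) (hint l')]
    have h0 : ∀ (l : ℂ), ∀ᵐ z : ℂ, z ≠ l := fun l => by
      have : (volume : Measure ℂ) {l} = 0 := measure_singleton l
      exact compl_mem_ae_iff.2 this
    calc ‖∫ z, (g z * (z - l)⁻¹ - g z * (z - l')⁻¹)‖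
        ≤ ∫ z, M * (2 * Real.sqrt ‖l - l'‖) * (κ l z + κ l' z) := by
          refine norm_integral_le_of_norm_le (((hκi l).add (hκi l')).const_mul _) ?_
          filter_upwards [h0 l, h0 l'] with z h1 h2
          by_cases hz : z ∈ ball c r
          · have e1 : g z * (z - l)⁻¹ - g z * (z - l')⁻¹ =
                g z * ((l - l') / ((z - l) * (z - l'))) := by
              have h1' : z - l ≠ 0 := sub_ne_zero.2 h1
              have h2' : z - l' ≠ 0 := sub_ne_zero.2 h2
              field_simp
              ring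
            rw [e1, norm_mul, norm_div, norm_mul]
            have h3 := elem (a := ‖z - l‖) (b := ‖z - l'‖) (d := ‖l - l'‖)
              (norm_pos_iff.2 (sub_ne_zero.2 h1)) (norm_pos_iff.2 (sub_ne_zero.2 h2))
              (norm_nonneg _) (by
                have : l - l' = -(z - l) + (z - l') := by ring
                rw [this]
                refine (norm_add_le _ _).trans ?_
                rw [norm_neg])
            simp only [hκ, indicator_of_mem hz]
            calc ‖g z‖ * (‖l - l'‖ / (‖z - l‖ * ‖z - l'‖))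
                ≤ M * (2 * Real.sqrt ‖l - l'‖ *
                  (‖z - l‖ ^ (-(3/2):ℝ) + ‖z - l'‖ ^ (-(3/2):ℝ))) :=
                  mul_le_mul (hg.bd z) h3 (by positivity) hg.nonneg
              _ = _ := by ring
          · rw [hg.supp z hz]
            simp only [hκ, indicator_of_notMem hz]
            simp
      _ = M * (2 * Real.sqrt ‖l - l'‖) * ((∫ z, κ l z) + ∫ z, κ l' z) := by
          rw [integral_const_mul, integral_add (hκi l) (hκi l')]
      _ ≤ M * (2 * Real.sqrt ‖l - l'‖) * (C + C) := by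
          have := hg.nonneg
          gcongr
          · exact hκC l
          · exact hκC l'
      _ = _ := by ring
  rw [continuous_iff_continuousAt]
  intro l
  rw [ContinuousAt, tendsto_iff_norm_sub_tendsto_zero]
  have h1 : Tendsto (fun l' : ℂ => 4 * M * C * Real.sqrt ‖l' - l‖) (𝓝 l) (𝓝 0) := by
    have h2 : Continuous fun l' : ℂ => 4 * M * C * Real.sqrt ‖l' - l‖ := by fun_prop
    have h3 := h2.tendsto l
    simpa using h3
  exact squeeze_zero (fun _ => norm_nonneg _) (fun l' => key l' l) h1

end Pool.Agent.Q98.RB
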