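import Pool.Agent.Q98.RB.Base

/-!
# Chains of vectors, weak limits in reflexive spaces, annihilation
-/

set_option autoImplicit false

namespace Pool.Agent.Q98.RB

open MeasureTheory Set Metric Filter Topology
open scoped ENNReal NNReal ComplexConjugate ContDiff

variable {X : Type} [NormedAddCommGroup X] [NormedSpace ℂ X]

/-- reflexive spaces -/
def Refl (X : Type) [NormedAddCommGroup X] [NormedSpace ℂ X] : Prop :=
  Function.Surjective (NormedSpace.inclusionInDoubleDual ℂ X)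

/-- the operator `N + u ⊗ v` -/
noncomputable def T1 (N : X →L[ℂ] X) (u : X) (v : X →L[ℂ] ℂ) : X →L[ℂ] X := N + v.smulRight u

theorem T1_apply (N : X →L[ℂ] X) (u : X) (v : X →L[ℂ] ℂ) (x : X) :
    T1 N u v x = N x + v x • u := rfl

/-- chains: `Y 0` lies in the local spectral subspace of the disc -/
def IsChain (T : X →L[ℂ] X) (c : ℂ) (r : ℝ) (Y : ℕ → X) : Prop :=
  (∀ k, T (Y k) - c • Y k = Y (k + 1)) ∧ ∃ C : ℝ, ∀ k, ‖Y k‖ ≤ C * r ^ k

/-- there is a nonzero chain -/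
def HasCh (T : X →L[ℂ] X) (c : ℂ) (r : ℝ) : Prop := ∃ Y, IsChain T c r Y ∧ Y 0 ≠ 0

theorem HasCh.mono {T : X →L[ℂ] X} {c : ℂ} {r r' : ℝ} (h : HasCh T c r) (h0 : 0 ≤ r)
    (hr : r ≤ r') : HasCh T c r' := by
  obtain ⟨Y, ⟨h1, C, h2⟩, h3⟩ := h
  refine ⟨Y, ⟨h1, |C|, fun k => (h2 k).trans ?_⟩, h3⟩
  calc C * r ^ k ≤ |C| * r ^ k := mul_le_mul_of_nonneg_right (le_abs_self C) (by positivity)
    _ ≤ |C| * r' ^ k := mul_le_mul_of_nonneg_left (pow_le_pow_left₀ h0 hr k) (abs_nonneg C)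

/-- weak limits in reflexive spaces -/
theorem wlim (hX : Refl X) (U : Ultrafilter ℕ) (v : ℕ → X) (C : ℝ) (hC : ∀ n, ‖v n‖ ≤ C) :
    ∃ w : X, ‖w‖ ≤ C ∧ ∀ y : StrongDual ℂ X, Tendsto (fun n => y (v n)) U (𝓝 (y w)) := by
  let J := NormedSpace.inclusionInDoubleDual ℂ X
  let e : ℕ → WeakDual ℂ (StrongDual ℂ X) := fun n => StrongDual.toWeakDual (J (v n))
  have hK := WeakDual.isCompact_closedBall (𝕜 := ℂ) (E := StrongDual ℂ X) 0 C
  have hmem : ∀ n, e n ∈ WeakDual.toStrongDual ⁻¹' Metric.closedBall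
      (0 : StrongDual ℂ (StrongDual ℂ X)) C := by
    intro n
    have h1 : ‖J (v n)‖ ≤ C := (NormedSpace.double_dual_bound ℂ X (v n)).trans (hC n)
    exact (mem_closedBall_zero_iff (E := StrongDual ℂ (StrongDual ℂ X))).2 h1
  obtain ⟨L, hLK, hL⟩ := hK.ultrafilter_le_nhds (Ultrafilter.map e U) (by
    rw [le_principal_iff]
    exact Filter.mem_map.2 (Filter.univ_mem' hmem))
  obtain ⟨w, hw⟩ := hX (WeakDual.toStrongDual L)
  have hlim : ∀ y : StrongDual ℂ X, Tendsto (fun n => y (v n)) U (𝓝 (y w)) := by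
    intro y
    have h1 : Tendsto e U (𝓝 L) := hL
    have h2 := (WeakDual.eval_continuous (𝕜 := ℂ) (E := StrongDual ℂ X) y).tendsto L
    have h3 := h2.comp h1
    have h4 : L y = y w := by
      have := congrArg (fun F : StrongDual ℂ (StrongDual ℂ X) => F y) hw
      exact this.symm
    rw [← h4]
    exact h3
  refine ⟨w, ?_, hlim⟩
  have h5 : ‖J w‖ ≤ C := by
    have h1 : ‖WeakDual.toStrongDual L‖ ≤ C :=
      (mem_closedBall_zero_iff (E := StrongDual ℂ (StrongDual ℂ X))).1 hLK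
    rw [hw]
    exact h1
  have h6 : ‖J w‖ = ‖w‖ := (NormedSpace.inclusionInDoubleDualLi (𝕜 := ℂ) (E := X)).norm_map w
  rwa [h6] at h5

theorem chain_lim (hX : Refl X) (U : Ultrafilter ℕ) (hU : (U : Filter ℕ) ≤ atTop)
    (T : X →L[ℂ] X) (c : ℂ) (r C : ℝ)
    (Z : ℕ → ℕ → X) (hb : ∀ n k, ‖Z n k‖ ≤ C * r ^ k)
    (h1 : ∀ k, Tendsto (fun n => T (Z n k) - c • Z n k - Z n (k + 1)) atTop (𝓝 0)) :
    ∃ Y : ℕ → X, IsChain T c r Y ∧
      ∀ k, ∀ y : StrongDual ℂ X, Tendsto (fun n => y (Z n k)) U (𝓝 (y (Y k))) := by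
  have hZ : ∀ k, ∃ w : X, ‖w‖ ≤ C * r ^ k ∧
      ∀ y : StrongDual ℂ X, Tendsto (fun n => y (Z n k)) U (𝓝 (y w)) := fun k =>
    wlim hX U (fun n => Z n k) _ (fun n => hb n k)
  choose Y hYb hY using hZ
  refine ⟨Y, ⟨fun k => ?_, C, hYb⟩, hY⟩
  rw [← sub_eq_zero]
  refine SeparatingDual.eq_zero_of_forall_dual_eq_zero (R := ℂ) fun y => ?_
  have e1 := ((hY k (y.comp T)).sub ((hY k y).const_mul c)).sub (hY (k + 1) y)
  have e2 : Tendsto (fun n => y (T (Z n k) - c • Z n k - Z n (k + 1))) U (𝓝 0) := by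
    have := (y.continuous.tendsto 0).comp ((h1 k).mono_left hU)
    rwa [map_zero] at this
  have e3 : y (T (Y k) - c • Y k - Y (k + 1)) = (y.comp T) (Y k) - c * y (Y k) - y (Y (k + 1)) := by
    simp
  rw [e3]
  refine tendsto_nhds_unique (e1.congr fun n => ?_) e2
  simp

/-- weak limits of approximate chains -/
theorem wlim_chain (hX : Refl X) (T : X →L[ℂ] X) (c : ℂ) (r C : ℝ) (Z : ℕ → ℕ → X)
    (hb : ∀ n k, ‖Z n k‖ ≤ C * r ^ k)
    (h1 : ∀ k, Tendsto (fun n => T (Z n k) - c • Z n k - Z n (k + 1)) atTop (𝓝 0)) :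
    (∀ (b : ℂ) (x : X) (V : ℕ → X) (C' : ℝ), (∀ n, ‖V n‖ ≤ C') →
      Tendsto (fun n => x - Z n 0 - (T (V n) - b • V n)) atTop (𝓝 0) →
      ∃ (Y : ℕ → X) (W : X), IsChain T c r Y ∧ x = Y 0 + (T W - b • W)) ∧
    ((∀ Y, IsChain T c r Y → Y 0 = 0) → ∀ w : StrongDual ℂ X,
      Tendsto (fun n => w (Z n 0)) atTop (𝓝 0)) := by
  refine ⟨fun b x V C' hV h2 => ?_, fun h w => ?_⟩
  · set U : Ultrafilter ℕ := Ultrafilter.of atTop with hU
    have hle : (U : Filter ℕ) ≤ atTop := Ultrafilter.of_le _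
    obtain ⟨Y, hY, hYl⟩ := chain_lim hX U hle T c r C Z hb h1
    obtain ⟨W, -, hW⟩ := wlim hX U V C' hV
    refine ⟨Y, W, hY, ?_⟩
    have h3 : x - Y 0 - (T W - b • W) = 0 := by
      refine SeparatingDual.eq_zero_of_forall_dual_eq_zero (R := ℂ) fun y => ?_
      have e1 := ((tendsto_const_nhds (x := y x) (f := (U : Filter ℕ))).sub (hYl 0 y)).sub
        ((hW (y.comp T)).sub ((hW y).const_mul b))
      have e2 : Tendsto (fun n => y (x - Z n 0 - (T (V n) - b • V n))) U (𝓝 0) := by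
        have := (y.continuous.tendsto 0).comp (h2.mono_left hle)
        rwa [map_zero] at this
      have e3 : y (x - Y 0 - (T W - b • W)) = y x - y (Y 0) - ((y.comp T) W - b * y W) := by
        simp
      rw [e3]
      refine tendsto_nhds_unique (e1.congr fun n => ?_) e2
      simp
    rw [sub_sub, sub_eq_zero] at h3
    exact h3
  · rw [tendsto_iff_ultrafilter]
    intro U hU
    obtain ⟨Y, hY, hYl⟩ := chain_lim hX U hU T c r C Z hb h1
    have h4 := hYl 0 w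
    rwa [h Y hY, map_zero] at h4

/-- `T` has a nontrivial closed hyperinvariant subspace -/
def HasHyp (T : X →L[ℂ] X) : Prop :=
  ∃ V : Submodule ℂ X, IsClosed (V : Set X) ∧ V ≠ ⊥ ∧ V ≠ ⊤ ∧
    ∀ Q : X →L[ℂ] X, Q * T = T * Q → ∀ x ∈ V, Q x ∈ V

/-- the vectors `Q x`, `Q` in the commutant -/
def V0 (T : X →L[ℂ] X) (x : X) : Submodule ℂ X where
  carrier := {y | ∃ Q : X →L[ℂ] X, Q * T = T * Q ∧ Q x = y}
  add_mem' := by
    rintro _ _ ⟨Q, hQ, rfl⟩ ⟨Q', hQ', rfl⟩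
    exact ⟨Q + Q', by rw [add_mul, mul_add, hQ, hQ'], rfl⟩
  zero_mem' := ⟨0, by rw [zero_mul, mul_zero], rfl⟩
  smul_mem' := by
    rintro c _ ⟨Q, hQ, rfl⟩
    exact ⟨c • Q, by rw [smul_mul_assoc, mul_smul_comm, hQ], rfl⟩

theorem V0_inv {T : X →L[ℂ] X} {x : X}
    {Q : X →L[ℂ] X} (hQ : Q * T = T * Q) {y : X} (hy : y ∈ V0 T x) : Q y ∈ V0 T x := by
  obtain ⟨Q', hQ', rfl⟩ := hy
  exact ⟨Q * Q', by rw [mul_assoc, hQ', ← mul_assoc, hQ, mul_assoc], rfl⟩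

/-- vectors and functionals with disjoint local spectra annihilate each other -/
theorem ann (T : X →L[ℂ] X) (c₁ c₂ : ℂ) (r₁ r₂ C₁ C₂ : ℝ) (x : ℕ → X) (Y : ℕ → StrongDual ℂ X)
    (hr1 : 0 ≤ r₁) (hr2 : 0 ≤ r₂) (hr : r₁ + r₂ < ‖c₁ - c₂‖)
    (hX : ∀ a, T (x a) - c₁ • x a = x (a + 1)) (hXb : ∀ a, ‖x a‖ ≤ C₁ * r₁ ^ a)
    (hY : ∀ a, (Y a).comp T - c₂ • Y a = Y (a + 1)) (hYb : ∀ a, ‖Y a‖ ≤ C₂ * r₂ ^ a)
    (hX0 : x 0 ≠ 0) (hY0 : Y 0 ≠ 0) : HasHyp T := by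
  have horth : ∀ Q : X →L[ℂ] X, Q * T = T * Q → Y 0 (Q (x 0)) = 0 := by
    intro Q hQ
    have hrec : ∀ a b, Y (b + 1) (Q (x a)) - Y b (Q (x (a + 1))) =
        (c₁ - c₂) * Y b (Q (x a)) := by
      intro a b
      have e1 : Q (T (x a)) = T (Q (x a)) := by
        have := congrArg (fun R : X →L[ℂ] X => R (x a)) hQ
        exact this
      rw [← hX a, ← hY b]
      simp only [map_sub, map_smul, sub_apply, ContinuousLinearMap.comp_apply,
        smul_apply, e1, smul_eq_mul]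
      ring
    have hC1 : 0 ≤ C₁ := by
      have := (norm_nonneg _).trans (hXb 0)
      simpa using this
    have hC2 : 0 ≤ C₂ := by
      have := (norm_nonneg _).trans (hYb 0)
      simpa using this
    have hbd : ∀ n a b : ℕ, ‖c₁ - c₂‖ ^ n * ‖Y b (Q (x a))‖ ≤
        ‖Q‖ * C₁ * C₂ * (r₁ + r₂) ^ n * (r₁ ^ a * r₂ ^ b) := by
      intro n
      induction n with
      | zero =>
        intro a b
        have h1 : ‖Y b (Q (x a))‖ ≤ ‖Y b‖ * (‖Q‖ * ‖x a‖) :=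
          ((Y b).le_opNorm _).trans
            (mul_le_mul_of_nonneg_left (Q.le_opNorm _) (norm_nonneg (Y b)))
        have h2 : ‖Y b‖ * (‖Q‖ * ‖x a‖) ≤ (C₂ * r₂ ^ b) * (‖Q‖ * (C₁ * r₁ ^ a)) := by
          refine mul_le_mul (hYb b) (mul_le_mul_of_nonneg_left (hXb a) (norm_nonneg Q))
            (by positivity) (by positivity)
        rw [pow_zero, one_mul, pow_zero, mul_one]
        refine (h1.trans h2).trans (le_of_eq (by ring))
      | succ n ih =>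
        intro a b
        have h1 := ih a (b + 1)
        have h2 := ih (a + 1) b
        have h3 : ‖c₁ - c₂‖ * ‖Y b (Q (x a))‖ ≤
            ‖Y (b + 1) (Q (x a))‖ + ‖Y b (Q (x (a + 1)))‖ := by
          rw [← norm_mul, ← hrec a b]
          exact norm_sub_le _ _
        calc ‖c₁ - c₂‖ ^ (n + 1) * ‖Y b (Q (x a))‖
            = ‖c₁ - c₂‖ ^ n * (‖c₁ - c₂‖ * ‖Y b (Q (x a))‖) := by ring
          _ ≤ ‖c₁ - c₂‖ ^ n * (‖Y (b + 1) (Q (x a))‖ + ‖Y b (Q (x (a + 1)))‖) :=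
              mul_le_mul_of_nonneg_left h3 (by positivity)
          _ ≤ ‖Q‖ * C₁ * C₂ * (r₁ + r₂) ^ n * (r₁ ^ a * r₂ ^ (b + 1)) +
              ‖Q‖ * C₁ * C₂ * (r₁ + r₂) ^ n * (r₁ ^ (a + 1) * r₂ ^ b) := by
              rw [mul_add]
              exact add_le_add h1 h2
          _ = _ := by ring
    have h0 := Pool.Agent.Y529.NK.ANN.zero_of (x := ‖Y 0 (Q (x 0))‖) (K := ‖Q‖ * C₁ * C₂)
      (ρ := r₁ + r₂) (δ := ‖c₁ - c₂‖) (lt_of_le_of_lt (by positivity) hr) (by positivity) hr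
      (norm_nonneg _) (fun n => by simpa using hbd n 0 0)
    exact norm_eq_zero.1 h0
  refine ⟨(V0 T (x 0)).topologicalClosure, Submodule.isClosed_topologicalClosure _, ?_, ?_, ?_⟩
  · intro h
    have h1 : x 0 ∈ (V0 T (x 0)).topologicalClosure :=
      Submodule.le_topologicalClosure _ ⟨1, by rw [one_mul, mul_one], rfl⟩
    rw [h, Submodule.mem_bot] at h1
    exact hX0 h1
  · intro h
    apply hY0
    ext y
    have h1 : y ∈ (V0 T (x 0)).topologicalClosure := by rw [h]; exact Submodule.mem_top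
    have h2 : ((V0 T (x 0)).topologicalClosure : Set X) ⊆ {y | Y 0 y = 0} := by
      rw [Submodule.topologicalClosure_coe]
      refine closure_minimal ?_ (isClosed_eq (by fun_prop) continuous_const)
      rintro _ ⟨Q, hQ, rfl⟩
      exact horth Q hQ
    exact h2 h1
  · intro Q hQ y hy
    have h1 : y ∈ closure ((V0 T (x 0)) : Set X) := by
      rw [← Submodule.topologicalClosure_coe]; exact hy
    have h2 : Q y ∈ closure ((V0 T (x 0)) : Set X) :=
      map_mem_closure Q.continuous h1 fun y hy => V0_inv hQ hy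
    rw [← Submodule.topologicalClosure_coe] at h2
    exact h2

end Pool.Agent.Q98.RB
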