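import Pool.Agent.Q98.RB.CaseA

/-!
# Convergence of the `q n` with respect to the spectral measures and almost everywhere

Adapted from `Pool/Agent/Y287/RO/MID.lean` and `Pool/Agent/Y484/RO/PTW.lean` (starting library); the
hypotheses are made for one pair of functions only.
-/

set_option autoImplicit false

namespace Pool.Agent.Q98.RB

open MeasureTheory Set Metric Filter Topology
open scoped InnerProductSpace ENNReal NNReal ComplexConjugate ContDiff
open Pool.Agent.Y283.NK (ct)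
open Pool.Agent.Y271.RO (db ht Bd ff hHT hCTG hPOM hFID)
open Pool.Agent.Y287.RO (bd_of)
open Pool.Agent.Y484.RO (ker_bound exists_seq)

theorem mid1 {S : Type} [MeasurableSpace S] (μ : Measure S) [SigmaFinite μ] {φ : S → ℂ}
    (hφ : Measurable φ) (x u : Lp ℂ 2 μ) (a : ℂ) (ρ C : ℝ) (q : ℕ → ℂ → ℂ) (G : ℂ → ℂ) (hρ : 0 < ρ)
    (hq : ∀ n, ContDiff ℝ 1 (q n)) (hqb : ∀ n, ∀ z ∈ ball a ρ, ‖q n z‖ ≤ C)
    (hG : DifferentiableOn ℂ G (ball a ρ)) (hGb : ∀ z ∈ ball a ρ, ‖G z‖ ≤ C)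
    (hweak : ∀ h : ℂ → ℂ, IntegrableOn h (ball a ρ) →
      Tendsto (fun n => ∫ z in ball a ρ, q n z * h z) atTop (𝓝 (∫ z in ball a ρ, G z * h z)))
    (ψ : ℂ → ℂ) (hψ : ContDiff ℝ ∞ ψ) (hψs : tsupport ψ ⊆ ball a ρ)
    (hst : Tendsto (fun n => (∫ z, q n z * db ψ z * ct φ x u z) +
      Real.pi * ∫ s, conj (x s) * (q n (φ s) * ψ (φ s) * u s) ∂μ) atTop (𝓝 0)) :
    Tendsto (fun n => ∫ s, conj (x s) * (q n (φ s) * ψ (φ s) * u s) ∂μ) atTop
        (𝓝 (∫ s, conj (x s) * (G (φ s) * ψ (φ s) * u s) ∂μ)) := by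
  obtain ⟨h1, h2, h3, h4, h5, h6, h7⟩ := hPOM
  have hψ1 : ContDiff ℝ 1 ψ := hψ.of_le (by exact_mod_cast le_top)
  obtain ⟨-, -, hF⟩ := hCTG S μ φ hφ x u
  -- the product
  have hGat : ∀ z ∈ ball a ρ, AnalyticAt ℂ G z := fun z hz =>
    hG.analyticAt (isOpen_ball.mem_nhds hz)
  have hψ0 : ∀ z, z ∉ ball a ρ → ψ =ᶠ[𝓝 z] fun _ => 0 := by
    intro z hz
    have h8 : z ∉ tsupport ψ := fun h => hz (hψs h)
    exact notMem_tsupport_iff_eventuallyEq.1 h8
  obtain ⟨χ, hχ⟩ : ∃ χ : ℂ → ℂ, χ = fun z => G z * ψ z := ⟨_, rfl⟩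
  have hχd : ContDiff ℝ 1 χ := by
    rw [contDiff_iff_contDiffAt]
    intro z
    by_cases hz : z ∈ ball a ρ
    · rw [hχ]
      exact ((hGat z hz).contDiffAt.restrict_scalars ℝ).mul hψ1.contDiffAt
    · refine (contDiffAt_const (c := (0 : ℂ))).congr_of_eventuallyEq ?_
      filter_upwards [hψ0 z hz] with w hw
      rw [hχ]
      simp only []
      rw [hw, mul_zero]
  have hχs : tsupport χ ⊆ ball a ρ := by
    rw [hχ]
    exact (tsupport_mul_subset_right).trans hψs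
  have hχc : HasCompactSupport χ := by
    exact Metric.isCompact_of_isClosed_isBounded (isClosed_tsupport χ)
      (isBounded_ball.subset hχs)
  have hdb : ∀ z, db χ z = G z * db ψ z := by
    intro z
    by_cases hz : z ∈ ball a ρ
    · have hGd : DifferentiableAt ℂ G z := (hGat z hz).differentiableAt
      rw [hχ, h2 G ψ z (hGd.restrictScalars ℝ) (hψ1.differentiable one_ne_zero z), h3 G z hGd,
        zero_mul, zero_add]
    · rw [h7 χ z fun h => hz (hχs h), h7 ψ z fun h => hz (hψs h), mul_zero]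
  obtain ⟨M, hM⟩ := bd_of ⟨h1, h2, h3, h4, h5, h6, h7⟩ hχd hχs
  obtain ⟨M', hM'⟩ := bd_of ⟨h1, h2, h3, h4, h5, h6, h7⟩ hψ1 hψs
  obtain ⟨k1, -⟩ := hF a ρ M' _ hM'
  obtain ⟨-, k2⟩ := hF a ρ M _ hM
  have hoff : ∀ z, z ∉ ball a ρ → db ψ z = 0 := fun z hz => h7 ψ z fun h => hz (hψs h)
  -- integrals over the ball
  have hball : ∀ g : ℂ → ℂ, ∫ z in ball a ρ, g z * (db ψ z * ct φ x u z) =
      ∫ z, g z * db ψ z * ct φ x u z := by
    intro g
    rw [setIntegral_eq_integral_of_forall_compl_eq_zero]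
    · refine integral_congr_ae (Eventually.of_forall fun z => ?_)
      simp only []
      ring
    · intro z hz
      rw [hoff z hz, zero_mul, mul_zero]
  have hw := hweak (fun z => db ψ z * ct φ x u z) k1.integrableOn
  simp only [hball] at hw
  have hpi : (Real.pi : ℂ) ≠ 0 := Complex.ofReal_ne_zero.2 Real.pi_ne_zero
  -- the limit
  have hlim : ∫ z, G z * db ψ z * ct φ x u z =
      -(Real.pi * ∫ s, conj (x s) * (G (φ s) * ψ (φ s) * u s) ∂μ) := by
    have e1 : ∫ z, G z * db ψ z * ct φ x u z = ∫ z, db χ z * ct φ x u z := by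
      refine integral_congr_ae (Eventually.of_forall fun z => ?_)
      simp only [hdb]
    rw [e1, ← k2, ← integral_const_mul, ← integral_neg]
    refine integral_congr_ae (Eventually.of_forall fun s => ?_)
    have e0 : χ (φ s) = G (φ s) * ψ (φ s) := by rw [hχ]
    have e3 : ht (db χ) (φ s) = -(Real.pi * (G (φ s) * ψ (φ s))) := by
      rw [h1 χ hχd hχc, e0]
    show conj (x s) * (ht (db χ) (φ s) * u s) =
      -(Real.pi * (conj (x s) * (G (φ s) * ψ (φ s) * u s)))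
    rw [e3]
    ring
  have h8 := (hst.sub hw).div_const (Real.pi : ℂ)
  have e2 : (fun n => ((∫ z, q n z * db ψ z * ct φ x u z) +
      Real.pi * ∫ s, conj (x s) * (q n (φ s) * ψ (φ s) * u s) ∂μ -
      ∫ z, q n z * db ψ z * ct φ x u z) / (Real.pi : ℂ)) =
      fun n => ∫ s, conj (x s) * (q n (φ s) * ψ (φ s) * u s) ∂μ := by
    funext n
    rw [add_sub_cancel_left, mul_div_cancel_left₀ _ hpi]
  rw [e2, hlim] at h8
  have e3 : ((0 : ℂ) - -(Real.pi * ∫ s, conj (x s) * (G (φ s) * ψ (φ s) * u s) ∂μ)) /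
      (Real.pi : ℂ) = ∫ s, conj (x s) * (G (φ s) * ψ (φ s) * u s) ∂μ := by
    rw [sub_neg_eq_add, zero_add, mul_div_cancel_left₀ _ hpi]
  rw [e3] at h8
  exact h8

/-- a bounded continuous substitute of `1 / (z - w)` -/
noncomputable def Hm (w : ℂ) (δ : ℝ) (z : ℂ) : ℂ := conj (z - w) / ((max (‖z - w‖ ^ 2) (δ ^ 2) : ℝ) : ℂ)

theorem Hm_cont (w : ℂ) {δ : ℝ} (hδ : 0 < δ) : Continuous (Hm w δ) := by
  unfold Hm
  refine Continuous.div (by fun_prop) (by fun_prop) fun z => ?_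
  have : 0 < max (‖z - w‖ ^ 2) (δ ^ 2) := lt_max_of_lt_right (by positivity)
  exact_mod_cast this.ne'

theorem Hm_far {w z : ℂ} {δ : ℝ} (hδ : 0 < δ) (h : δ ≤ ‖z - w‖) : Hm w δ z = (z - w)⁻¹ := by
  unfold Hm
  rw [max_eq_left (pow_le_pow_left₀ hδ.le h 2), Complex.inv_def, Complex.normSq_eq_norm_sq,
    div_eq_mul_inv]
  push_cast
  rfl

theorem Hm_diff {w z : ℂ} {δ : ℝ} (hδ : 0 < δ) : ‖(z - w)⁻¹ - Hm w δ z‖ ≤ ‖(z - w)⁻¹‖ := by
  rcases le_or_gt δ ‖z - w‖ with h | h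
  · rw [Hm_far hδ h, sub_self, norm_zero]
    positivity
  · have e : (z - w)⁻¹ - Hm w δ z = (z - w)⁻¹ * ((1 - ‖z - w‖ ^ 2 / δ ^ 2 : ℝ) : ℂ) := by
      unfold Hm
      rw [max_eq_right (pow_le_pow_left₀ (norm_nonneg _) h.le 2)]
      by_cases hz : z - w = 0
      · simp [hz]
      · have h1 : conj (z - w) = (z - w)⁻¹ * ((‖z - w‖ ^ 2 : ℝ) : ℂ) := by
          rw [← Complex.normSq_eq_norm_sq, ← Complex.mul_conj]
          field_simp
        rw [h1]
        push_cast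
        ring
    rw [e, norm_mul, Complex.norm_real]
    refine mul_le_of_le_one_right (norm_nonneg _) ?_
    have h2 : ‖z - w‖ ^ 2 / δ ^ 2 ≤ 1 := by
      rw [div_le_one (by positivity)]
      exact pow_le_pow_left₀ (norm_nonneg _) h.le 2
    have h3 : 0 ≤ ‖z - w‖ ^ 2 / δ ^ 2 := by positivity
    rw [Real.norm_eq_abs, abs_le]
    constructor <;> linarith

/-- the convergence of the integrals with respect to the spectral measure -/
theorem part_c {S : Type} [MeasurableSpace S] {μ : Measure S} (φ : S → ℂ) (hφ : Measurable φ)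
    (u v : Lp ℂ 2 μ) (w : ℂ) (F : ℕ → ℂ → ℂ) (F' : ℂ → ℂ) (C : ℝ) (hF : ∀ n, Measurable (F n))
    (hF' : Measurable F') (hFb : ∀ n z, ‖F n z‖ ≤ C) (hFb' : ∀ z, ‖F' z‖ ≤ C)
    (hx : ∀ H : ℂ → ℂ, Continuous H → Tendsto (fun n => ∫ s, conj (v s) *
      (H (φ s) * F n (φ s) * u s) ∂μ) atTop (𝓝 (∫ s, conj (v s) * (H (φ s) * F' (φ s) * u s) ∂μ)))
    (hk : Integrable (fun s => conj (v s) * u s * (φ s - w)⁻¹) μ) :
    Tendsto (fun n => ∫ s, F n (φ s) * (conj (v s) * u s * (φ s - w)⁻¹) ∂μ) atTop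
      (𝓝 (∫ s, F' (φ s) * (conj (v s) * u s * (φ s - w)⁻¹) ∂μ)) := by
  have hC : 0 ≤ C := (norm_nonneg _).trans (hFb' 0)
  let k : S → ℂ := fun s => conj (v s) * u s * (φ s - w)⁻¹
  let A : ℕ → Set S := fun m => {s | ‖φ s - w‖ < 1 / ((m : ℝ) + 1)}
  have hA : ∀ m, MeasurableSet (A m) := fun m =>
    measurableSet_lt (by fun_prop) measurable_const
  have hanti : Antitone A := by
    intro m m' hm s hs
    have h1 : (1 : ℝ) / ((m' : ℝ) + 1) ≤ 1 / ((m : ℝ) + 1) := by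
      have : (m : ℝ) ≤ m' := by exact_mod_cast hm
      apply one_div_le_one_div_of_le (by positivity)
      linarith
    exact lt_of_lt_of_le hs h1
  have he : Tendsto (fun m => ∫ s in A m, ‖k s‖ ∂μ) atTop (𝓝 0) := by
    have h1 := tendsto_setIntegral_of_antitone hA hanti ⟨0, (hk.norm).integrableOn (s := A 0)⟩
    have h2 : ∫ s in ⋂ n, A n, ‖k s‖ ∂μ = 0 := by
      apply setIntegral_eq_zero_of_forall_eq_zero
      intro s hs
      have h3 : φ s - w = 0 := by
        by_contra h4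
        have h5 : 0 < ‖φ s - w‖ := norm_pos_iff.mpr h4
        obtain ⟨m, hm⟩ := exists_nat_one_div_lt h5
        exact absurd (mem_iInter.mp hs m) (not_lt.mpr hm.le)
      simp [k, h3]
    rw [← h2]
    exact h1
  -- the difference
  have hdm : ∀ m : ℕ, (0:ℝ) < 1 / ((m : ℝ) + 1) := fun m => by positivity
  have hvu : Integrable (fun s => conj (v s) * u s) μ := by
    refine (L2.integrable_inner (𝕜 := ℂ) v u).congr (Eventually.of_forall fun s => ?_)
    show inner ℂ (v s) (u s) = conj (v s) * u s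
    rw [RCLike.inner_apply, mul_comm]
  have hki : ∀ H : ℂ → ℂ, Measurable H → (∀ z, ‖H z‖ ≤ C) →
      Integrable (fun s => H (φ s) * k s) μ := by
    intro H hH hHb
    refine Integrable.mono' (hk.norm.const_mul C) ?_ (ae_of_all _ fun s => ?_)
    · exact (hH.comp hφ).aestronglyMeasurable.mul hk.1
    · rw [norm_mul]
      exact mul_le_mul_of_nonneg_right (hHb _) (norm_nonneg _)
  have hHi : ∀ (m : ℕ) (H : ℂ → ℂ), Measurable H → (∀ z, ‖H z‖ ≤ C) →
      Integrable (fun s => conj (v s) * (Hm w (1 / ((m:ℝ) + 1)) (φ s) * H (φ s) * u s)) μ := by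
    intro m H hH hHb
    have h1 : ∀ z, ‖Hm w (1 / ((m:ℝ) + 1)) z‖ ≤ (m:ℝ) + 1 := by
      intro z
      unfold Hm
      rw [norm_div, RCLike.norm_conj, Complex.norm_real, Real.norm_of_nonneg (by positivity)]
      have hp : 0 < max (‖z - w‖ ^ 2) ((1 / ((m:ℝ) + 1)) ^ 2) :=
        lt_max_of_lt_right (by positivity)
      rw [div_le_iff₀ hp]
      have hm : (0:ℝ) < (m:ℝ) + 1 := by positivity
      rcases le_or_gt (1 / ((m:ℝ) + 1)) ‖z - w‖ with h | h
      · have h2 : ‖z - w‖ ≤ ((m:ℝ) + 1) * ‖z - w‖ ^ 2 := by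
          rw [div_le_iff₀ hm] at h
          have := norm_nonneg (z - w)
          nlinarith
        refine h2.trans (mul_le_mul_of_nonneg_left (le_max_left _ _) hm.le)
      · have h2 : ‖z - w‖ ≤ ((m:ℝ) + 1) * (1 / ((m:ℝ) + 1)) ^ 2 := by
          have : ((m:ℝ) + 1) * (1 / ((m:ℝ) + 1)) ^ 2 = 1 / ((m:ℝ) + 1) := by
            field_simp
          rw [this]
          exact h.le
        refine h2.trans (mul_le_mul_of_nonneg_left (le_max_right _ _) hm.le)
    have h2 : ∀ s, conj (v s) * (Hm w (1 / ((m:ℝ) + 1)) (φ s) * H (φ s) * u s) =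
        (Hm w (1 / ((m:ℝ) + 1)) (φ s) * H (φ s)) * (conj (v s) * u s) := fun s => by ring
    simp_rw [h2]
    refine hvu.bdd_mul (c := ((m:ℝ) + 1) * C) ?_ (Eventually.of_forall fun s => ?_)
    · exact (((Hm_cont w (hdm m)).measurable.comp hφ).mul (hH.comp hφ)).aestronglyMeasurable
    · rw [norm_mul]
      exact mul_le_mul (h1 _) (hHb _) (norm_nonneg _) (by positivity)
  have hbd : ∀ (m : ℕ) (H : ℂ → ℂ), Measurable H → (∀ z, ‖H z‖ ≤ C) →
      ‖(∫ s, H (φ s) * k s ∂μ) -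
        ∫ s, conj (v s) * (Hm w (1 / ((m:ℝ) + 1)) (φ s) * H (φ s) * u s) ∂μ‖ ≤
        C * ∫ s in A m, ‖k s‖ ∂μ := by
    intro m H hH hHb
    rw [← integral_sub (hki H hH hHb) (hHi m H hH hHb), ← integral_const_mul,
      ← integral_indicator (hA m)]
    refine norm_integral_le_of_norm_le ?_ (ae_of_all _ fun s => ?_)
    · exact (integrable_indicator_iff (hA m)).2 (hk.norm.const_mul C).integrableOn
    · have e : H (φ s) * k s - conj (v s) * (Hm w (1 / ((m:ℝ) + 1)) (φ s) * H (φ s) * u s) =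
          H (φ s) * (conj (v s) * u s) * ((φ s - w)⁻¹ - Hm w (1 / ((m:ℝ) + 1)) (φ s)) := by
        simp only [k]
        ring
      rw [e]
      by_cases hs : s ∈ A m
      · rw [indicator_of_mem hs, norm_mul, norm_mul]
        have h3 : ‖k s‖ = ‖conj (v s) * u s‖ * ‖(φ s - w)⁻¹‖ := by
          simp only [k]
          rw [norm_mul]
        rw [h3, mul_assoc]
        exact mul_le_mul (hHb _) (mul_le_mul_of_nonneg_left (Hm_diff (hdm m)) (norm_nonneg _))
          (by positivity) hC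
      · rw [indicator_of_notMem hs]
        have h3 : 1 / ((m:ℝ) + 1) ≤ ‖φ s - w‖ := not_lt.mp hs
        rw [Hm_far (hdm m) h3, sub_self, mul_zero, norm_zero]
  rw [Metric.tendsto_atTop]
  intro ε hε
  have h1 : Tendsto (fun m => 2 * C * ∫ s in A m, ‖k s‖ ∂μ) atTop (𝓝 0) := by
    have := he.const_mul (2 * C)
    rwa [mul_zero] at this
  obtain ⟨m, hm⟩ := ((tendsto_order.1 h1).2 (ε / 2) (by linarith)).exists
  have h2 := hx (Hm w (1 / ((m:ℝ) + 1))) (Hm_cont w (hdm m))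
  rw [Metric.tendsto_atTop] at h2
  obtain ⟨N, hN⟩ := h2 (ε / 2) (by linarith)
  refine ⟨N, fun n hn => ?_⟩
  have h3 := hN n hn
  rw [dist_eq_norm] at h3
  rw [dist_eq_norm]
  have h6 := hbd m _ (hF n) (hFb n)
  have h7 := hbd m _ hF' hFb'
  change ‖∫ s, F n (φ s) * k s ∂μ - ∫ s, F' (φ s) * k s ∂μ‖ < ε
  set P := ∫ s, F n (φ s) * k s ∂μ
  set P' := ∫ s, F' (φ s) * k s ∂μ
  set Q := ∫ s, conj (v s) * (Hm w (1 / ((m:ℝ) + 1)) (φ s) * F n (φ s) * u s) ∂μ
  set Q' := ∫ s, conj (v s) * (Hm w (1 / ((m:ℝ) + 1)) (φ s) * F' (φ s) * u s) ∂μ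
  calc ‖P - P'‖ = ‖(P - Q) - (P' - Q') + (Q - Q')‖ := by congr 1; ring
    _ ≤ ‖P - Q‖ + ‖P' - Q'‖ + ‖Q - Q'‖ :=
        (norm_add_le _ _).trans (add_le_add_left (norm_sub_le _ _) _)
    _ < ε := by
        have h8 : 2 * C * ∫ s in A m, ‖k s‖ ∂μ = C * (∫ s in A m, ‖k s‖ ∂μ) +
          C * (∫ s in A m, ‖k s‖ ∂μ) := by ring
        linarith

/-- convergence almost everywhere -/
theorem ptw1 {S : Type} [MeasurableSpace S] (μ : Measure S) [SigmaFinite μ] {φ : S → ℂ}
    (hφ : Measurable φ) (u v : Lp ℂ 2 μ) (a : ℂ) (ρ C : ℝ) (q : ℕ → ℂ → ℂ) (G : ℂ → ℂ) (hρ : 0 < ρ)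
    (hq1 : ∀ n, ContDiff ℝ 1 (q n)) (hqC : ∀ n, ∀ z ∈ ball a ρ, ‖q n z‖ ≤ C)
    (hG : DifferentiableOn ℂ G (ball a ρ)) (hGC : ∀ z ∈ ball a ρ, ‖G z‖ ≤ C)
    (hweak : ∀ h : ℂ → ℂ, IntegrableOn h (ball a ρ) →
      Tendsto (fun n => ∫ z in ball a ρ, q n z * h z) atTop (𝓝 (∫ z in ball a ρ, G z * h z)))
    (hdb : Tendsto (fun n => ∫⁻ z in ball a ρ, ‖ff φ u v z * db (q n) z‖ₑ) atTop (𝓝 0))
    (ψ : ℂ → ℂ) (hψ : ContDiff ℝ ∞ ψ) (hsupp : tsupport ψ ⊆ ball a ρ)
    (hx : ∀ H : ℂ → ℂ, Continuous H → Tendsto (fun n => ∫ s, conj (v s) *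
      (H (φ s) * (ψ (φ s) * q n (φ s)) * u s) ∂μ) atTop
        (𝓝 (∫ s, conj (v s) * (H (φ s) * (ψ (φ s) * G (φ s)) * u s) ∂μ))) :
    ∃ s : ℕ → ℕ, StrictMono s ∧ ∀ᵐ w : ℂ, Tendsto (fun n => ψ w * q (s n) w * ff φ u v w) atTop
      (𝓝 (ψ w * G w * ff φ u v w)) := by
  obtain ⟨-, hprod, hhol, -, hcontdb, -, hdbsupp⟩ := hPOM
  obtain ⟨K, hK, hker⟩ := ker_bound hHT ρ hρ
  have hfm : Measurable (ff φ u v) := measurable_const.sub (hCTG S μ φ hφ v u).1
  have hψc : HasCompactSupport ψ := (isCompact_closedBall a ρ).of_isClosed_subset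
    (isClosed_tsupport ψ) (hsupp.trans ball_subset_closedBall)
  have hψ1 : ContDiff ℝ 1 ψ := hψ.of_le (by exact_mod_cast le_top)
  have hψ0 : ∀ z, z ∉ ball a ρ → ψ z = 0 := fun z hz =>
    image_eq_zero_of_notMem_tsupport (fun h => hz (hsupp h))
  have hdψ0 : ∀ z, z ∉ ball a ρ → db ψ z = 0 := fun z hz =>
    hdbsupp ψ z (fun h => hz (hsupp h))
  have hC : 0 ≤ C := (norm_nonneg _).trans (hqC 0 a (mem_ball_self hρ))
  obtain ⟨M, hM⟩ : ∃ M, ∀ z, ‖ψ z‖ ≤ M := hψc.exists_bound_of_continuous hψ.continuous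
  have hM0 : 0 ≤ M := (norm_nonneg _).trans (hM a)
  have hχn : ∀ n, ContDiff ℝ 1 (fun z => ψ z * q n z) := fun n => hψ1.mul (hq1 n)
  have hχnc : ∀ n, HasCompactSupport (fun z => ψ z * q n z) := fun n => hψc.mul_right
  have hGat : ∀ z ∈ ball a ρ, ContDiffAt ℝ 1 G z := fun z hz =>
    ((hG.analyticAt (isOpen_ball.mem_nhds hz)).contDiffAt (n := 1)).restrict_scalars ℝ
  have hχ : ContDiff ℝ 1 (fun z => ψ z * G z) := by
    rw [contDiff_iff_contDiffAt]
    intro z
    by_cases hz : z ∈ ball a ρ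
    · exact hψ1.contDiffAt.mul (hGat z hz)
    · have h1 : (fun z => ψ z * G z) =ᶠ[𝓝 z] fun _ => 0 := by
        have h2 : z ∉ tsupport ψ := fun h => hz (hsupp h)
        filter_upwards [notMem_tsupport_iff_eventuallyEq.mp h2] with t ht
        rw [ht]
        simp
      exact contDiffAt_const.congr_of_eventuallyEq h1
  have hχc : HasCompactSupport (fun z => ψ z * G z) := hψc.mul_right
  have hdn : ∀ n z, db (fun z => ψ z * q n z) z = db ψ z * q n z + ψ z * db (q n) z :=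
    fun n z => hprod ψ (q n) z (hψ1.differentiable one_ne_zero z)
      ((hq1 n).differentiable one_ne_zero z)
  have hd : ∀ z, db (fun z => ψ z * G z) z = db ψ z * G z := by
    intro z
    by_cases hz : z ∈ ball a ρ
    · rw [hprod ψ G z (hψ1.differentiable one_ne_zero z)
        ((hGat z hz).differentiableAt one_ne_zero),
        hhol G z (hG.differentiableAt (isOpen_ball.mem_nhds hz)), mul_zero, add_zero]
    · rw [hdψ0 z hz, zero_mul]
      apply hdbsupp
      intro h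
      exact hz (hsupp (tsupport_mul_subset_left h))
  -- the identity of Cauchy and Pompeiu
  have hFn : ∀ᵐ w : ℂ, ∀ n : ℕ, _ := ae_all_iff.2 fun n =>
    hFID S μ φ hφ u v _ (hχn n) (hχnc n)
  have hFG := hFID S μ φ hφ u v _ hχ hχc
  have hFψ := hFID S μ φ hφ u v ψ hψ1 hψc
  -- the part (a)
  let g : ℕ → ℂ → ℂ := fun n z => ff φ u v z * (ψ z * db (q n) z)
  have hgm : ∀ n, Measurable (g n) := fun n =>
    hfm.mul (hψ.continuous.measurable.mul (hcontdb _ (hq1 n)).measurable)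
  let al : ℕ → ℂ → ℝ≥0∞ := fun n w => ∫⁻ z, ‖g n z‖ₑ * ‖(z - w)⁻¹‖ₑ
  have hm2 : ∀ n, Measurable (Function.uncurry fun w z : ℂ => ‖g n z‖ₑ * ‖(z - w)⁻¹‖ₑ) := by
    intro n
    have e1 : Measurable fun p : ℂ × ℂ => ‖g n p.2‖ₑ := ((hgm n).comp measurable_snd).enorm
    have e2 : Measurable fun p : ℂ × ℂ => ‖(p.2 - p.1)⁻¹‖ₑ :=
      (by fun_prop : Measurable fun p : ℂ × ℂ => (p.2 - p.1)⁻¹).enorm
    exact e1.mul e2
  have halm : ∀ n, Measurable (al n) := fun n => (hm2 n).lintegral_prod_right'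
  have hal : Tendsto (fun n => ∫⁻ w in ball a ρ, al n w) atTop (𝓝 0) := by
    have h1 : ∀ n, ∫⁻ w in ball a ρ, al n w ≤ ENNReal.ofReal K * (ENNReal.ofReal M *
        ∫⁻ z in ball a ρ, ‖ff φ u v z * db (q n) z‖ₑ) := by
      intro n
      simp only [al]
      rw [lintegral_lintegral_swap (hm2 n).aemeasurable]
      have h2 : ∀ z, ∫⁻ w in ball a ρ, ‖g n z‖ₑ * ‖(z - w)⁻¹‖ₑ ≤
          ENNReal.ofReal K * ‖g n z‖ₑ := by
        intro z
        rw [lintegral_const_mul' _ _ enorm_ne_top, mul_comm]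
        refine mul_le_mul_left ?_ _
        refine le_trans (le_of_eq ?_) (hker a z)
        refine lintegral_congr fun w => ?_
        rw [← enorm_neg, ← inv_neg, neg_sub]
      refine (lintegral_mono h2).trans ?_
      rw [lintegral_const_mul' _ _ ENNReal.ofReal_ne_top]
      refine mul_le_mul_right ?_ _
      have h3 : ∫⁻ z, ‖g n z‖ₑ = ∫⁻ z in ball a ρ, ‖g n z‖ₑ := by
        rw [← lintegral_indicator measurableSet_ball]
        refine lintegral_congr fun z => ?_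
        by_cases hz : z ∈ ball a ρ
        · rw [indicator_of_mem hz]
        · rw [indicator_of_notMem hz]
          simp only [g]
          rw [hψ0 z hz]
          simp
      rw [h3, ← lintegral_const_mul' _ _ ENNReal.ofReal_ne_top]
      refine lintegral_mono fun z => ?_
      simp only [g]
      have h4 : ff φ u v z * (ψ z * db (q n) z) = ψ z * (ff φ u v z * db (q n) z) := by ring
      rw [h4, enorm_mul]
      refine mul_le_mul_left ?_ _
      rw [← ofReal_norm]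
      exact ENNReal.ofReal_le_ofReal (hM z)
    have h2 : Tendsto (fun n => ENNReal.ofReal K * (ENNReal.ofReal M *
        ∫⁻ z in ball a ρ, ‖ff φ u v z * db (q n) z‖ₑ)) atTop (𝓝 0) := by
      have h3 := ENNReal.Tendsto.const_mul (a := ENNReal.ofReal K)
        (ENNReal.Tendsto.const_mul (a := ENNReal.ofReal M) hdb
          (Or.inr ENNReal.ofReal_ne_top)) (Or.inr ENNReal.ofReal_ne_top)
      rwa [mul_zero, mul_zero] at h3
    exact tendsto_of_tendsto_of_tendsto_of_le_of_le tendsto_const_nhds h2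
      (fun _ => zero_le) h1
  obtain ⟨σ, hσ, hσ'⟩ := exists_seq al halm (ball a ρ) hal
  refine ⟨σ, hσ, ?_⟩
  rw [ae_restrict_iff' measurableSet_ball] at hσ'
  filter_upwards [hFn, hFG, hFψ, hσ'] with w h1 h2 h3 h4
  by_cases hw : w ∈ ball a ρ
  swap
  · rw [hψ0 w hw]
    simp
  have h4' := h4 hw
  -- the three limits
  have hA : Tendsto (fun n => ∫ z, g (σ n) z * (z - w)⁻¹) atTop (𝓝 0) := by
    rw [tendsto_zero_iff_norm_tendsto_zero]
    have h5 : Tendsto (fun n => ‖∫ z, g (σ n) z * (z - w)⁻¹‖ₑ) atTop (𝓝 0) :=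
      tendsto_of_tendsto_of_tendsto_of_le_of_le tendsto_const_nhds h4' (fun _ => zero_le)
        (fun n => (enorm_integral_le_lintegral_enorm _).trans
          (le_of_eq (lintegral_congr fun z => enorm_mul _ _)))
    have h6 := (ENNReal.tendsto_toReal ENNReal.zero_ne_top).comp h5
    rw [ENNReal.toReal_zero] at h6
    refine h6.congr fun n => ?_
    simp only [Function.comp_apply, toReal_enorm]
  have hB : Tendsto (fun n => ∫ z, ff φ u v z * (db ψ z * q n z) * (z - w)⁻¹) atTop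
      (𝓝 (∫ z, ff φ u v z * (db ψ z * G z) * (z - w)⁻¹)) := by
    have h5 := hweak (fun z => ff φ u v z * db ψ z * (z - w)⁻¹) h3.1.integrableOn
    have h6 : ∀ H : ℂ → ℂ, ∫ z in ball a ρ, H z * (ff φ u v z * db ψ z * (z - w)⁻¹) =
        ∫ z, ff φ u v z * (db ψ z * H z) * (z - w)⁻¹ := by
      intro H
      rw [setIntegral_eq_integral_of_forall_compl_eq_zero]
      · refine integral_congr_ae (ae_of_all _ fun z => ?_)
        simp only
        ring
      · intro z hz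
        rw [hdψ0 z hz]
        simp
    simp only [h6] at h5
    exact h5
  have hD : Tendsto (fun n => ∫ s, ψ (φ s) * q n (φ s) *
      (conj (v s) * u s * (φ s - w)⁻¹) ∂μ) atTop
      (𝓝 (∫ s, ψ (φ s) * G (φ s) * (conj (v s) * u s * (φ s - w)⁻¹) ∂μ)) := by
    refine part_c φ hφ u v w (fun n z => ψ z * q n z) (fun z => ψ z * G z) (M * C)
      (fun n => (hχn n).continuous.measurable) hχ.continuous.measurable ?_ ?_ ?_ h3.2.1
    · intro n z
      by_cases hz : z ∈ ball a ρ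
      · rw [norm_mul]
        exact mul_le_mul (hM z) (hqC n z hz) (norm_nonneg _) hM0
      · rw [hψ0 z hz, zero_mul, norm_zero]
        positivity
    · intro z
      by_cases hz : z ∈ ball a ρ
      · rw [norm_mul]
        exact mul_le_mul (hM z) (hGC z hz) (norm_nonneg _) hM0
      · rw [hψ0 z hz, zero_mul, norm_zero]
        positivity
    · exact hx
  -- the identities at the point
  have hEn : ∀ n, ψ w * q n w * ff φ u v w = -(1 / Real.pi : ℂ) *
      ((∫ z, ff φ u v z * (db ψ z * q n z) * (z - w)⁻¹) + ∫ z, g n z * (z - w)⁻¹) +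
      ∫ s, ψ (φ s) * q n (φ s) * (conj (v s) * u s * (φ s - w)⁻¹) ∂μ := by
    intro n
    rw [(h1 n).2.2]
    congr 2
    have hi1 : Integrable (fun z => ff φ u v z * (db ψ z * q n z) * (z - w)⁻¹) := by
      refine Integrable.mono' (h3.1.norm.const_mul C) ?_ (ae_of_all _ fun z => ?_)
      · refine Measurable.aestronglyMeasurable ?_
        refine (hfm.mul ((hcontdb ψ hψ1).measurable.mul (hq1 n).continuous.measurable)).mul ?_
        fun_prop
      · by_cases hz : z ∈ ball a ρ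
        · have h5 : ff φ u v z * (db ψ z * q n z) * (z - w)⁻¹ =
              q n z * (ff φ u v z * db ψ z * (z - w)⁻¹) := by ring
          rw [h5, norm_mul]
          exact mul_le_mul_of_nonneg_right (hqC n z hz) (norm_nonneg _)
        · rw [hdψ0 z hz]
          simp
    have hi2 : Integrable (fun z => g n z * (z - w)⁻¹) := by
      refine ((h1 n).1.sub hi1).congr (ae_of_all _ fun z => ?_)
      simp only [Pi.sub_apply, g]
      rw [hdn n z]
      ring
    rw [← integral_add hi1 hi2]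
    refine integral_congr_ae (ae_of_all _ fun z => ?_)
    simp only [g]
    rw [hdn n z]
    ring
  have hE : ψ w * G w * ff φ u v w = -(1 / Real.pi : ℂ) *
      ((∫ z, ff φ u v z * (db ψ z * G z) * (z - w)⁻¹) + 0) +
      ∫ s, ψ (φ s) * G (φ s) * (conj (v s) * u s * (φ s - w)⁻¹) ∂μ := by
    rw [h2.2.2, add_zero]
    congr 2
    refine integral_congr_ae (ae_of_all _ fun z => ?_)
    simp only
    rw [hd z]
  rw [hE]
  simp_rw [hEn]
  exact (((hB.comp hσ.tendsto_atTop).add hA).const_mul _).add (hD.comp hσ.tendsto_atTop)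

end Pool.Agent.Q98.RB
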