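import Pool.Agent.Q98.RB.Lim

/-!
# Test functionals
-/

set_option autoImplicit false

namespace Pool.Agent.Q98.RB

open MeasureTheory Set Metric Filter Topology
open scoped ENNReal NNReal ComplexConjugate ContDiff
open Pool.Agent.Y283.NK (ct)
open Pool.Agent.Y271.RO (db ht Bd)
open Pool.Agent.Y528.RO (exists_pt re_pos)

/-- cut-off functions -/
noncomputable def eta (l : ℂ) (t : ℝ) (m : ℕ) (z : ℂ) : ℝ := min 1 (m * max 0 (t - ‖z - l‖))

theorem eta_cont (l : ℂ) (t : ℝ) (m : ℕ) : Continuous (eta l t m) := by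
  unfold eta
  fun_prop

theorem eta_nonneg (l : ℂ) (t : ℝ) (m : ℕ) (z : ℂ) : 0 ≤ eta l t m z := by
  unfold eta
  positivity

theorem eta_le (l : ℂ) (t : ℝ) (m : ℕ) (z : ℂ) : eta l t m z ≤ 1 := min_le_left _ _

theorem eta_off {l : ℂ} {t : ℝ} (m : ℕ) {z : ℂ} (hz : z ∉ ball l t) : eta l t m z = 0 := by
  rw [mem_ball, dist_eq_norm, not_lt] at hz
  unfold eta
  rw [max_eq_left (by linarith)]
  simp

theorem eta_lim {l : ℂ} {t : ℝ} {z : ℂ} (hz : z ∈ ball l t) :
    Tendsto (fun m => eta l t m z) atTop (𝓝 1) := by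
  rw [mem_ball, dist_eq_norm] at hz
  have h1 : 0 < t - ‖z - l‖ := by linarith
  obtain ⟨m₀, hm₀⟩ := exists_nat_gt (1 / (t - ‖z - l‖))
  refine tendsto_const_nhds.congr' ?_
  filter_upwards [eventually_ge_atTop m₀] with m hm
  unfold eta
  rw [max_eq_right h1.le, min_eq_left]
  have h2 : (m₀ : ℝ) ≤ m := by exact_mod_cast hm
  rw [div_lt_iff₀ h1] at hm₀
  nlinarith

/-- approximation in `L¹` by continuous functions vanishing off a disc -/
theorem approx (ν : Measure ℂ) [IsFiniteMeasure ν] (g : ℂ → ℂ) (hm : Measurable g)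
    (hb : ∀ z, ‖g z‖ ≤ 1) (l : ℂ) (t : ℝ) (h0 : ∀ z, z ∉ ball l t → g z = 0) (ε : ℝ)
    (hε : 0 < ε) : ∃ f : ℂ → ℂ, Continuous f ∧ (∀ z, z ∉ ball l t → f z = 0) ∧
      ∫ z, ‖f z - g z‖ ∂ν ≤ ε := by
  have hgi : Integrable g ν := Integrable.of_bound hm.aestronglyMeasurable 1
    (Eventually.of_forall hb)
  obtain ⟨k, -, hk, hkc, hki⟩ := hgi.exists_hasCompactSupport_integral_sub_le
    (ε := ε / 2) (by positivity)
  have hlim : Tendsto (fun m : ℕ => ∫ z, ‖(eta l t m z : ℂ) * g z - g z‖ ∂ν) atTop (𝓝 0) := by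
    have h1 : Tendsto (fun m : ℕ => ∫ z, ‖(eta l t m z : ℂ) * g z - g z‖ ∂ν) atTop
        (𝓝 (∫ _, (0:ℝ) ∂ν)) := by
      refine tendsto_integral_of_dominated_convergence (fun _ => 2) (fun m => ?_)
        (integrable_const _) (fun m => Eventually.of_forall fun z => ?_)
        (Eventually.of_forall fun z => ?_)
      · refine Measurable.aestronglyMeasurable ?_
        have := (eta_cont l t m).measurable
        fun_prop
      · rw [norm_norm]
        refine (norm_sub_le _ _).trans ?_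
        rw [norm_mul, Complex.norm_real, Real.norm_of_nonneg (eta_nonneg _ _ _ _)]
        have := eta_le l t m z
        have := eta_nonneg l t m z
        have := hb z
        have := norm_nonneg (g z)
        nlinarith
      · by_cases hz : z ∈ ball l t
        · have h2 : Tendsto (fun m => (eta l t m z : ℂ) * g z - g z) atTop
              (𝓝 (((1:ℝ) : ℂ) * g z - g z)) :=
            (((Complex.continuous_ofReal.tendsto 1).comp (eta_lim hz)).mul_const _).sub_const _
          have h3 := h2.norm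
          simpa using h3
        · simp [h0 z hz]
    rwa [integral_zero] at h1
  obtain ⟨m, hm'⟩ := ((tendsto_order.1 hlim).2 (ε / 2) (by positivity)).exists
  refine ⟨fun z => (eta l t m z : ℂ) * k z, ?_, ?_, ?_⟩
  · exact (Complex.continuous_ofReal.comp (eta_cont l t m)).mul hkc
  · intro z hz
    show (eta l t m z : ℂ) * k z = 0
    rw [eta_off m hz]
    simp
  · have e1 : Integrable (fun z => g z - k z) ν := hgi.sub hki
    have e2 : Integrable (fun z => (eta l t m z : ℂ) * g z - g z) ν := by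
      refine (hgi.bdd_mul (c := 1) ?_ ?_).sub hgi
      · exact (Complex.continuous_ofReal.comp (eta_cont l t m)).aestronglyMeasurable
      · refine Eventually.of_forall fun z => ?_
        rw [Complex.norm_real, Real.norm_of_nonneg (eta_nonneg _ _ _ _)]
        exact eta_le _ _ _ _
    calc ∫ z, ‖(eta l t m z : ℂ) * k z - g z‖ ∂ν
        ≤ ∫ z, (‖g z - k z‖ + ‖(eta l t m z : ℂ) * g z - g z‖) ∂ν := by
          refine integral_mono_of_nonneg (Eventually.of_forall fun _ => norm_nonneg _)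
            (e1.norm.add e2.norm) (Eventually.of_forall fun z => ?_)
          have h4 : (eta l t m z : ℂ) * k z - g z =
              -((eta l t m z : ℂ) * (g z - k z)) + ((eta l t m z : ℂ) * g z - g z) := by ring
          simp only
          rw [h4]
          refine (norm_add_le _ _).trans ?_
          rw [norm_neg, norm_mul, Complex.norm_real, Real.norm_of_nonneg (eta_nonneg _ _ _ _)]
          have := eta_le l t m z
          have := norm_nonneg (g z - k z)
          nlinarith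
      _ = (∫ z, ‖g z - k z‖ ∂ν) + ∫ z, ‖(eta l t m z : ℂ) * g z - g z‖ ∂ν :=
          integral_add e1.norm e2.norm
      _ ≤ ε := by linarith

section cauchy

variable {S : Type} [MeasurableSpace S] {μ : Measure S} {φ : S → ℂ} {F : S → ℂ} {l : ℂ} {t : ℝ}

theorem far_bd {z w : ℂ} (hw : w ∈ ball l t) : ‖z - l‖ - t ≤ ‖z - w‖ := by
  rw [mem_ball, dist_eq_norm] at hw
  have : ‖z - l‖ ≤ ‖z - w‖ + ‖w - l‖ := by
    have e : z - l = (z - w) + (w - l) := by ring
    rw [e]
    exact norm_add_le _ _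
  linarith

theorem cau_int (hφ : Measurable φ) (hF : Integrable F μ) (h0 : ∀ s, φ s ∉ ball l t → F s = 0)
    {z : ℂ} {d : ℝ} (hd : 0 < d) (hz : d ≤ ‖z - l‖ - t) :
    Integrable (fun s => F s * (z - φ s)⁻¹) μ := by
  refine (hF.norm.mul_const d⁻¹).mono' (hF.aestronglyMeasurable.mul
    (measurable_const.sub hφ).inv.aestronglyMeasurable) (Eventually.of_forall fun s => ?_)
  rw [norm_mul, norm_inv]
  by_cases hs : φ s ∈ ball l t
  · exact mul_le_mul_of_nonneg_left (inv_anti₀ hd (hz.trans (far_bd hs))) (norm_nonneg _)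
  · rw [h0 s hs]
    simp

theorem cau_diff (hφ : Measurable φ) (hF : Integrable F μ)
    (h0 : ∀ s, φ s ∉ ball l t → F s = 0) :
    DifferentiableOn ℂ (fun z => ∫ s, F s * (z - φ s)⁻¹ ∂μ) {z | t < ‖z - l‖} := by
  intro z₀ hz₀
  have hz₀' : t < ‖z₀ - l‖ := hz₀
  obtain ⟨d, hd⟩ : ∃ d : ℝ, d = (‖z₀ - l‖ - t) / 2 := ⟨_, rfl⟩
  have hd0 : 0 < d := by
    rw [hd]
    linarith
  have hk : ∀ z ∈ ball z₀ d, d ≤ ‖z - l‖ - t := by
    intro z hz
    rw [mem_ball, dist_eq_norm] at hz
    have : ‖z₀ - l‖ ≤ ‖z - z₀‖ + ‖z - l‖ := by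
      have e : z₀ - l = -(z - z₀) + (z - l) := by ring
      rw [e]
      refine (norm_add_le _ _).trans ?_
      rw [norm_neg]
    linarith
  have hmeas : ∀ z, AEStronglyMeasurable (fun s => F s * (z - φ s)⁻¹) μ := fun z =>
    hF.aestronglyMeasurable.mul (measurable_const.sub hφ).inv.aestronglyMeasurable
  have hmain := hasDerivAt_integral_of_dominated_loc_of_deriv_le (μ := μ)
    (F := fun (z : ℂ) (s : S) => F s * (z - φ s)⁻¹)
    (F' := fun (z : ℂ) (s : S) => F s * (-1 / (z - φ s) ^ 2))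
    (bound := fun s => ‖F s‖ * (1 / d ^ 2)) (x₀ := z₀) (s := ball z₀ d)
    (ball_mem_nhds z₀ hd0) (Eventually.of_forall hmeas)
    (cau_int hφ hF h0 hd0 (hk z₀ (mem_ball_self hd0)))
    (hF.aestronglyMeasurable.mul
      (measurable_const.div ((measurable_const.sub hφ).pow_const 2)).aestronglyMeasurable)
    (Eventually.of_forall fun s z hz => by
      rw [norm_mul, norm_div, norm_neg, norm_one, norm_pow]
      by_cases hs : φ s ∈ ball l t
      · refine mul_le_mul_of_nonneg_left ?_ (norm_nonneg _)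
        exact one_div_le_one_div_of_le (by positivity)
          (pow_le_pow_left₀ hd0.le ((hk z hz).trans (far_bd hs)) 2)
      · rw [h0 s hs, norm_zero, zero_mul, zero_mul])
    (hF.norm.mul_const _)
    (Eventually.of_forall fun s z hz => by
      by_cases hs : φ s ∈ ball l t
      · have hne : z - φ s ≠ 0 := by
          intro h
          have := (hk z hz).trans (far_bd hs)
          rw [h, norm_zero] at this
          linarith
        exact (((hasDerivAt_id z).sub_const (φ s)).inv hne).const_mul _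
      · rw [h0 s hs]
        simpa using hasDerivAt_const z (0 : ℂ))
  exact hmain.2.differentiableAt.differentiableWithinAt

theorem re_lower {z w : ℂ} (ht : 0 < t) (hz : 2 * t ≤ ‖z - l‖) (hw : w ∈ ball l t) :
    1 / 5 ≤ ((z - l) * (z - w)⁻¹).re ∧ ‖(z - l) * (z - w)⁻¹‖ ≤ 2 := by
  have h1 := far_bd (z := z) hw
  rw [mem_ball, dist_eq_norm] at hw
  have hzl : 0 < ‖z - l‖ := by linarith
  have hzw : 0 < ‖z - w‖ := by linarith
  constructor
  · have hne : z - l ≠ 0 := norm_pos_iff.1 hzl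
    have hne' : z - w ≠ 0 := norm_pos_iff.1 hzw
    set q : ℂ := (w - l) / (z - l) with hq
    have hq1 : ‖q‖ ≤ 1 / 2 := by
      rw [hq, norm_div, div_le_iff₀ hzl]
      linarith
    have e : (z - l) * (z - w)⁻¹ = (1 - q)⁻¹ := by
      have e0 : 1 - q = (z - w) / (z - l) := by
        rw [hq]
        field_simp
        ring
      rw [e0, inv_div, div_eq_mul_inv]
    rw [e, Complex.inv_re, Complex.normSq_eq_norm_sq]
    have h2 : 1 / 2 ≤ (1 - q).re := by
      rw [Complex.sub_re, Complex.one_re]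
      have := (abs_le.1 ((Complex.abs_re_le_norm q).trans hq1)).2
      linarith
    have h3 : ‖1 - q‖ ≤ 3 / 2 := by
      refine (norm_sub_le _ _).trans ?_
      rw [norm_one]
      linarith
    have h4 : 0 < ‖1 - q‖ := by
      rw [norm_pos_iff]
      intro h
      rw [h, Complex.zero_re] at h2
      linarith
    rw [le_div_iff₀ (by positivity)]
    nlinarith
  · rw [norm_mul, norm_inv, ← div_eq_mul_inv, div_le_iff₀ hzw]
    linarith

theorem cau_ne (hφ : Measurable φ) (hF : Integrable F μ) (h0 : ∀ s, φ s ∉ ball l t → F s = 0)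
    (ht : 0 < t) {G : S → ℝ} (hG : Integrable G μ) (hG0 : ∀ s, 0 ≤ G s)
    (hG1 : ∀ s, φ s ∉ ball l t → G s = 0) (hpos : 0 < ∫ s, G s ∂μ)
    (hd : ∫ s, ‖F s - (G s : ℂ)‖ ∂μ ≤ (∫ s, G s ∂μ) / 20) {z : ℂ} (hz : 2 * t ≤ ‖z - l‖) :
    ∫ s, F s * (z - φ s)⁻¹ ∂μ ≠ 0 := by
  intro hzero
  have hi := cau_int (z := z) hφ hF h0 ht (by linarith)
  have hi2 := hi.const_mul (z - l)
  have h1 : ∫ s, ((z - l) * (F s * (z - φ s)⁻¹)).re ∂μ = 0 := by
    have h2 := Complex.reCLM.integral_comp_comm hi2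
    simp only [Complex.reCLM_apply] at h2
    rw [h2, integral_const_mul, hzero, mul_zero, Complex.zero_re]
  have hFG : Integrable (fun s => ‖F s - (G s : ℂ)‖) μ := (hF.sub hG.ofReal).norm
  have h3 : ∀ s, 1 / 5 * G s - 2 * ‖F s - (G s : ℂ)‖ ≤ ((z - l) * (F s * (z - φ s)⁻¹)).re := by
    intro s
    by_cases hs : φ s ∈ ball l t
    · obtain ⟨h4, h5⟩ := re_lower (z := z) ht hz hs
      have e : (z - l) * (F s * (z - φ s)⁻¹) = (G s : ℂ) * ((z - l) * (z - φ s)⁻¹) +
          (F s - G s) * ((z - l) * (z - φ s)⁻¹) := by ring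
      rw [e, Complex.add_re, Complex.re_ofReal_mul]
      have h6 : |((F s - G s) * ((z - l) * (z - φ s)⁻¹)).re| ≤ 2 * ‖F s - (G s : ℂ)‖ := by
        refine (Complex.abs_re_le_norm _).trans ?_
        rw [norm_mul, mul_comm]
        exact mul_le_mul_of_nonneg_right h5 (norm_nonneg _)
      have h7 := (abs_le.1 h6).1
      have h8 := mul_le_mul_of_nonneg_left h4 (hG0 s)
      linarith
    · rw [h0 s hs, hG1 s hs]
      simp
  have h4 : ∫ s, (1 / 5 * G s - 2 * ‖F s - (G s : ℂ)‖) ∂μ ≤ 0 := by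
    rw [← h1]
    exact integral_mono ((hG.const_mul _).sub (hFG.const_mul _)) hi2.re h3
  rw [integral_sub (hG.const_mul _) (hFG.const_mul _), integral_const_mul, integral_const_mul] at h4
  linarith

end cauchy

section rep

variable {X : Type} [NormedAddCommGroup X] [NormedSpace ℂ X]
variable {N : X →L[ℂ] X} {R : ℝ} {Ψ : C(DD R, ℂ) →ₐ[ℂ] (X →L[ℂ] X)}

theorem exists_bd {f : ℂ → ℂ} (hf : Continuous f) (R : ℝ) :
    ∃ M : ℝ, 0 ≤ M ∧ ∀ z, ‖z‖ ≤ R → ‖f z‖ ≤ M := by
  obtain ⟨M, hM⟩ := (isCompact_closedBall (0:ℂ) R).exists_bound_of_continuousOn hf.continuousOn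
  refine ⟨|M|, abs_nonneg _, fun z hz => (hM z ?_).trans (le_abs_self M)⟩
  rwa [mem_closedBall_zero_iff]

theorem mv_ae' {μ : Measure (DD R)} {f : ℂ → ℂ} (hf : Continuous f) (x : Lp ℂ 2 μ) :
    ⇑(Pool.Agent.Y271.RO.mv (ι R) x f) =ᵐ[μ] fun s => f (ι R s) * x s := by
  obtain ⟨M, -, hM⟩ := exists_bd hf R
  exact Pool.Agent.Y510.RO.MV.mv_ae (ι_meas R) x f M hf.measurable (fun s => hM _ (ι_bd R s))

theorem Rep.mul_left {w : X →L[ℂ] ℂ} {x : X} {μ : Measure (DD R)} {w' x' : Lp ℂ 2 μ}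
    (h : Rep Ψ w x μ w' x') {f : ℂ → ℂ} (hf : Continuous f) :
    Rep Ψ (w.comp (op Ψ f)) x μ (Pool.Agent.Y271.RO.mv (ι R) w' (fun z => conj (f z))) x' := by
  intro k hk
  have h1 := h (fun z => f z * k z) (hf.mul hk)
  rw [op_mul_apply hf hk] at h1
  refine h1.trans ?_
  refine integral_congr_ae ?_
  filter_upwards [mv_ae' (Complex.continuous_conj.comp hf) w'] with s hs
  have hs' : (Pool.Agent.Y271.RO.mv (ι R) w' (fun z => conj (f z))) s =
      conj (f (ι R s)) * w' s := hs
  rw [hs', map_mul, Complex.conj_conj]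
  ring

theorem Rep.mul_right {w : X →L[ℂ] ℂ} {x : X} {μ : Measure (DD R)} {w' x' : Lp ℂ 2 μ}
    (h : Rep Ψ w x μ w' x') {f : ℂ → ℂ} (hf : Continuous f) :
    Rep Ψ w (op Ψ f x) μ w' (Pool.Agent.Y271.RO.mv (ι R) x' f) := by
  intro k hk
  have h1 := h (fun z => k z * f z) (hk.mul hf)
  rw [op_mul_apply hk hf] at h1
  refine h1.trans ?_
  refine integral_congr_ae ?_
  filter_upwards [mv_ae' hf x'] with s hs
  rw [hs]
  ring

/-- test functionals -/
theorem test (hΨ : Cal N R Ψ) (u : X) (hu : u ≠ 0) : ∃ l : ℂ, ∀ t : ℝ, 0 < t →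
    ∃ (w : X →L[ℂ] ℂ) (μ : Measure (DD R)) (_ : IsFiniteMeasure μ) (w' x' : Lp ℂ 2 μ),
      Rep Ψ w u μ w' x' ∧ (∀ᵐ s ∂μ, ι R s ∉ ball l t → w' s = 0) ∧
      (∀ z, 2 * t ≤ ‖z - l‖ → ct (ι R) w' x' z ≠ 0) ∧
      DifferentiableOn ℂ (ct (ι R) w' x') {z | t < ‖z - l‖} := by
  classical
  obtain ⟨w₀, hw₀⟩ := SeparatingDual.exists_ne_zero (R := ℂ) hu
  obtain ⟨μ, hμ, a, b, hrep, -⟩ := exists_rep hΨ w₀ u
  set d : DD R → ℂ := fun s => conj (a s) * b s with hd
  have hdm : Measurable d := (Complex.continuous_conj.measurable.comp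
    (Lp.stronglyMeasurable a).measurable).mul (Lp.stronglyMeasurable b).measurable
  have hdi : Integrable d μ := by
    refine (L2.integrable_inner (𝕜 := ℂ) a b).congr (Eventually.of_forall fun s => ?_)
    show inner ℂ (a s) (b s) = conj (a s) * b s
    rw [RCLike.inner_apply, mul_comm]
  have hd0 : ¬ ∀ᵐ s ∂μ, d s = 0 := by
    intro h
    apply hw₀
    have h1 := hrep (fun _ => 1) continuous_const
    rw [op_const, one_smul] at h1
    have h2 : ∫ s, conj (a s) * (1 * b s) ∂μ = 0 := by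
      refine integral_eq_zero_of_ae ?_
      filter_upwards [h] with s hs
      rw [one_mul]
      exact hs
    rw [h2] at h1
    exact h1
  obtain ⟨l, hl⟩ := exists_pt μ (ι R) R (ι_bd R) d hd0
  refine ⟨l, fun t ht => ?_⟩
  set G : DD R → ℝ := fun s => if ι R s ∈ ball l t then ‖d s‖ else 0 with hG
  have hAm : MeasurableSet {s : DD R | ι R s ∈ ball l t} := (ι_meas R) measurableSet_ball
  have hG0 : ∀ s, 0 ≤ G s := fun s => by
    simp only [hG]
    split_ifs
    · exact norm_nonneg _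
    · exact le_rfl
  have hG1 : ∀ s, ι R s ∉ ball l t → G s = 0 := fun s hs => by
    simp only [hG]
    rw [if_neg hs]
  have hGi : Integrable G μ := by
    refine hdi.norm.mono' (Measurable.ite hAm hdm.norm measurable_const).aestronglyMeasurable
      (Eventually.of_forall fun s => ?_)
    rw [Real.norm_of_nonneg (hG0 s)]
    simp only [hG]
    split_ifs
    · exact le_rfl
    · exact norm_nonneg _
  have hpos : 0 < ∫ s, G s ∂μ := by
    refine lt_of_le_of_ne (integral_nonneg hG0) fun h => hl t ht ?_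
    have h1 := (integral_eq_zero_iff_of_nonneg hG0 hGi).1 h.symm
    filter_upwards [h1] with s hs hsb
    have h2 : G s = 0 := hs
    simp only [hG] at h2
    rw [if_pos hsb] at h2
    exact norm_eq_zero.1 h2
  -- the phase
  set g₁ : DD R → ℂ := fun s => if ι R s ∈ ball l t then conj (d s) / (‖d s‖ : ℂ) else 0 with hg₁
  have hg₁m : Measurable g₁ := Measurable.ite hAm
    ((Complex.continuous_conj.measurable.comp hdm).div
      (Complex.measurable_ofReal.comp hdm.norm)) measurable_const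
  have hg₁d : ∀ s, g₁ s * d s = (G s : ℂ) := by
    intro s
    simp only [hg₁, hG]
    split_ifs
    · by_cases h : d s = 0
      · rw [h]; simp
      · have h4 : (‖d s‖ : ℂ) ≠ 0 := by exact_mod_cast (norm_ne_zero_iff.2 h)
        rw [div_mul_eq_mul_div, div_eq_iff h4, ← Complex.normSq_eq_conj_mul_self,
          Complex.normSq_eq_norm_sq]
        push_cast
        ring
    · simp
  have hg₁b : ∀ s, ‖g₁ s‖ ≤ 1 := by
    intro s
    simp only [hg₁]
    split_ifs
    · rw [norm_div, RCLike.norm_conj, Complex.norm_real, norm_norm]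
      exact div_self_le_one _
    · simp
  have hemb : MeasurableEmbedding (ι R) := MeasurableEmbedding.subtype_coe measurableSet_closedBall
  obtain ⟨g₂, hg₂m, hg₂⟩ := hemb.exists_measurable_extend hg₁m (fun _ => ⟨0⟩)
  have hg₂' : ∀ s, g₂ (ι R s) = g₁ s := fun s => congrFun hg₂ s
  set g : ℂ → ℂ := (closedBall (0:ℂ) R).indicator g₂ with hg
  have hgm : Measurable g := hg₂m.indicator measurableSet_closedBall
  have hgι : ∀ s, g (ι R s) = g₁ s := fun s => by
    rw [hg, indicator_of_mem s.2]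
    exact hg₂' s
  have hgb : ∀ z, ‖g z‖ ≤ 1 := by
    intro z
    by_cases hz : z ∈ closedBall (0:ℂ) R
    · have := hgι ⟨z, hz⟩
      rw [show g z = g₁ ⟨z, hz⟩ from this]
      exact hg₁b _
    · rw [hg, indicator_of_notMem hz, norm_zero]
      exact zero_le_one
  have hg0 : ∀ z, z ∉ ball l t → g z = 0 := by
    intro z hzl
    by_cases hz : z ∈ closedBall (0:ℂ) R
    · have := hgι ⟨z, hz⟩
      rw [show g z = g₁ ⟨z, hz⟩ from this]
      simp only [hg₁]
      rw [if_neg hzl]
    · rw [hg, indicator_of_notMem hz]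
  set ν : Measure ℂ := (μ.withDensity (fun s => ‖d s‖ₑ)).map (ι R) with hν
  have hfin : IsFiniteMeasure (μ.withDensity (fun s => ‖d s‖ₑ)) :=
    isFiniteMeasure_withDensity hdi.2.ne
  have hνf : IsFiniteMeasure ν := by rw [hν]; infer_instance
  obtain ⟨f, hfc, hf0, hfg⟩ := approx ν g hgm hgb l t hg0 ((∫ s, G s ∂μ) / 20) (by positivity)
  have hdist : ∫ s, ‖f (ι R s) * d s - (G s : ℂ)‖ ∂μ ≤ (∫ s, G s ∂μ) / 20 := by
    rw [hν, hemb.integral_map, integral_withDensity_eq_integral_toReal_smul hdm.enorm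
      (Eventually.of_forall fun s => enorm_lt_top)] at hfg
    refine le_trans (le_of_eq ?_) hfg
    refine integral_congr_ae (Eventually.of_forall fun s => ?_)
    simp only
    rw [← hg₁d s, ← sub_mul, norm_mul, hgι, toReal_enorm, smul_eq_mul, mul_comm]
  have hFi : Integrable (fun s => f (ι R s) * d s) μ := by
    obtain ⟨M, -, hM⟩ := exists_bd hfc R
    exact hdi.bdd_mul (c := M) (hfc.measurable.comp (ι_meas R)).aestronglyMeasurable
      (Eventually.of_forall fun s => hM _ (ι_bd R s))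
  have hF0 : ∀ s, ι R s ∉ ball l t → f (ι R s) * d s = 0 := fun s hs => by
    rw [hf0 _ hs, zero_mul]
  have hct : ct (ι R) (Pool.Agent.Y271.RO.mv (ι R) a (fun z => conj (f z))) b =
      fun z => ∫ s, (f (ι R s) * d s) * (z - ι R s)⁻¹ ∂μ := by
    funext z
    unfold ct
    refine integral_congr_ae ?_
    filter_upwards [mv_ae' (Complex.continuous_conj.comp hfc) a] with s hs
    have hs' : (Pool.Agent.Y271.RO.mv (ι R) a (fun z => conj (f z))) s =
      conj (f (ι R s)) * a s := hs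
    rw [hs', map_mul, Complex.conj_conj]
    simp only [hd]
    ring
  refine ⟨w₀.comp (op Ψ f), μ, hμ, _, b, hrep.mul_left hfc, ?_, ?_, ?_⟩
  · filter_upwards [mv_ae' (Complex.continuous_conj.comp hfc) a] with s hs hsb
    have hs' : (Pool.Agent.Y271.RO.mv (ι R) a (fun z => conj (f z))) s =
      conj (f (ι R s)) * a s := hs
    rw [hs', hf0 _ hsb]
    simp
  · intro z hz
    rw [hct]
    exact cau_ne (ι_meas R) hFi hF0 ht hGi hG0 hG1 hpos hdist hz
  · rw [hct]
    exact cau_diff (ι_meas R) hFi hF0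

end rep

end Pool.Agent.Q98.RB
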