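import Pool.Agent.Q98.RB.Test
import Pool.Agent.Q98.RB.HtCont

/-!
# The case of a function `f` which vanishes on a set of positive area
-/

set_option autoImplicit false

namespace Pool.Agent.Q98.RB

open MeasureTheory Set Metric Filter Topology
open scoped ENNReal NNReal ComplexConjugate ContDiff
open Pool.Agent.Y283.NK (ct)
open Pool.Agent.Y271.RO (db ht Bd ff hHT hCTG)
open Pool.Agent.Y812.RO.ZERO (bd_pow)

variable {X : Type} [NormedAddCommGroup X] [NormedSpace ℂ X]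
variable {N : X →L[ℂ] X} {R : ℝ} {Ψ : C(DD R, ℂ) →ₐ[ℂ] (X →L[ℂ] X)}

/-- the pairing of a functional with the vector `(ht g)(N) u` -/
theorem pair_ht {w : X →L[ℂ] ℂ} {x : X} {μ : Measure (DD R)} [IsFiniteMeasure μ]
    {w' x' : Lp ℂ 2 μ} (h : Rep Ψ w x μ w' x') {c : ℂ} {r M : ℝ} (hr : 0 < r) {g : ℂ → ℂ}
    (hg : Bd g c r M) :
    w (op Ψ (ht g) x) = ∫ z, g z * ct (ι R) w' x' z := by
  rw [h _ (ht_cont hr hg)]
  exact ((hCTG (DD R) μ (ι R) (ι_meas R) w' x').2.2 c r M g hg).2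

theorem zero_key (hΨ : Cal N R Ψ) {u : X} {v : X →L[ℂ] ℂ} {μ₀ : Measure (DD R)}
    [IsFiniteMeasure μ₀] {v' u' : Lp ℂ 2 μ₀} (hrep : Rep Ψ v u μ₀ v' u') {a : ℂ} {r : ℝ}
    (hr : 0 < r) (hch : ¬ HasCh (T1 N u v) a r) {g : ℂ → ℂ}
    (hg : Bd g a r 1) (hg0 : ∀ z, ff (ι R) u' v' z ≠ 0 → g z = 0)
    {w : X →L[ℂ] ℂ} {μ : Measure (DD R)} [IsFiniteMeasure μ] {w' x' : Lp ℂ 2 μ}
    (hw : Rep Ψ w u μ w' x') :
    ∫ z, g z * ct (ι R) w' x' z = 0 := by
  obtain ⟨K, hK0, hK⟩ := hHT r hr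
  obtain ⟨C₀, hC₀, hop⟩ := op_bound hΨ
  set G : ℕ → ℂ → ℂ := fun k z => (z - a) ^ k * g z with hGdef
  have hG : ∀ k, Bd (G k) a r (r ^ k) := bd_pow hr hg
  have hGs : ∀ k, G (k + 1) = fun z => (z - a) * G k z := by
    intro k
    funext z
    simp only [hGdef]
    ring
  have hGc : ∀ k, Continuous (ht (G k)) := fun k => ht_cont hr (hG k)
  have hT : ∀ k, (∀ l, ‖ht (G k) l‖ ≤ K * r ^ k) ∧
      ∀ l, (l - a) * ht (G k) l = ht (G (k + 1)) l + -∫ z, G k z := by
    intro k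
    obtain ⟨-, -, -, h2, h3⟩ := hK a (r ^ k) (G k) (hG k)
    refine ⟨h2, fun l => ?_⟩
    rw [hGs k, h3 a l]
    ring
  set Y : ℕ → X := fun k => op Ψ (ht (G k)) u with hYdef
  have hin : ∀ k, v (Y k) = ∫ z, G k z := by
    intro k
    simp only [hYdef]
    rw [pair_ht hrep hr (hG k)]
    refine integral_congr_ae (Eventually.of_forall fun z => ?_)
    by_cases hz : ff (ι R) u' v' z = 0
    · have h1 : ct (ι R) v' u' z = 1 := by
        unfold ff at hz
        exact (sub_eq_zero.1 hz).symm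
      simp only [h1, mul_one]
    · have h1 : G k z = 0 := by simp only [hGdef, hg0 z hz, mul_zero]
      simp only [h1, zero_mul]
  have hstep : ∀ k, T1 N u v (Y k) - a • Y k = Y (k + 1) := by
    intro k
    have h1 := op_step hΨ (hGc k) (hGc (k + 1)) a (-∫ z, G k z) (hT k).2 u
    rw [T1_apply, hin k]
    simp only [hYdef]
    rw [add_sub_right_comm, h1, neg_smul]
    abel
  have hchain : IsChain (T1 N u v) a r Y := by
    refine ⟨hstep, C₀ * K * ‖u‖, fun k => ?_⟩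
    have h1 := hop (ht (G k)) (K * r ^ k) (hGc k) (by positivity) (fun z _ => (hT k).1 z)
    calc ‖Y k‖ ≤ ‖op Ψ (ht (G k))‖ * ‖u‖ := (op Ψ (ht (G k))).le_opNorm u
      _ ≤ C₀ * (K * r ^ k) * ‖u‖ := by gcongr
      _ = C₀ * K * ‖u‖ * r ^ k := by ring
  have hY0 : Y 0 = 0 := by
    by_contra h
    exact hch ⟨Y, hchain, h⟩
  have h1 := pair_ht hw hr (hG 0)
  have h3 : w (op Ψ (ht (G 0)) u) = 0 := by
    have : op Ψ (ht (G 0)) u = 0 := hY0
    rw [this, map_zero]
  rw [h3] at h1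
  have h2 : (fun z => G 0 z * ct (ι R) w' x' z) = fun z => g z * ct (ι R) w' x' z := by
    funext z
    simp [hGdef]
  rw [h2] at h1
  exact h1.symm

theorem zero (hΨ : Cal N R Ψ) {u : X} {v : X →L[ℂ] ℂ} {μ₀ : Measure (DD R)}
    [IsFiniteMeasure μ₀] {v' u' : Lp ℂ 2 μ₀} (hrep : Rep Ψ v u μ₀ v' u') {a : ℂ} {r : ℝ}
    (hr : 0 < r) (hu : u ≠ 0)
    (hno : ¬ ∀ᵐ z ∂(volume.restrict (ball a r)), ff (ι R) u' v' z ≠ 0) :
    HasCh (T1 N u v) a r := by
  by_contra hch
  apply hno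
  have hfm : Measurable (ff (ι R) u' v') := by
    unfold ff
    exact measurable_const.sub (hCTG (DD R) μ₀ (ι R) (ι_meas R) v' u').1
  set E : Set ℂ := {z | z ∈ ball a r ∧ ff (ι R) u' v' z = 0} with hEdef
  have hE : MeasurableSet E :=
    measurableSet_ball.inter (hfm (measurableSet_singleton 0))
  have hzero : ∀ (w : X →L[ℂ] ℂ) (μ : Measure (DD R)) (_ : IsFiniteMeasure μ)
      (w' x' : Lp ℂ 2 μ), Rep Ψ w u μ w' x' → ∀ᵐ z : ℂ, z ∈ E → ct (ι R) w' x' z = 0 := by
    intro w μ _ w' x' hw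
    obtain ⟨hxm, -, hxg⟩ := hCTG (DD R) μ (ι R) (ι_meas R) w' x'
    set c : ℂ → ℂ := ct (ι R) w' x' with hc
    set g : ℂ → ℂ := E.indicator fun z => conj (c z) / ‖c z‖ with hgdef
    have hgm : Measurable g := by
      refine Measurable.indicator ?_ hE
      exact (Complex.continuous_conj.measurable.comp hxm).div
        (Complex.measurable_ofReal.comp hxm.norm)
    have hg : Bd g a r 1 := by
      refine ⟨hgm, zero_le_one, fun z => ?_, fun z hz => ?_⟩
      · by_cases hz : z ∈ E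
        · rw [hgdef, indicator_of_mem hz, norm_div, RCLike.norm_conj, Complex.norm_real, norm_norm]
          exact div_self_le_one _
        · rw [hgdef, indicator_of_notMem hz, norm_zero]
          exact zero_le_one
      · exact indicator_of_notMem (fun h => hz h.1) _
    have hg0 : ∀ z, ff (ι R) u' v' z ≠ 0 → g z = 0 := fun z hz =>
      indicator_of_notMem (fun h => hz h.2) _
    have h1 : ∫ z, g z * c z = 0 := zero_key hΨ hrep hr hch hg hg0 hw
    have h2 := (hxg a r 1 g hg).1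
    have h3 : ∀ z, g z * c z = ((E.indicator (fun z => ‖c z‖) z : ℝ) : ℂ) := by
      intro z
      by_cases hz : z ∈ E
      · rw [hgdef, indicator_of_mem hz, indicator_of_mem hz]
        by_cases hcz : c z = 0
        · simp [hcz]
        · have h4 : (‖c z‖ : ℂ) ≠ 0 := by
            exact_mod_cast (norm_ne_zero_iff.2 hcz)
          rw [div_mul_eq_mul_div, div_eq_iff h4, ← Complex.normSq_eq_conj_mul_self,
            Complex.normSq_eq_norm_sq]
          push_cast
          ring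
      · rw [hgdef, indicator_of_notMem hz, indicator_of_notMem hz]
        simp
    simp only [h3] at h1 h2
    rw [integral_complex_ofReal] at h1
    have h5 : ∫ z, E.indicator (fun z => ‖c z‖) z = 0 := by exact_mod_cast h1
    have h6 : Integrable (E.indicator fun z => ‖c z‖) := by
      have := h2.re
      simpa using this
    rw [integral_eq_zero_iff_of_nonneg (fun z => indicator_nonneg (fun _ _ => norm_nonneg _) z)
      h6] at h5
    filter_upwards [h5] with z hz hzE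
    rw [indicator_of_mem hzE] at hz
    exact norm_eq_zero.1 hz
  obtain ⟨l, hl⟩ := test hΨ u hu
  choose w μ hμ w' x' hx1 hx2 hx3 hx4 using fun n : ℕ => hl (1 / (n + 1)) (by positivity)
  have hall : ∀ᵐ z : ℂ, ∀ n, z ∈ E → ct (ι R) (w' n) (x' n) z = 0 :=
    ae_all_iff.2 fun n => hzero (w n) (μ n) (hμ n) (w' n) (x' n) (hx1 n)
  have hne : ∀ᵐ z : ℂ, z ≠ l := by
    rw [ae_iff]
    simp
  rw [ae_restrict_iff' measurableSet_ball]
  filter_upwards [hall, hne] with z hz hzl hzb hz0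
  have hzE : z ∈ E := ⟨hzb, hz0⟩
  have h1 : 0 < ‖z - l‖ := norm_pos_iff.2 (sub_ne_zero.2 hzl)
  obtain ⟨n, hn⟩ := exists_nat_one_div_lt (half_pos h1)
  refine hx3 n z ?_ (hz n hzE)
  linarith

end Pool.Agent.Q98.RB
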